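import Pool.Agent.Helper3.TG.SharpDefs
import Pool.Agent.Helper3.Crit.Prob1

/-! SH5: many good boxes make a big good box. -/

open scoped ENNReal NNReal
open MeasureTheory Set Filter Topology

noncomputable section

namespace Pool.Agent.Helper3.TG

open Pool.Agent.Helper3.Anderson Pool.Agent.Helper3.Crit

variable {d : ℕ} {μ : Measure ℝ} [IsProbabilityMeasure μ] {M lam : ℝ} {K : ℝ≥0}

theorem all_good {V : Site d → ℝ} {z : ℂ} {l L l' L' h : ℕ} {ρ κ : ℝ} (hl : 1 ≤ l) (hρ : 0 ≤ ρ)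
    (hκ : 0 ≤ κ) (hn : l' + h * (L + l) ≤ L')
    (hg : ∀ a : Site d, sn (l • a) + L ≤ L' → GoodBox V z (l • a) l L ρ)
    (hbig : GoodBox V z 0 L' L' κ) :
    GoodBox V z 0 l' L' (ρ ^ h * κ) := by
  intro ψ b hb hbd hhop
  have hhop' : ∀ u : Site d, sn u ≤ L' → hop V z ψ u = 0 := fun u hu => hhop u (by simpa using hu)
  set F : ℕ → ℝ := det_F ψ with hF
  have hglob : F L' ≤ κ * b :=
    det_F_le ψ fun y hy => hbig ψ b hb hbd hhop y (by simpa using hy)
  have hstep : ∀ r : ℕ, r + (L + l) ≤ L' → F r ≤ ρ * F (r + (L + l)) := by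
    intro r hr
    refine det_F_le ψ fun y hy => ?_
    obtain ⟨a, ha⟩ := det_near hl y
    have e1 : sn (l • a) ≤ sn y + (l - 1) := by
      have := sn_sub_le y (y - l • a)
      rw [sub_sub_cancel] at this
      omega
    refine hg a (by omega) ψ (F (r + (L + l))) (det_F_nonneg ψ _) ?_ ?_ y (by omega)
    · intro w hw
      refine le_det_F ψ ?_
      have := sn_add_le (w - l • a) (l • a)
      rw [sub_add_cancel] at this
      omega
    · intro u hu
      refine hhop' u ?_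
      have := sn_add_le (u - l • a) (l • a)
      rw [sub_add_cancel] at this
      omega
  have hit : F l' ≤ ρ ^ h * F (l' + h * (L + l)) := by
    refine det_iter F hρ l' (L + l) h fun j hj => ?_
    have hj' : (j + 1) * (L + l) ≤ h * (L + l) := Nat.mul_le_mul_right _ hj
    have e : (j + 1) * (L + l) = j * (L + l) + (L + l) := by ring
    have := hstep (l' + j * (L + l)) (by omega)
    rw [e, ← add_assoc]
    exact this
  intro y hy
  have h1 : ‖ψ y‖ ≤ F l' := le_det_F ψ (by simpa using hy)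
  have h3 : F (l' + h * (L + l)) ≤ κ * b := (det_F_mono ψ hn).trans hglob
  calc ‖ψ y‖ ≤ ρ ^ h * F (l' + h * (L + l)) := h1.trans hit
    _ ≤ ρ ^ h * (κ * b) := mul_le_mul_of_nonneg_left h3 (pow_nonneg hρ _)
    _ = ρ ^ h * κ * b := by ring

theorem prob_all_good (hμ : GoodLaw μ M K) (hlam : 0 < lam) {z : ℂ} (hz : 0 ≤ z.im)
    {l L l' L' h A : ℕ} {ρ t : ℝ} (hl : 1 ≤ l) (hlL : l ≤ L) (hρ : 0 ≤ ρ)
    (hn : l' + h * (L + l) ≤ L') (hA : L' ≤ A * l) :
    (PP d μ).real {ω | ¬ GoodBox (potc M lam ω) z 0 l' L' (ρ ^ h * Real.exp t)}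
      ≤ ((2 * A + 1 : ℕ) : ℝ) ^ d * (PP d μ).real {ω | ¬ GoodBox (potc M lam ω) z 0 l L ρ}
        + wg d M lam K L' t := by
  classical
  set p : ℝ := (PP d μ).real {ω | ¬ GoodBox (potc M lam ω) z 0 l L ρ} with hp
  set E2 : Set (Site d → ℝ) := ⋃ a ∈ box (0 : Site d) A,
    {ω | ¬ GoodBox (potc M lam ω) z (l • a) l L ρ} with hE2
  set E3 : Set (Site d → ℝ) :=
    {ω | ¬ GB (potc M lam ω) z 0 L' L' (Real.exp t) (Real.exp t)} with hE3
  have hmem : ∀ a : Site d, sn (l • a) + L ≤ L' → a ∈ box (0 : Site d) A := by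
    intro a ha
    rw [mem_box, sub_zero]
    rw [sn_nsmul] at ha
    have h1 : l * sn a ≤ A * l := by omega
    rw [mul_comm A l] at h1
    exact Nat.le_of_mul_le_mul_left h1 hl
  have hsub : {ω | ¬ GoodBox (potc M lam ω) z 0 l' L' (ρ ^ h * Real.exp t)} ⊆ E2 ∪ E3 := by
    intro ω hω
    by_contra hcon
    simp only [mem_union, not_or] at hcon
    obtain ⟨h2, h3⟩ := hcon
    refine hω (all_good hl hρ (Real.exp_pos t).le hn ?_ ?_)
    · intro a ha
      by_contra hno
      apply h2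
      rw [hE2]
      simp only [mem_iUnion]
      exact ⟨a, hmem a ha, hno⟩
    · by_contra hno
      exact h3 fun hGB => hno hGB.good
  have hcard : ((box (0 : Site d) A).card : ℝ) = ((2 * A + 1 : ℕ) : ℝ) ^ d := by
    rw [card_box]; push_cast; ring
  have hb2 : (PP d μ).real E2 ≤ ((2 * A + 1 : ℕ) : ℝ) ^ d * p := by
    calc (PP d μ).real E2 ≤ ∑ a ∈ box (0 : Site d) A, (PP d μ).real
          {ω | ¬ GoodBox (potc M lam ω) z (l • a) l L ρ} :=
          measureReal_biUnion_finset_le _ _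
      _ = ∑ a ∈ box (0 : Site d) A, p :=
          Finset.sum_congr rfl fun a _ => bad_prob_eq M lam z (l • a) l L (by omega) ρ
      _ = _ := by rw [Finset.sum_const, nsmul_eq_mul, hcard]
  have hb3 : (PP d μ).real E3 ≤ wg d M lam K L' t := wegner hμ hlam hz 0 L' t
  calc (PP d μ).real {ω | ¬ GoodBox (potc M lam ω) z 0 l' L' (ρ ^ h * Real.exp t)}
      ≤ (PP d μ).real (E2 ∪ E3) := measureReal_mono hsub
    _ ≤ (PP d μ).real E2 + (PP d μ).real E3 := measureReal_union_le _ _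
    _ ≤ _ := by linarith

end Pool.Agent.Helper3.TG
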