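import Pool.Agent.Helper3.TG.FisherDefs

/-! CE1: the total variation distance between a product law of finite Fisher information and
its shift. -/

open scoped ENNReal NNReal
open MeasureTheory Set Filter Topology

noncomputable section

namespace Pool.Agent.Helper3.TG

variable {ι : Type*} [Fintype ι] {μ : Measure ℝ} [IsProbabilityMeasure μ] {f : ℝ → ℝ} {κ : ℝ}

theorem Fisher.lint (hf : Fisher μ f κ) : ∫⁻ x : ℝ, ENNReal.ofReal (f x ^ 2) = 1 := by
  have h : μ univ = 1 := measure_univ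
  rw [hf.dens, withDensity_apply _ MeasurableSet.univ, Measure.restrict_univ] at h
  exact h

theorem Fisher.int_sq (hf : Fisher μ f κ) : Integrable (fun x => f x ^ 2) := by
  refine ⟨(hf.meas.pow_const 2).aestronglyMeasurable, ?_⟩
  rw [hasFiniteIntegral_iff_ofReal (Eventually.of_forall fun x => sq_nonneg _), hf.lint]
  exact ENNReal.one_lt_top

theorem Fisher.integral_sq (hf : Fisher μ f κ) : ∫ x, f x ^ 2 = 1 := by
  have h := ofReal_integral_eq_lintegral_ofReal hf.int_sq
    (Eventually.of_forall fun x => sq_nonneg _)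
  rw [hf.lint] at h
  have h2 : 0 ≤ ∫ x, f x ^ 2 := integral_nonneg fun x => sq_nonneg _
  rw [← ENNReal.toReal_ofReal h2, h, ENNReal.toReal_one]

theorem Fisher.int_shift_sq (hf : Fisher μ f κ) (s : ℝ) :
    Integrable (fun x => f (x + s) ^ 2) := hf.int_sq.comp_add_right s

theorem Fisher.integral_shift_sq (hf : Fisher μ f κ) (s : ℝ) :
    ∫ x, f (x + s) ^ 2 = 1 := by
  rw [integral_add_right_eq_self (fun x => f x ^ 2) s, hf.integral_sq]

theorem Fisher.int_mul (hf : Fisher μ f κ) (s : ℝ) :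
    Integrable (fun x => f x * f (x + s)) := by
  have hm : Measurable fun x => f (x + s) := hf.meas.comp (measurable_id.add_const s)
  refine (hf.int_sq.add (hf.int_shift_sq s)).mono' (hf.meas.mul hm).aestronglyMeasurable
    (Eventually.of_forall fun x => ?_)
  rw [Real.norm_eq_abs, abs_of_nonneg (mul_nonneg (hf.nonneg _) (hf.nonneg _))]
  show _ ≤ f x ^ 2 + f (x + s) ^ 2
  nlinarith [sq_nonneg (f x - f (x + s)), sq_nonneg (f x), sq_nonneg (f (x + s))]

/-- the overlap -/
theorem Fisher.overlap (hf : Fisher μ f κ) (s : ℝ) :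
    0 ≤ ∫ x, f x * f (x + s) ∧ ∫ x, f x * f (x + s) ≤ 1 ∧
      2 - 2 * ∫ x, f x * f (x + s) ≤ κ ^ 2 * s ^ 2 := by
  have h1 : 0 ≤ ∫ x, f x * f (x + s) :=
    integral_nonneg fun x => mul_nonneg (hf.nonneg _) (hf.nonneg _)
  have h2 : ∫ x, (f (x + s) - f x) ^ 2 = 2 - 2 * ∫ x, f x * f (x + s) := by
    have e : (fun x => (f (x + s) - f x) ^ 2) =
        fun x => f (x + s) ^ 2 + f x ^ 2 - 2 * (f x * f (x + s)) := by
      funext x
      ring
    rw [e]
    have e1 : ∫ x, (f (x + s) ^ 2 + f x ^ 2 - 2 * (f x * f (x + s))) =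
        (∫ x, (f (x + s) ^ 2 + f x ^ 2)) - ∫ x, 2 * (f x * f (x + s)) :=
      integral_sub ((hf.int_shift_sq s).add hf.int_sq) ((hf.int_mul s).const_mul 2)
    have e2 : ∫ x, (f (x + s) ^ 2 + f x ^ 2) = (∫ x, f (x + s) ^ 2) + ∫ x, f x ^ 2 :=
      integral_add (hf.int_shift_sq s) hf.int_sq
    rw [e1, e2, hf.integral_sq, hf.integral_shift_sq, integral_const_mul]
    norm_num
  have h3 : 0 ≤ ∫ x, (f (x + s) - f x) ^ 2 := integral_nonneg fun x => sq_nonneg _
  have h4 : Integrable (fun x => (f (x + s) - f x) ^ 2) := by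
    have e : (fun x => (f (x + s) - f x) ^ 2) =
        fun x => f (x + s) ^ 2 + f x ^ 2 - 2 * (f x * f (x + s)) := by
      funext x
      ring
    rw [e]
    exact ((hf.int_shift_sq s).add hf.int_sq).sub ((hf.int_mul s).const_mul 2)
  refine ⟨h1, by linarith, ?_⟩
  rw [← h2]
  have h5 := hf.shift (-s)
  simp only [sub_neg_eq_add, neg_sq] at h5
  rw [← ofReal_integral_eq_lintegral_ofReal h4 (Eventually.of_forall fun x => sq_nonneg _)] at h5
  exact (ENNReal.ofReal_le_ofReal_iff (by positivity)).1 h5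

theorem Fisher.pi_eq (hf : Fisher μ f κ) :
    (Measure.pi fun _ : ι => μ) =
      volume.withDensity (fun x : ι → ℝ => ENNReal.ofReal (∏ i, f (x i) ^ 2)) := by
  apply Measure.pi_eq
  intro t ht
  rw [withDensity_apply _ (MeasurableSet.univ_pi ht)]
  have h1 : Integrable (fun x : ι → ℝ => ∏ i, f (x i) ^ 2)
      (volume.restrict (univ.pi t)) := (Integrable.fintype_prod fun _ => hf.int_sq).restrict
  rw [← ofReal_integral_eq_lintegral_ofReal h1
    (Eventually.of_forall fun x => Finset.prod_nonneg fun i _ => sq_nonneg _)]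
  have h2 : (volume : Measure (ι → ℝ)).restrict (univ.pi t) =
      Measure.pi fun i => (volume : Measure ℝ).restrict (t i) := by
    rw [volume_pi, Measure.restrict_pi_pi]
  rw [h2, integral_fintype_prod_eq_prod (fun (_ : ι) (x : ℝ) => f x ^ 2),
    ENNReal.ofReal_prod_of_nonneg fun i _ => integral_nonneg fun x => sq_nonneg _]
  refine Finset.prod_congr rfl fun i _ => ?_
  rw [hf.dens, withDensity_apply _ (ht i), ofReal_integral_eq_lintegral_ofReal
    hf.int_sq.restrict (Eventually.of_forall fun x => sq_nonneg _)]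

theorem Fisher.int_prod_sq (hf : Fisher μ f κ) (s : ℝ) :
    Integrable (fun x : ι → ℝ => ∏ i, f (x i + s) ^ 2) :=
  Integrable.fintype_prod fun _ => hf.int_shift_sq s

theorem Fisher.real_eq (hf : Fisher μ f κ) {A : Set (ι → ℝ)} (hA : MeasurableSet A) :
    (Measure.pi fun _ : ι => μ).real A = ∫ x in A, ∏ i, f (x i) ^ 2 := by
  have h1 : Integrable (fun x : ι → ℝ => ∏ i, f (x i) ^ 2) :=
    Integrable.fintype_prod fun _ => hf.int_sq
  rw [Measure.real, hf.pi_eq, withDensity_apply _ hA, ← ofReal_integral_eq_lintegral_ofReal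
    h1.restrict (Eventually.of_forall fun x => Finset.prod_nonneg fun i _ => sq_nonneg _),
    ENNReal.toReal_ofReal (integral_nonneg fun x => Finset.prod_nonneg fun i _ => sq_nonneg _)]

theorem Fisher.real_shift_eq (hf : Fisher μ f κ) (s : ℝ) {A : Set (ι → ℝ)}
    (hA : MeasurableSet A) :
    (Measure.pi fun _ : ι => μ).real {x | (fun i => x i - s) ∈ A} =
      ∫ x in A, ∏ i, f (x i + s) ^ 2 := by
  have hB : MeasurableSet {x : ι → ℝ | (fun i => x i - s) ∈ A} := by
    have : Measurable fun x : ι → ℝ => (fun i => x i - s) :=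
      by fun_prop
    exact this hA
  rw [hf.real_eq hB, ← integral_indicator hB, ← integral_indicator hA,
    ← integral_add_right_eq_self _ (fun _ : ι => s)]
  congr 1
  funext x
  by_cases hx : x ∈ A
  · rw [indicator_of_mem hx, indicator_of_mem]
    · rfl
    · show (fun i => (x + fun _ => s : ι → ℝ) i - s) ∈ A
      have : (fun i => (x + fun _ => s : ι → ℝ) i - s) = x := by
        funext i
        simp
      rw [this]
      exact hx
  · rw [indicator_of_notMem hx, indicator_of_notMem]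
    show ¬ (fun i => (x + fun _ => s : ι → ℝ) i - s) ∈ A
    have : (fun i => (x + fun _ => s : ι → ℝ) i - s) = x := by
      funext i
      simp
    rw [this]
    exact hx

theorem tv_shift {ι : Type*} [Fintype ι] {μ : Measure ℝ} [IsProbabilityMeasure μ] {f : ℝ → ℝ}
    {κ : ℝ} (hf : Fisher μ f κ) (hκ : 0 ≤ κ) (s : ℝ) {A : Set (ι → ℝ)} (hA : MeasurableSet A) :
    (Measure.pi fun _ : ι => μ).real {x | (fun i => x i - s) ∈ A}
      ≤ (Measure.pi fun _ : ι => μ).real A + 2 * κ * |s| * Real.sqrt (Fintype.card ι) := by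
  rw [hf.real_eq hA, hf.real_shift_eq s hA]
  set F : (ι → ℝ) → ℝ := fun x => ∏ i, f (x i) with hF
  set G : (ι → ℝ) → ℝ := fun x => ∏ i, f (x i + s) with hG
  have iF : Integrable (fun x => F x ^ 2) := by
    have h1 : Integrable (fun x : ι → ℝ => ∏ i, f (x i) ^ 2) :=
      Integrable.fintype_prod fun _ => hf.int_sq
    refine h1.congr (Eventually.of_forall fun x => ?_)
    exact Finset.prod_pow _ _ _
  have iG : Integrable (fun x => G x ^ 2) := by
    refine (hf.int_prod_sq (ι := ι) s).congr (Eventually.of_forall fun x => ?_)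
    exact Finset.prod_pow _ _ _
  have iFG : Integrable (fun x => F x * G x) := by
    have h1 : Integrable (fun x : ι → ℝ => ∏ i, f (x i) * f (x i + s)) :=
      Integrable.fintype_prod fun _ => hf.int_mul s
    refine h1.congr (Eventually.of_forall fun x => ?_)
    exact Finset.prod_mul_distrib
  set N := Fintype.card ι with hN
  set c := ∫ x, f x * f (x + s) with hc
  obtain ⟨c0, c1, c2⟩ := hf.overlap s
  have eF : ∫ x, F x ^ 2 = 1 := by
    have h1 : ∫ x : ι → ℝ, ∏ i, f (x i) ^ 2 = 1 := by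
      rw [integral_fintype_prod_volume_eq_prod (fun (_ : ι) (x : ℝ) => f x ^ 2)]
      simp [hf.integral_sq]
    rw [← h1]
    refine integral_congr_ae (Eventually.of_forall fun x => ?_)
    exact (Finset.prod_pow _ _ _).symm
  have eG : ∫ x, G x ^ 2 = 1 := by
    have h1 : ∫ x : ι → ℝ, ∏ i, f (x i + s) ^ 2 = 1 := by
      rw [integral_fintype_prod_volume_eq_prod (fun (_ : ι) (x : ℝ) => f (x + s) ^ 2)]
      simp [hf.integral_shift_sq]
    rw [← h1]
    refine integral_congr_ae (Eventually.of_forall fun x => ?_)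
    exact (Finset.prod_pow _ _ _).symm
  have eFG : ∫ x, F x * G x = c ^ N := by
    have h1 : ∫ x : ι → ℝ, ∏ i, f (x i) * f (x i + s) = c ^ N := by
      rw [integral_fintype_prod_volume_eq_prod (fun (_ : ι) (x : ℝ) => f x * f (x + s))]
      rw [Finset.prod_const, Finset.card_univ]
    rw [← h1]
    refine integral_congr_ae (Eventually.of_forall fun x => ?_)
    exact Finset.prod_mul_distrib.symm
  have hbern : 1 - c ^ N ≤ N * (1 - c) := by
    have := one_add_mul_le_pow (a := c - 1) (by linarith) N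
    rw [show 1 + (c - 1) = c by ring] at this
    linarith
  have hcN : c ^ N ≤ 1 := pow_le_one₀ c0 c1
  set D := κ * |s| * Real.sqrt N with hD
  have hD0 : 0 ≤ D := by positivity
  have hDsq : D ^ 2 = N * (κ ^ 2 * s ^ 2) := by
    rw [hD, mul_pow, mul_pow, sq_abs, Real.sq_sqrt (Nat.cast_nonneg N)]
    ring
  have ha : 2 - 2 * c ^ N ≤ D ^ 2 := by
    rw [hDsq]
    have hN0 : (0 : ℝ) ≤ N := Nat.cast_nonneg N
    nlinarith [mul_le_mul_of_nonneg_left c2 hN0]
  -- the main estimate
  have main : ∀ ε : ℝ, 0 < ε → ∫ x in A, (G x ^ 2 - F x ^ 2) ≤ 2 * (D + ε) := by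
    intro ε hε
    set E := D + ε with hE
    have hE0 : 0 < E := by linarith
    have i1 : Integrable (fun x => E⁻¹ * (G x ^ 2 + F x ^ 2 - 2 * (F x * G x)) +
        (E / 4) * (G x ^ 2 + F x ^ 2 + 2 * (F x * G x))) :=
      (((iG.add iF).sub (iFG.const_mul 2)).const_mul _).add
        (((iG.add iF).add (iFG.const_mul 2)).const_mul _)
    have hpt : ∀ x, G x ^ 2 - F x ^ 2 ≤ E⁻¹ * (G x ^ 2 + F x ^ 2 - 2 * (F x * G x)) +
        (E / 4) * (G x ^ 2 + F x ^ 2 + 2 * (F x * G x)) := by
      intro x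
      have h1 : 0 ≤ E⁻¹ * ((G x - F x) - E / 2 * (G x + F x)) ^ 2 := by positivity
      have h2 : E⁻¹ * ((G x - F x) - E / 2 * (G x + F x)) ^ 2 =
          E⁻¹ * (G x ^ 2 + F x ^ 2 - 2 * (F x * G x)) +
        (E / 4) * (G x ^ 2 + F x ^ 2 + 2 * (F x * G x)) - (G x ^ 2 - F x ^ 2) := by
        field_simp
        ring
      linarith
    have hpos : ∀ x, 0 ≤ E⁻¹ * (G x ^ 2 + F x ^ 2 - 2 * (F x * G x)) +
        (E / 4) * (G x ^ 2 + F x ^ 2 + 2 * (F x * G x)) := by
      intro x
      have h1 : G x ^ 2 + F x ^ 2 - 2 * (F x * G x) = (G x - F x) ^ 2 := by ring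
      have h2 : G x ^ 2 + F x ^ 2 + 2 * (F x * G x) = (G x + F x) ^ 2 := by ring
      rw [h1, h2]
      positivity
    calc ∫ x in A, (G x ^ 2 - F x ^ 2)
        ≤ ∫ x in A, (E⁻¹ * (G x ^ 2 + F x ^ 2 - 2 * (F x * G x)) +
        (E / 4) * (G x ^ 2 + F x ^ 2 + 2 * (F x * G x))) :=
          integral_mono (iG.sub iF).restrict i1.restrict hpt
      _ ≤ ∫ x, (E⁻¹ * (G x ^ 2 + F x ^ 2 - 2 * (F x * G x)) +
        (E / 4) * (G x ^ 2 + F x ^ 2 + 2 * (F x * G x))) :=
          setIntegral_le_integral i1 (Eventually.of_forall hpos)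
      _ = E⁻¹ * (2 - 2 * c ^ N) + (E / 4) * (2 + 2 * c ^ N) := by
          have q1 : ∫ x, (E⁻¹ * (G x ^ 2 + F x ^ 2 - 2 * (F x * G x)) +
              (E / 4) * (G x ^ 2 + F x ^ 2 + 2 * (F x * G x))) =
              (∫ x, E⁻¹ * (G x ^ 2 + F x ^ 2 - 2 * (F x * G x))) +
              ∫ x, (E / 4) * (G x ^ 2 + F x ^ 2 + 2 * (F x * G x)) :=
            integral_add (((iG.add iF).sub (iFG.const_mul 2)).const_mul _)
              (((iG.add iF).add (iFG.const_mul 2)).const_mul _)
          have q2 : ∫ x, (G x ^ 2 + F x ^ 2 - 2 * (F x * G x)) =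
              (∫ x, (G x ^ 2 + F x ^ 2)) - ∫ x, 2 * (F x * G x) :=
            integral_sub (iG.add iF) (iFG.const_mul 2)
          have q3 : ∫ x, (G x ^ 2 + F x ^ 2 + 2 * (F x * G x)) =
              (∫ x, (G x ^ 2 + F x ^ 2)) + ∫ x, 2 * (F x * G x) :=
            integral_add (iG.add iF) (iFG.const_mul 2)
          have q4 : ∫ x, (G x ^ 2 + F x ^ 2) = (∫ x, G x ^ 2) + ∫ x, F x ^ 2 :=
            integral_add iG iF
          rw [q1, integral_const_mul, integral_const_mul, q2, q3, q4, integral_const_mul, eF, eG,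
            eFG]
          ring
      _ ≤ E⁻¹ * E ^ 2 + (E / 4) * 4 := by
          have h1 : 2 - 2 * c ^ N ≤ E ^ 2 := by nlinarith
          have h2 : 2 + 2 * c ^ N ≤ 4 := by linarith
          exact add_le_add (mul_le_mul_of_nonneg_left h1 (by positivity))
            (mul_le_mul_of_nonneg_left h2 (by positivity))
      _ = 2 * E := by
          field_simp
          ring
  have hfin : ∫ x in A, (G x ^ 2 - F x ^ 2) ≤ 2 * D := by
    refine le_of_forall_pos_le_add fun ε hε => ?_
    have := main (ε / 2) (by positivity)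
    linarith
  rw [integral_sub iG.restrict iF.restrict] at hfin
  have e1 : ∫ x in A, ∏ i, f (x i + s) ^ 2 = ∫ x in A, G x ^ 2 := by
    refine integral_congr_ae (Eventually.of_forall fun x => ?_)
    exact Finset.prod_pow _ _ _
  have e2 : ∫ x in A, ∏ i, f (x i) ^ 2 = ∫ x in A, F x ^ 2 := by
    refine integral_congr_ae (Eventually.of_forall fun x => ?_)
    exact Finset.prod_pow _ _ _
  rw [e1, e2]
  have e3 : 2 * κ * |s| * Real.sqrt N = 2 * D := by
    rw [hD]
    ring
  rw [e3]
  linarith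

end Pool.Agent.Helper3.TG
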