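import Pool.Agent.Helper3.TG.FisherDefs
import Pool.Agent.Helper3.TG.TvShift

/-! Energy shift of box events at a cost of order the square root of the volume. -/

open scoped ENNReal NNReal
open MeasureTheory Set Filter Topology

noncomputable section

namespace Pool.Agent.Helper3.TG

open Pool.Agent.Helper3.Anderson Pool.Agent.Helper3.Crit

/-- extension by zero of a configuration on a finite set -/
def extz {d : ℕ} (S : Finset (Site d)) (x : S → ℝ) : Site d → ℝ :=
  fun u => if h : u ∈ S then x ⟨u, h⟩ else 0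

lemma measurable_extz {d : ℕ} (S : Finset (Site d)) : Measurable (extz S) := by
  rw [measurable_pi_iff]
  intro u
  unfold extz
  by_cases h : u ∈ S
  · simp only [h, dif_pos]
    exact measurable_pi_apply _
  · simp only [h, dif_neg, not_false_iff]
    exact measurable_const

lemma extz_restrict {d : ℕ} (S : Finset (Site d)) (ω : Site d → ℝ) :
    extz S (S.restrict ω) = rs S ω := by
  funext u
  unfold extz rs
  by_cases h : u ∈ S
  · rw [dif_pos h, if_pos h]; rfl
  · rw [dif_neg h, if_neg h]

lemma hop_shift {d : ℕ} (V W : Site d → ℝ) (z : ℂ) (s : ℝ) (ψ : Site d → ℂ) (u : Site d)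
    (h : W u = V u - s) : hop W z ψ u = hop V (z + s) ψ u := by
  unfold hop
  rw [h]
  push_cast
  ring

lemma goodBox_shift {d : ℕ} {V W : Site d → ℝ} {z : ℂ} {s : ℝ} {x : Site d} {l L : ℕ} {ρ : ℝ}
    (h : ∀ u, W u = V u - s) : GoodBox W z x l L ρ ↔ GoodBox V (z + s) x l L ρ := by
  unfold GoodBox
  simp only [fun ψ u => hop_shift V W z s ψ u (h u)]

theorem bad_shift {d : ℕ} {μ : Measure ℝ} [IsProbabilityMeasure μ] {M lam : ℝ} {K : ℝ≥0}
    (hμ : GoodLaw μ M K) (hlam : 0 < lam) {f : ℝ → ℝ} {κ : ℝ} (hf : Fisher μ f κ) (hκ : 0 ≤ κ)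
    (z : ℂ) {l L : ℕ} (hl : l ≤ L + 1) (ρ : ℝ) {s : ℝ} (hs : |s| ≤ lam) :
    (PP d μ).real {ω | ¬ GoodBox (potc M lam ω) (z + s) 0 l L ρ}
      ≤ (PP d μ).real {ω | ¬ GoodBox (potc M lam ω) z 0 l L ρ}
        + 2 * κ * (|s| / lam) * Real.sqrt ((2 * L + 1) ^ d) := by
  classical
  set S : Finset (Site d) := box (0 : Site d) L with hS
  set t : ℝ := s / lam with ht
  have ht1 : |t| ≤ 1 := by
    rw [ht, abs_div, abs_of_pos hlam, div_le_one hlam]; exact hs
  have htl : lam * t = s := by rw [ht]; field_simp
  set A : Set (Site d → ℝ) := {ω | ¬ GoodBox (potc (M + 1) lam ω) z 0 l L ρ} with hA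
  have hAm : MeasurableSet A := measurableSet_bad (M + 1) lam z 0 l L hl ρ
  set B : Set (S → ℝ) := extz S ⁻¹' A with hB
  have hBm : MeasurableSet B := measurable_extz S hAm
  have hArs : ∀ ω : Site d → ℝ, ω ∈ A ↔ S.restrict ω ∈ B := by
    intro ω
    rw [hB, mem_preimage, extz_restrict]
    simp only [hA, mem_ofPred_eq]
    rw [goodBox_rs_iff (M + 1) lam z l L ρ ω]
  have hbd := ae_bdd (d := d) hμ.supp
  -- the unshifted event
  have e1 : (PP d μ).real {ω | ¬ GoodBox (potc M lam ω) z 0 l L ρ}
      = (Measure.pi fun _ : S => μ).real B := by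
    have h1 : (PP d μ).real {ω | ¬ GoodBox (potc M lam ω) z 0 l L ρ} = (PP d μ).real A := by
      refine measureReal_congr ?_
      filter_upwards [hbd] with ω hω
      have : potc M lam ω = potc (M + 1) lam ω := by
        funext u
        unfold potc
        rw [clip_of_abs_le (hω u), clip_of_abs_le ((hω u).trans (by linarith))]
      apply propext
      show (¬ GoodBox (potc M lam ω) z 0 l L ρ) ↔ (¬ GoodBox (potc (M + 1) lam ω) z 0 l L ρ)
      rw [this]
    rw [h1, ← Measure.infinitePi_map_restrict (μ := fun _ : Site d => μ) (I := S),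
      map_measureReal_apply (Finset.measurable_restrict S) hBm]
    congr 1
    ext ω
    exact hArs ω
  have e2 : (PP d μ).real {ω | ¬ GoodBox (potc M lam ω) (z + s) 0 l L ρ}
      = (Measure.pi fun _ : S => μ).real {x | (fun i => x i - t) ∈ B} := by
    have h1 : (PP d μ).real {ω | ¬ GoodBox (potc M lam ω) (z + s) 0 l L ρ}
        = (PP d μ).real {ω | (fun u => ω u - t) ∈ A} := by
      refine measureReal_congr ?_
      filter_upwards [hbd] with ω hω
      have hb : ∀ u, potc (M + 1) lam (fun u => ω u - t) u = potc M lam ω u - s := by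
        intro u
        unfold potc
        have h2 : |ω u - t| ≤ M + 1 := (abs_sub _ _).trans (add_le_add (hω u) ht1)
        rw [clip_of_abs_le (hω u), clip_of_abs_le h2, mul_sub, htl]
      apply propext
      show (¬ GoodBox (potc M lam ω) (z + s) 0 l L ρ)
        ↔ (¬ GoodBox (potc (M + 1) lam (fun u => ω u - t)) z 0 l L ρ)
      rw [goodBox_shift hb]
    have hm : MeasurableSet {x : S → ℝ | (fun i => x i - t) ∈ B} := by
      have : Measurable fun x : S → ℝ => (fun i => x i - t) := by
        rw [measurable_pi_iff]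
        intro i
        exact (measurable_pi_apply (X := fun _ : S => ℝ) i).sub_const t
      exact this hBm
    rw [h1, ← Measure.infinitePi_map_restrict (μ := fun _ : Site d => μ) (I := S),
      map_measureReal_apply (Finset.measurable_restrict S) hm]
    congr 1
    ext ω
    exact hArs _
  rw [e1, e2]
  have h := tv_shift (ι := S) hf hκ t hBm
  have hc : (Fintype.card S : ℝ) = (2 * L + 1) ^ d := by
    rw [Fintype.card_coe, hS, card_box]; push_cast; ring
  rw [hc] at h
  have h3 : |t| = |s| / lam := by rw [ht, abs_div, abs_of_pos hlam]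
  rw [h3] at h
  exact h

end Pool.Agent.Helper3.TG
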