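import Pool.Agent.Helper3.TG.Defs

/-! Transport gap, TGC: the deterministic contraction argument for the infinite volume resolvent. -/

open scoped ENNReal NNReal InnerProductSpace
open MeasureTheory Set Filter Topology

noncomputable section

namespace Pool.Agent.Helper3.TG

open Pool.Agent.Helper3.Anderson Pool.Agent.Helper3.Crit

variable {d : ℕ}

/-- restriction to the box of radius `s` -/
def cut (s : ℕ) (g : Site d → ℂ) : L2 d := ∑ y ∈ box 0 s, g y • dl y

theorem sum_dl_apply (B : Finset (Site d)) (g : Site d → ℂ) (x : Site d) :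
    (∑ y ∈ B, g y • dl y : L2 d) x = if x ∈ B then g x else 0 := by
  rw [coeFn_sum_apply]
  simp only [lp.coeFn_smul, Pi.smul_apply, dl_apply, smul_eq_mul, mul_ite, mul_one, mul_zero,
    Finset.sum_ite_eq]

theorem cut_apply (s : ℕ) (g : Site d → ℂ) (x : Site d) :
    cut s g x = if sn x ≤ s then g x else 0 := by
  rw [cut, sum_dl_apply]
  simp only [mem_box, sub_zero]

theorem eq_sum_dl (B : Finset (Site d)) (u : L2 d) (hu : ∀ x, x ∉ B → u x = 0) :
    u = ∑ y ∈ B, u y • dl y := by
  ext x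
  rw [sum_dl_apply]
  split_ifs with h
  · rfl
  · exact hu x h

theorem sum_sq_le (B : Finset (Site d)) (u : L2 d) : ∑ x ∈ B, ‖u x‖ ^ 2 ≤ ‖u‖ ^ 2 := by
  have h2 : 0 < (2 : ℝ≥0∞).toReal := by norm_num
  have h := lp.sum_rpow_le_norm_rpow h2 u B
  have e : (2 : ℝ≥0∞).toReal = ((2 : ℕ) : ℝ) := by norm_num
  simpa only [e, Real.rpow_natCast] using h

theorem norm_res_supp (V : Site d → ℝ) (hV : Bdd V) {z : ℂ} (hz0 : 0 < z.im)
    (B : Finset (Site d)) (u : L2 d) (hu : ∀ x, x ∉ B → u x = 0) :
    z.im * ‖res V hV z u‖ ^ 2 ≤ ‖u‖ ^ 2 * ∑ x ∈ B, (green V z x x).im := by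
  have h1 : ‖res V hV z u‖ ≤ ∑ x ∈ B, ‖u x‖ * ‖res V hV z (dl x)‖ := by
    have h2 : res V hV z u = ∑ y ∈ B, u y • res V hV z (dl y) := by
      conv_lhs => rw [eq_sum_dl B u hu]
      rw [map_sum]
      exact Finset.sum_congr rfl fun y _ => map_smul _ _ _
    rw [h2]
    refine (norm_sum_le _ _).trans (le_of_eq ?_)
    exact Finset.sum_congr rfl fun y _ => norm_smul _ _
  have h3 : ‖res V hV z u‖ ^ 2 ≤ (∑ x ∈ B, ‖u x‖ ^ 2) * ∑ x ∈ B, ‖res V hV z (dl x)‖ ^ 2 :=
    (pow_le_pow_left₀ (norm_nonneg _) h1 2).trans (Finset.sum_mul_sq_le_sq_mul_sq _ _ _)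
  have h4 : ∑ x ∈ B, (green V z x x).im = z.im * ∑ x ∈ B, ‖res V hV z (dl x)‖ ^ 2 := by
    rw [Finset.mul_sum]
    exact Finset.sum_congr rfl fun x _ => (ward V hV hz0 x).symm
  rw [h4]
  have h5 : (0 : ℝ) ≤ ∑ x ∈ B, ‖res V hV z (dl x)‖ ^ 2 := Finset.sum_nonneg fun _ _ => by positivity
  calc z.im * ‖res V hV z u‖ ^ 2
      ≤ z.im * ((∑ x ∈ B, ‖u x‖ ^ 2) * ∑ x ∈ B, ‖res V hV z (dl x)‖ ^ 2) :=
        mul_le_mul_of_nonneg_left h3 hz0.le
    _ ≤ z.im * (‖u‖ ^ 2 * ∑ x ∈ B, ‖res V hV z (dl x)‖ ^ 2) := by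
        gcongr
        exact sum_sq_le B u
    _ = _ := by ring

theorem norm_cut_le (s : ℕ) (g : Site d → ℂ) : ‖cut s g‖ ≤ ∑ y ∈ box (0 : Site d) s, ‖g y‖ := by
  unfold cut
  refine (norm_sum_le _ _).trans (le_of_eq ?_)
  exact Finset.sum_congr rfl fun y _ => by rw [norm_smul, norm_dl, mul_one]

theorem norm_cut_le' (s : ℕ) (g : L2 d) : ‖cut s (g : Site d → ℂ)‖ ≤ ‖g‖ := by
  refine lp.norm_mono (by norm_num) fun x => ?_
  rw [cut_apply]
  split_ifs
  · exact le_rfl
  · rw [norm_zero]; exact norm_nonneg _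

theorem cut_add (s : ℕ) (g h : Site d → ℂ) : cut s (fun x => g x + h x) = cut s g + cut s h := by
  ext x
  rw [lp.coeFn_add, Pi.add_apply, cut_apply, cut_apply, cut_apply]
  split_ifs <;> simp

theorem norm_nsum_le (g : Site d → ℂ) (u : Site d) {B : ℝ}
    (h : ∀ w, sn w ≤ sn u + 1 → sn u ≤ sn w + 1 → ‖g w‖ ≤ B) : ‖nsum g u‖ ≤ 2 * d * B := by
  unfold nsum
  refine (norm_sum_le _ _).trans ?_
  have hj : ∀ j : Fin d, ‖g (u + Pi.single j 1) + g (u - Pi.single j 1)‖ ≤ 2 * B := by
    intro j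
    have hs := sn_single j
    have a1 := sn_add_le u (Pi.single j 1)
    have a2 := sn_sub_le u (Pi.single j 1)
    have a3 := sn_sub_le (u + Pi.single j 1) (Pi.single j 1)
    have a4 := sn_add_le (u - Pi.single j 1) (Pi.single j 1)
    rw [add_sub_cancel_right] at a3
    rw [sub_add_cancel] at a4
    have b1 := h (u + Pi.single j 1) (by omega) (by omega)
    have b2 := h (u - Pi.single j 1) (by omega) (by omega)
    exact (norm_add_le _ _).trans (by linarith)
  refine (Finset.sum_le_sum fun j _ => hj j).trans (le_of_eq ?_)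
  simp only [Finset.sum_const, Finset.card_univ, Fintype.card_fin, nsmul_eq_mul]
  ring

theorem hz_eq_hop (V : Site d → ℝ) (hV : Bdd V) (z : ℂ) (φ : L2 d) (u : Site d) :
    (hz V hV z φ : L2 d) u = hop V z (φ : Site d → ℂ) u := by
  rw [hop_eq_lap]
  have h : hz V hV z φ = schr V hV φ - z • φ := rfl
  rw [h, lp.coeFn_sub, Pi.sub_apply, schr_apply, lp.coeFn_smul, Pi.smul_apply, smul_eq_mul]

theorem nsum_congr {g h : Site d → ℂ} {u : Site d}
    (e : ∀ w, sn w ≤ sn u + 1 → sn u ≤ sn w + 1 → g w = h w) : nsum g u = nsum h u := by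
  unfold nsum
  refine Finset.sum_congr rfl fun j _ => ?_
  have hs := sn_single j
  have a1 := sn_add_le u (Pi.single j 1)
  have a2 := sn_sub_le u (Pi.single j 1)
  have a3 := sn_sub_le (u + Pi.single j 1) (Pi.single j 1)
  have a4 := sn_add_le (u - Pi.single j 1) (Pi.single j 1)
  rw [add_sub_cancel_right] at a3
  rw [sub_add_cancel] at a4
  rw [e (u + Pi.single j 1) (by omega) (by omega), e (u - Pi.single j 1) (by omega) (by omega)]

/-- the boundary term of the cut off solution -/
theorem cut_source {V : Site d → ℝ} (hV : Bdd V) {z' : ℂ} {L R : ℕ} (hR : R ≤ L)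
    {ψ : Site d → ℂ} {B : ℝ} (hB0 : 0 ≤ B) (hB : ∀ y, sn y ≤ L + 1 → ‖ψ y‖ ≤ B)
    (hψ : ∀ u, sn u ≤ L → hop V z' ψ u = 0) (u : Site d) :
    ‖(hz V hV z' (cut R ψ) : L2 d) u‖ ≤ 2 * d * B ∧
      (sn u < R ∨ R + 1 < sn u → (hz V hV z' (cut R ψ) : L2 d) u = 0) := by
  rw [hz_eq_hop]
  have hcut : ∀ x, (cut R ψ : L2 d) x = if sn x ≤ R then ψ x else 0 := cut_apply R ψ
  rcases le_or_gt (sn u) R with h | h
  · have e1 : hop V z' (cut R ψ : L2 d) u = nsum (fun w => ψ w - (cut R ψ : L2 d) w) u := by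
      have h0 := hψ u (h.trans hR)
      have e2 : nsum (fun w => ψ w - (cut R ψ : L2 d) w) u = nsum ψ u - nsum (cut R ψ : L2 d) u := by
        unfold nsum
        rw [← Finset.sum_sub_distrib]
        exact Finset.sum_congr rfl fun j _ => by ring
      unfold hop at h0 ⊢
      rw [e2, hcut u, if_pos h]
      linear_combination h0
    rw [e1]
    constructor
    · refine norm_nsum_le _ u fun w h1 _ => ?_
      simp only [hcut]
      split_ifs
      · rw [sub_self, norm_zero]; exact hB0
      · rw [sub_zero]; exact hB w (by omega)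
    · rintro (h2 | h2)
      · have : nsum (fun w => ψ w - (cut R ψ : L2 d) w) u = nsum (fun _ => 0) u :=
          nsum_congr fun w h1 _ => by
            simp only [hcut]
            rw [if_pos (by omega), sub_self]
        rw [this]
        simp [nsum]
      · omega
  · have e1 : hop V z' (cut R ψ : L2 d) u = -nsum (cut R ψ : L2 d) u := by
      unfold hop
      rw [hcut u, if_neg (by omega)]
      ring
    rw [e1, norm_neg]
    constructor
    · refine norm_nsum_le _ u fun w _ _ => ?_
      rw [hcut]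
      split_ifs with h3
      · exact hB w (by omega)
      · rw [norm_zero]; exact hB0
    · rintro (h2 | h2)
      · omega
      · have : nsum (cut R ψ : L2 d) u = nsum (fun _ => 0) u :=
          nsum_congr fun w _ h1 => by
            rw [hcut, if_neg (by omega)]
        rw [this]
        simp [nsum]

theorem contract {V : Site d → ℝ} (hV : Bdd V) {z0 z' : ℂ} (hz0 : 0 < z0.im)
    (hzz : ‖z' - z0‖ ≤ 2 * z0.im) {l0 L n k : ℕ} (hk : l0 + k * (n + 1) ≤ L) {τ κ : ℝ}
    (hτ0 : 0 ≤ τ) (hκ : 1 ≤ κ)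
    (hT : z0.im * ∑ x ∈ box 0 L, (green V z0 x x).im ≤ 1 / 64)
    (hτ : ∀ x y : Site d, sn x ≤ L + 1 → sn y ≤ L + 1 → n < sn (x - y) → ‖green V z0 x y‖ ≤ τ)
    (hW : GoodBox V z' 0 L L κ) :
    GoodBox V z' 0 l0 L
      ((2 * L + 1) ^ d * κ * ((1 / 4) ^ k + 4 * d * (2 * L + 3) ^ d * τ)) := by
  intro ψ b hb hb1 hb2 y hy
  rw [sub_zero] at hy
  have hW' := hW ψ b hb hb1 hb2
  simp only [sub_zero] at hb1 hb2 hW'
  have hκ0 : 0 < κ := by linarith
  have hκb : 0 ≤ κ * b := by positivity
  have hB : ∀ y : Site d, sn y ≤ L + 1 → ‖ψ y‖ ≤ κ * b := by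
    intro y hy
    rcases Nat.lt_or_ge (sn y) (L + 1) with h | h
    · exact hW' y (by omega)
    · refine (hb1 y (by omega)).trans ?_
      nlinarith
  -- crude bound
  have hcrude : ∀ s, s ≤ L → ‖cut s ψ‖ ≤ (2 * L + 1) ^ d * (κ * b) := by
    intro s hs
    refine (norm_cut_le s ψ).trans ?_
    refine (Finset.sum_le_card_nsmul _ _ (κ * b) fun x hx => hB x ?_).trans ?_
    · have := mem_box.1 hx
      rw [sub_zero] at this
      omega
    · rw [card_box, nsmul_eq_mul]
      apply mul_le_mul_of_nonneg_right _ hκb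
      push_cast
      apply pow_le_pow_left₀ (by positivity)
      have : (s : ℝ) ≤ L := by exact_mod_cast hs
      linarith
  set ε : ℝ := (2 * L + 1) ^ d * ((2 * L + 3) ^ d * (2 * d * (κ * b) * τ)) with hε
  have hε0 : 0 ≤ ε := by positivity
  -- the contraction
  have hstep : ∀ s, s + n + 1 ≤ L → ‖cut s ψ‖ ≤ ‖cut (s + n + 1) ψ‖ / 4 + ε := by
    intro s hs
    set R := s + n + 1 with hR
    set φ : L2 d := cut R ψ with hφ
    set f : L2 d := hz V hV z' φ with hf
    have hsrc := cut_source hV hs hκb hB hb2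
    have e1 : hz V hV z0 φ = f + (z' - z0) • φ := by
      have a1 : hz V hV z0 φ = schr V hV φ - z0 • φ := rfl
      have a2 : f = schr V hV φ - z' • φ := rfl
      rw [a1, a2, sub_smul]
      abel
    have e2 : φ = res V hV z0 f + (z' - z0) • res V hV z0 φ := by
      have := res_hz V hV hz0.ne' φ
      rw [e1, map_add, map_smul] at this
      exact this.symm
    have e3 : cut s ψ = cut s (res V hV z0 f : L2 d) + cut s ((z' - z0) • res V hV z0 φ : L2 d) := by
      rw [← cut_add]
      have : cut s ψ = cut s (φ : Site d → ℂ) := by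
        ext x
        rw [cut_apply, cut_apply]
        split_ifs with h
        · rw [hφ, cut_apply, if_pos (by omega)]
        · rfl
      rw [this]
      congr 1
      funext x
      conv_lhs => rw [e2]
      rw [lp.coeFn_add, Pi.add_apply]
    -- second term
    have h2 : ‖(z' - z0) • res V hV z0 φ‖ ≤ ‖φ‖ / 4 := by
      have a1 := norm_res_supp V hV hz0 (box 0 L) φ (fun x hx => by
        rw [hφ, cut_apply, if_neg]
        intro h
        exact hx (mem_box.2 (by rw [sub_zero]; omega)))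
      have a2 : (z0.im * ‖res V hV z0 φ‖) ^ 2 ≤ (‖φ‖ / 8) ^ 2 := by
        calc (z0.im * ‖res V hV z0 φ‖) ^ 2 = z0.im * (z0.im * ‖res V hV z0 φ‖ ^ 2) := by ring
          _ ≤ z0.im * (‖φ‖ ^ 2 * ∑ x ∈ box 0 L, (green V z0 x x).im) :=
              mul_le_mul_of_nonneg_left a1 hz0.le
          _ = ‖φ‖ ^ 2 * (z0.im * ∑ x ∈ box 0 L, (green V z0 x x).im) := by ring
          _ ≤ ‖φ‖ ^ 2 * (1 / 64) := mul_le_mul_of_nonneg_left hT (by positivity)
          _ = _ := by ring
      have a3 : z0.im * ‖res V hV z0 φ‖ ≤ ‖φ‖ / 8 :=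
        (pow_le_pow_iff_left₀ (by positivity) (by positivity) two_ne_zero).1 a2
      rw [norm_smul]
      have a4 : ‖z' - z0‖ * ‖res V hV z0 φ‖ ≤ 2 * z0.im * ‖res V hV z0 φ‖ :=
        mul_le_mul_of_nonneg_right hzz (norm_nonneg _)
      linarith
    -- first term
    have h1 : ‖cut s (res V hV z0 f : L2 d)‖ ≤ ε := by
      have hfs : f = ∑ u ∈ box (0 : Site d) (R + 1), f u • dl u := by
        refine eq_sum_dl _ f fun x hx => (hsrc x).2 (Or.inr ?_)
        by_contra hcon
        exact hx (mem_box.2 (by rw [sub_zero]; omega))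
      have hres : ∀ x, (res V hV z0 f : L2 d) x =
          ∑ u ∈ box (0 : Site d) (R + 1), f u * green V z0 x u := by
        intro x
        have : res V hV z0 f = ∑ u ∈ box (0 : Site d) (R + 1), f u • res V hV z0 (dl u) := by
          conv_lhs => rw [hfs]
          rw [map_sum]
          exact Finset.sum_congr rfl fun y _ => map_smul _ _ _
        rw [this, coeFn_sum_apply]
        refine Finset.sum_congr rfl fun u _ => ?_
        rw [lp.coeFn_smul, Pi.smul_apply, smul_eq_mul, green_eq V hV]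
      refine (norm_cut_le s _).trans ?_
      have hpt : ∀ x ∈ box (0 : Site d) s, ‖(res V hV z0 f : L2 d) x‖ ≤
          (2 * L + 3) ^ d * (2 * d * (κ * b) * τ) := by
        intro x hx
        have hx' : sn x ≤ s := by
          have := mem_box.1 hx
          rwa [sub_zero] at this
        rw [hres]
        refine (norm_sum_le _ _).trans ?_
        refine (Finset.sum_le_card_nsmul _ _ (2 * d * (κ * b) * τ) fun u hu => ?_).trans ?_
        · have hu' : sn u ≤ R + 1 := by
            have := mem_box.1 hu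
            rwa [sub_zero] at this
          rw [norm_mul]
          rcases Nat.lt_or_ge (sn u) R with h | h
          · rw [(hsrc u).2 (Or.inl h), norm_zero, zero_mul]
            positivity
          · have h5 : sn u ≤ sn (x - u) + sn x := by
              have := sn_sub_le x (x - u)
              rw [sub_sub_cancel] at this
              omega
            exact mul_le_mul (hsrc u).1 (hτ x u (by omega) (by omega) (by omega)) (norm_nonneg _)
              (by positivity)
        · rw [card_box, nsmul_eq_mul]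
          apply mul_le_mul_of_nonneg_right _ (by positivity)
          push_cast
          apply pow_le_pow_left₀ (by positivity)
          have : ((R : ℕ) : ℝ) ≤ L := by exact_mod_cast hs
          linarith
      refine (Finset.sum_le_card_nsmul _ _ _ hpt).trans ?_
      rw [card_box, nsmul_eq_mul, hε]
      apply mul_le_mul_of_nonneg_right _ (by positivity)
      push_cast
      apply pow_le_pow_left₀ (by positivity)
      have : (s : ℝ) ≤ L := by exact_mod_cast (by omega : s ≤ L)
      linarith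
    rw [e3]
    have h3 := norm_cut_le' s ((z' - z0) • res V hV z0 φ : L2 d)
    have h4 := norm_add_le (cut s (res V hV z0 f : L2 d))
      (cut s ((z' - z0) • res V hV z0 φ : L2 d))
    linarith
  -- iteration
  have hiter : ∀ j s, s + j * (n + 1) ≤ L →
      ‖cut s ψ‖ ≤ (1 / 4) ^ j * ((2 * L + 1) ^ d * (κ * b)) + 2 * ε := by
    intro j
    induction j with
    | zero =>
      intro s hs
      have := hcrude s (by omega)
      simp only [pow_zero, one_mul]
      linarith
    | succ j ih =>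
      intro s hs
      have hs' : s + n + 1 + j * (n + 1) ≤ L := by
        have : (j + 1) * (n + 1) = j * (n + 1) + (n + 1) := by ring
        omega
      have h1 := hstep s (by omega)
      have h2 := ih (s + n + 1) hs'
      rw [pow_succ]
      linarith
  have h3 := hiter k l0 hk
  have h4 : ‖ψ y‖ ≤ ‖cut l0 ψ‖ := by
    have := lp.norm_apply_le_norm (by norm_num : (2 : ℝ≥0∞) ≠ 0) (cut l0 ψ) y
    rwa [cut_apply, if_pos hy] at this
  refine (h4.trans h3).trans (le_of_eq ?_)
  rw [hε]
  ring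

end Pool.Agent.Helper3.TG
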