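import Pool.Agent.Helper3.TG.SharpDefs
import Pool.Agent.Helper3.Crit.Wegner

/-! Sharp transport gap, module SH3: the contraction with Hilbert-Schmidt tails. -/

open scoped ENNReal NNReal InnerProductSpace
open MeasureTheory Set Filter Topology

noncomputable section

namespace Pool.Agent.Helper3.TG

open Pool.Agent.Helper3.Anderson Pool.Agent.Helper3.Crit

variable {d : ℕ}

theorem sh3_norm_cut_sq (s : ℕ) (g : Site d → ℂ) :
    ‖cut s g‖ ^ 2 = ∑ y ∈ box (0 : Site d) s, ‖g y‖ ^ 2 := by
  have h2 : 0 < (2 : ℝ≥0∞).toReal := by norm_num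
  have h := lp.norm_rpow_eq_tsum h2 (cut s g)
  have e : (2 : ℝ≥0∞).toReal = ((2 : ℕ) : ℝ) := by norm_num
  simp only [e, Real.rpow_natCast] at h
  rw [h, tsum_eq_sum (s := box (0 : Site d) s)]
  · refine Finset.sum_congr rfl fun y hy => ?_
    have hy' := mem_box.1 hy
    rw [sub_zero] at hy'
    rw [cut_apply, if_pos hy']
  · intro y hy
    rw [cut_apply, if_neg]
    · simp
    · intro h
      exact hy (mem_box.2 (by rw [sub_zero]; exact h))

theorem sh3_nsum_sq (g : Site d → ℂ) (u : Site d) :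
    ‖nsum g u‖ ^ 2 ≤ 2 * d * ∑ w ∈ nbs u, ‖g w‖ ^ 2 := by
  rw [nsum_eq_sum_nbs]
  have h1 : ‖∑ w ∈ nbs u, g w‖ ^ 2 ≤ (∑ w ∈ nbs u, ‖g w‖) ^ 2 :=
    pow_le_pow_left₀ (norm_nonneg _) (norm_sum_le _ _) 2
  refine h1.trans ((sq_sum_le_card_mul_sum_sq).trans ?_)
  refine mul_le_mul_of_nonneg_right ?_ (Finset.sum_nonneg fun _ _ => by positivity)
  exact_mod_cast card_nbs_le u

/-- the `ℓ²` bound for the boundary term of the cut off solution -/
theorem sh3_source {V : Site d → ℝ} (hV : Bdd V) {z' : ℂ} {L R : ℕ} (hR : R ≤ L)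
    {ψ : Site d → ℂ} (hψ : ∀ u, sn u ≤ L → hop V z' ψ u = 0) (u : Site d) :
    ‖(hz V hV z' (cut R ψ) : L2 d) u‖ ^ 2 ≤
      2 * d * ∑ w ∈ nbs u, ‖(if sn w ≤ R + 1 then ψ w else 0)‖ ^ 2 := by
  rw [hz_eq_hop]
  have hcut : ∀ x, (cut R ψ : L2 d) x = if sn x ≤ R then ψ x else 0 := cut_apply R ψ
  rcases le_or_gt (sn u) R with h | h
  · have e1 : hop V z' (cut R ψ : L2 d) u = nsum (fun w => ψ w - (cut R ψ : L2 d) w) u := by
      have h0 := hψ u (h.trans hR)
      have e2 : nsum (fun w => ψ w - (cut R ψ : L2 d) w) u = nsum ψ u - nsum (cut R ψ : L2 d) u := by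
        unfold nsum
        rw [← Finset.sum_sub_distrib]
        exact Finset.sum_congr rfl fun j _ => by ring
      unfold hop at h0 ⊢
      rw [e2, hcut u, if_pos h]
      linear_combination h0
    rw [e1]
    refine (sh3_nsum_sq _ u).trans ?_
    refine mul_le_mul_of_nonneg_left (Finset.sum_le_sum fun w hw => ?_) (by positivity)
    have hw1 : sn w ≤ R + 1 := by
      have h1 := sn_nbs_le hw
      have h2 := sn_add_le (w - u) u
      rw [sub_add_cancel] at h2
      omega
    rw [if_pos hw1]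
    refine pow_le_pow_left₀ (norm_nonneg _) ?_ 2
    simp only [hcut]
    split_ifs
    · rw [sub_self, norm_zero]; exact norm_nonneg _
    · rw [sub_zero]
  · have e1 : hop V z' (cut R ψ : L2 d) u = -nsum (cut R ψ : L2 d) u := by
      unfold hop
      rw [hcut u, if_neg (by omega)]
      ring
    rw [e1, norm_neg]
    refine (sh3_nsum_sq _ u).trans ?_
    refine mul_le_mul_of_nonneg_left (Finset.sum_le_sum fun w hw => ?_) (by positivity)
    refine pow_le_pow_left₀ (norm_nonneg _) ?_ 2
    rw [hcut]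
    by_cases h3 : sn w ≤ R
    · rw [if_pos h3, if_pos (by omega)]
    · rw [if_neg h3, norm_zero]; exact norm_nonneg _

theorem sh3_double (B : Finset (Site d)) (R : ℕ) (ψ : Site d → ℂ) :
    ∑ u ∈ B, ∑ w ∈ nbs u, ‖(if sn w ≤ R + 1 then ψ w else 0)‖ ^ 2 ≤
      2 * d * ∑ w ∈ box (0 : Site d) (R + 1), ‖ψ w‖ ^ 2 := by
  classical
  have h1 : ∀ u : Site d, ∑ w ∈ nbs u, ‖(if sn w ≤ R + 1 then ψ w else 0)‖ ^ 2 =
      ∑ w ∈ box (0 : Site d) (R + 1), if w ∈ nbs u then ‖ψ w‖ ^ 2 else 0 := by
    intro u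
    rw [← Finset.sum_filter]
    have e : (box (0 : Site d) (R + 1)).filter (fun w => w ∈ nbs u) =
        (nbs u).filter (fun w => sn w ≤ R + 1) := by
      ext w
      simp only [Finset.mem_filter, mem_box, sub_zero]
      tauto
    rw [e, Finset.sum_filter]
    refine Finset.sum_congr rfl fun w _ => ?_
    split_ifs
    · rfl
    · simp
  simp only [h1]
  rw [Finset.sum_comm, Finset.mul_sum]
  refine Finset.sum_le_sum fun w _ => ?_
  rw [← Finset.sum_filter, Finset.sum_const, nsmul_eq_mul]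
  refine mul_le_mul_of_nonneg_right ?_ (by positivity)
  have h2 : (B.filter fun u => w ∈ nbs u) ⊆ nbs w := by
    intro u hu
    rw [Finset.mem_filter] at hu
    exact mem_nbs_comm.1 hu.2
  have := (Finset.card_le_card h2).trans (card_nbs_le w)
  exact_mod_cast this

theorem contract2 {V : Site d → ℝ} (hV : Bdd V) {z0 z' : ℂ} (hz0 : 0 < z0.im)
    (hzz : ‖z' - z0‖ ≤ 2 * z0.im) {l0 L n k : ℕ} (hk : l0 + k * (n + 1) ≤ L) {τ S : ℝ}
    (hτ0 : 0 ≤ τ) (hS0 : 0 ≤ S) (hS : (2 * L + 3) ^ d ≤ S ^ 2)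
    (hT : z0.im * ∑ x ∈ box (0 : Site d) L, (green V z0 x x).im ≤ 1 / 64)
    (hτ : hsq V z0 n L ≤ τ ^ 2) (hA : AP V z' L S) :
    GoodBox V z' 0 l0 L (S * ((1 / 4) ^ k + 8 * d * τ)) := by
  intro ψ b hb hb1 hb2 y hy
  rw [sub_zero] at hy
  simp only [sub_zero] at hb1 hb2
  have hA' := hA ψ b hb hb1 hb2
  have hSb : 0 ≤ S * b := mul_nonneg hS0 hb
  -- the bound on the larger box
  have hbig : ∑ x ∈ box (0 : Site d) (L + 1), ‖ψ x‖ ^ 2 ≤ 2 * (S * b) ^ 2 := by
    have h1 : ∑ x ∈ box (0 : Site d) (L + 1), ‖ψ x‖ ^ 2 ≤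
        ∑ x ∈ box (0 : Site d) L, ‖ψ x‖ ^ 2 + ∑ x ∈ box (0 : Site d) (L + 1), b ^ 2 := by
      have e : ∑ x ∈ box (0 : Site d) L, ‖ψ x‖ ^ 2 =
          ∑ x ∈ box (0 : Site d) (L + 1), if sn x ≤ L then ‖ψ x‖ ^ 2 else 0 := by
        rw [← Finset.sum_filter]
        refine Finset.sum_congr ?_ fun _ _ => rfl
        ext x
        simp only [Finset.mem_filter, mem_box, sub_zero]
        omega
      rw [e, ← Finset.sum_add_distrib]
      refine Finset.sum_le_sum fun x hx => ?_
      have hx' := mem_box.1 hx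
      rw [sub_zero] at hx'
      split_ifs with h
      · nlinarith [sq_nonneg b]
      · have := hb1 x (by omega)
        have := pow_le_pow_left₀ (norm_nonneg _) this 2
        linarith
    have h2 : ∑ _x ∈ box (0 : Site d) (L + 1), b ^ 2 ≤ (S * b) ^ 2 := by
      rw [Finset.sum_const, card_box, nsmul_eq_mul, mul_pow]
      refine mul_le_mul_of_nonneg_right ?_ (sq_nonneg b)
      refine le_trans (le_of_eq ?_) hS
      push_cast
      ring
    linarith
  -- crude bound
  have hcrude : ∀ s, s ≤ L → ‖cut s ψ‖ ≤ S * b := by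
    intro s hs
    refine (pow_le_pow_iff_left₀ (norm_nonneg _) hSb two_ne_zero).1 ?_
    rw [sh3_norm_cut_sq]
    refine le_trans (Finset.sum_le_sum_of_subset_of_nonneg ?_ fun _ _ _ => by positivity) hA'
    intro x hx
    have := mem_box.1 hx
    exact mem_box.2 (this.trans hs)
  set ε : ℝ := 4 * d * (S * b) * τ with hε
  have hε0 : 0 ≤ ε := by positivity
  -- the contraction
  have hstep : ∀ s, s + n + 1 ≤ L → ‖cut s ψ‖ ≤ ‖cut (s + n + 1) ψ‖ / 4 + ε := by
    intro s hs
    set R := s + n + 1 with hR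
    set φ : L2 d := cut R ψ with hφ
    set f : L2 d := hz V hV z' φ with hf
    have e1 : hz V hV z0 φ = f + (z' - z0) • φ := by
      have a1 : hz V hV z0 φ = schr V hV φ - z0 • φ := rfl
      have a2 : f = schr V hV φ - z' • φ := rfl
      rw [a1, a2, sub_smul]
      abel
    have e2 : φ = res V hV z0 f + (z' - z0) • res V hV z0 φ := by
      have := res_hz V hV hz0.ne' φ
      rw [e1, map_add, map_smul] at this
      exact this.symm
    have e3 : cut s ψ = cut s (res V hV z0 f : L2 d) + cut s ((z' - z0) • res V hV z0 φ : L2 d) := by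
      rw [← cut_add]
      have : cut s ψ = cut s (φ : Site d → ℂ) := by
        ext x
        rw [cut_apply, cut_apply]
        split_ifs with h
        · rw [hφ, cut_apply, if_pos (by omega)]
        · rfl
      rw [this]
      congr 1
      funext x
      conv_lhs => rw [e2]
      rw [lp.coeFn_add, Pi.add_apply]
    -- second term
    have h2 : ‖(z' - z0) • res V hV z0 φ‖ ≤ ‖φ‖ / 4 := by
      have a1 := norm_res_supp V hV hz0 (box 0 L) φ (fun x hx => by
        rw [hφ, cut_apply, if_neg]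
        intro h
        exact hx (mem_box.2 (by rw [sub_zero]; omega)))
      have a2 : (z0.im * ‖res V hV z0 φ‖) ^ 2 ≤ (‖φ‖ / 8) ^ 2 := by
        calc (z0.im * ‖res V hV z0 φ‖) ^ 2 = z0.im * (z0.im * ‖res V hV z0 φ‖ ^ 2) := by ring
          _ ≤ z0.im * (‖φ‖ ^ 2 * ∑ x ∈ box 0 L, (green V z0 x x).im) :=
              mul_le_mul_of_nonneg_left a1 hz0.le
          _ = ‖φ‖ ^ 2 * (z0.im * ∑ x ∈ box 0 L, (green V z0 x x).im) := by ring
          _ ≤ ‖φ‖ ^ 2 * (1 / 64) := mul_le_mul_of_nonneg_left hT (by positivity)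
          _ = _ := by ring
      have a3 : z0.im * ‖res V hV z0 φ‖ ≤ ‖φ‖ / 8 :=
        (pow_le_pow_iff_left₀ (by positivity) (by positivity) two_ne_zero).1 a2
      rw [norm_smul]
      have a4 : ‖z' - z0‖ * ‖res V hV z0 φ‖ ≤ 2 * z0.im * ‖res V hV z0 φ‖ :=
        mul_le_mul_of_nonneg_right hzz (norm_nonneg _)
      linarith
    -- first term
    have hsupp0 : ∀ u, sn u < R ∨ R + 1 < sn u → (f : L2 d) u = 0 := by
      have hB : ∃ B : ℝ, 0 ≤ B ∧ ∀ y : Site d, sn y ≤ L + 1 → ‖ψ y‖ ≤ B := by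
        refine ⟨∑ x ∈ box (0 : Site d) (L + 1), ‖ψ x‖, Finset.sum_nonneg fun _ _ => norm_nonneg _,
          fun y hy => ?_⟩
        exact Finset.single_le_sum (f := fun x => ‖ψ x‖) (fun _ _ => norm_nonneg _)
          (mem_box.2 (by rw [sub_zero]; exact hy))
      obtain ⟨B, hB0, hB⟩ := hB
      intro u hu
      exact (cut_source hV hs hB0 hB hb2 u).2 hu
    have hfsq : ∑ u ∈ box (0 : Site d) (R + 1), ‖(f : L2 d) u‖ ^ 2 ≤ (4 * d * (S * b)) ^ 2 := by
      calc ∑ u ∈ box (0 : Site d) (R + 1), ‖(f : L2 d) u‖ ^ 2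
          ≤ ∑ u ∈ box (0 : Site d) (R + 1),
              2 * d * ∑ w ∈ nbs u, ‖(if sn w ≤ R + 1 then ψ w else 0)‖ ^ 2 :=
            Finset.sum_le_sum fun u _ => sh3_source hV hs hb2 u
        _ = 2 * d * ∑ u ∈ box (0 : Site d) (R + 1), ∑ w ∈ nbs u,
              ‖(if sn w ≤ R + 1 then ψ w else 0)‖ ^ 2 := by rw [Finset.mul_sum]
        _ ≤ 2 * d * (2 * d * ∑ w ∈ box (0 : Site d) (R + 1), ‖ψ w‖ ^ 2) :=
            mul_le_mul_of_nonneg_left (sh3_double _ R ψ) (by positivity)
        _ ≤ 2 * d * (2 * d * (2 * (S * b) ^ 2)) := by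
            refine mul_le_mul_of_nonneg_left (mul_le_mul_of_nonneg_left
              (le_trans ?_ hbig) (by positivity)) (by positivity)
            refine Finset.sum_le_sum_of_subset_of_nonneg ?_ fun _ _ _ => by positivity
            intro x hx
            have := mem_box.1 hx
            exact mem_box.2 (this.trans (by omega))
        _ ≤ (4 * d * (S * b)) ^ 2 := by
            have : (0 : ℝ) ≤ (d * (S * b)) ^ 2 := sq_nonneg _
            nlinarith
    have h1 : ‖cut s (res V hV z0 f : L2 d)‖ ≤ ε := by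
      have hfs : f = ∑ u ∈ box (0 : Site d) (R + 1), f u • dl u := by
        refine eq_sum_dl _ f fun x hx => hsupp0 x (Or.inr ?_)
        by_contra hcon
        exact hx (mem_box.2 (by rw [sub_zero]; omega))
      have hres : ∀ x, (res V hV z0 f : L2 d) x =
          ∑ u ∈ box (0 : Site d) (R + 1), f u * green V z0 x u := by
        intro x
        have : res V hV z0 f = ∑ u ∈ box (0 : Site d) (R + 1), f u • res V hV z0 (dl u) := by
          conv_lhs => rw [hfs]
          rw [map_sum]
          exact Finset.sum_congr rfl fun y _ => map_smul _ _ _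
        rw [this, coeFn_sum_apply]
        refine Finset.sum_congr rfl fun u _ => ?_
        rw [lp.coeFn_smul, Pi.smul_apply, smul_eq_mul, green_eq V hV]
      have hpt : ∀ x ∈ box (0 : Site d) s, ‖(res V hV z0 f : L2 d) x‖ ^ 2 ≤
          (4 * d * (S * b)) ^ 2 * ∑ u ∈ box (0 : Site d) (L + 1),
            (if n < sn (x - u) then ‖green V z0 x u‖ ^ 2 else 0) := by
        intro x hx
        have hx' : sn x ≤ s := by
          have := mem_box.1 hx
          rwa [sub_zero] at this
        have a1 : ‖(res V hV z0 f : L2 d) x‖ ≤ ∑ u ∈ box (0 : Site d) (R + 1),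
            ‖(f : L2 d) u‖ * (if n < sn (x - u) then ‖green V z0 x u‖ else 0) := by
          rw [hres]
          refine (norm_sum_le _ _).trans (Finset.sum_le_sum fun u _ => ?_)
          rw [norm_mul]
          rcases Nat.lt_or_ge (sn u) R with h | h
          · rw [hsupp0 u (Or.inl h), norm_zero, zero_mul, zero_mul]
          · have h5 : sn u ≤ sn (x - u) + sn x := by
              have := sn_sub_le x (x - u)
              rw [sub_sub_cancel] at this
              omega
            rw [if_pos (by omega)]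
        refine (pow_le_pow_left₀ (norm_nonneg _) a1 2).trans
          ((Finset.sum_mul_sq_le_sq_mul_sq _ _ _).trans ?_)
        refine mul_le_mul hfsq ?_ (Finset.sum_nonneg fun _ _ => by positivity) (by positivity)
        refine le_trans (le_of_eq ?_) (Finset.sum_le_sum_of_subset_of_nonneg
          (s := box (0 : Site d) (R + 1)) ?_ fun u _ _ => ?_)
        · refine Finset.sum_congr rfl fun u _ => ?_
          split_ifs
          · rfl
          · simp
        · intro u hu
          have := mem_box.1 hu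
          exact mem_box.2 (this.trans (by omega))
        · split_ifs
          · positivity
          · exact le_rfl
      refine (pow_le_pow_iff_left₀ (norm_nonneg _) hε0 two_ne_zero).1 ?_
      rw [sh3_norm_cut_sq]
      refine (Finset.sum_le_sum hpt).trans ?_
      rw [← Finset.mul_sum]
      have hsq1 : ∑ x ∈ box (0 : Site d) s, ∑ u ∈ box (0 : Site d) (L + 1),
          (if n < sn (x - u) then ‖green V z0 x u‖ ^ 2 else 0) ≤ τ ^ 2 := by
        refine le_trans ?_ hτ
        unfold hsq
        refine Finset.sum_le_sum_of_subset_of_nonneg ?_ fun x _ _ => Finset.sum_nonneg fun u _ => ?_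
        · intro x hx
          have := mem_box.1 hx
          exact mem_box.2 (this.trans (by omega))
        · split_ifs
          · positivity
          · exact le_rfl
      calc (4 * d * (S * b)) ^ 2 * _ ≤ (4 * d * (S * b)) ^ 2 * τ ^ 2 :=
            mul_le_mul_of_nonneg_left hsq1 (sq_nonneg _)
        _ = ε ^ 2 := by rw [hε]; ring
    rw [e3]
    have h3 := norm_cut_le' s ((z' - z0) • res V hV z0 φ : L2 d)
    have h4 := norm_add_le (cut s (res V hV z0 f : L2 d))
      (cut s ((z' - z0) • res V hV z0 φ : L2 d))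
    linarith
  -- iteration
  have hiter : ∀ j s, s + j * (n + 1) ≤ L →
      ‖cut s ψ‖ ≤ (1 / 4) ^ j * (S * b) + 2 * ε := by
    intro j
    induction j with
    | zero =>
      intro s hs
      have := hcrude s (by omega)
      simp only [pow_zero, one_mul]
      linarith
    | succ j ih =>
      intro s hs
      have hs' : s + n + 1 + j * (n + 1) ≤ L := by
        have : (j + 1) * (n + 1) = j * (n + 1) + (n + 1) := by ring
        omega
      have h1 := hstep s (by omega)
      have h2 := ih (s + n + 1) hs'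
      rw [pow_succ]
      linarith
  have h3 := hiter k l0 hk
  have h4 : ‖ψ y‖ ≤ ‖cut l0 ψ‖ := by
    have := lp.norm_apply_le_norm (by norm_num : (2 : ℝ≥0∞) ≠ 0) (cut l0 ψ) y
    rwa [cut_apply, if_pos hy] at this
  refine (h4.trans h3).trans (le_of_eq ?_)
  rw [hε]
  ring

end Pool.Agent.Helper3.TG
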