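import Pool.Agent.Helper3.Crit.FmDec
import Pool.Agent.Helper3.Crit.Msa2
import Pool.Agent.Helper3.Anderson.FinalA

/-! Fractional moment decay with an explicit length. -/

open scoped ENNReal NNReal InnerProductSpace
open MeasureTheory Set Filter Topology

noncomputable section

namespace Pool.Agent.Helper3.TG

open Pool.Agent.Helper3.Anderson Pool.Agent.Helper3.Crit Pool.Agent.Helper3.Crit.FmDec

variable {d : ℕ} {μ : Measure ℝ} [IsProbabilityMeasure μ] {M lam : ℝ} {K : ℝ≥0}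

/-- the constant in the fractional moment bound -/
def fqC (M lam : ℝ) (K : ℝ≥0) : ℝ := 2 * (1 + 2 * C2 M lam K).toReal

lemma fqC_top (M lam : ℝ) (K : ℝ≥0) : (1 + 2 * C2 M lam K) ≠ ⊤ :=
  ENNReal.add_ne_top.2 ⟨ENNReal.one_ne_top, ENNReal.mul_ne_top (by norm_num) (C2_ne_top M K)⟩

lemma fqC_one (M lam : ℝ) (K : ℝ≥0) : 1 ≤ (1 + 2 * C2 M lam K).toReal := by
  rw [← ENNReal.toReal_one]
  exact ENNReal.toReal_mono (fqC_top M lam K) le_self_add

lemma fqC_pos (M lam : ℝ) (K : ℝ≥0) : 0 < fqC M lam K := by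
  have := fqC_one M lam K
  unfold fqC
  linarith

theorem fm_decay_at (hμ : GoodLaw μ M K) (hlam : 0 < lam) {l L : ℕ} (hlL : l ≤ L + 1) {ρ p : ℝ}
    (hρ : 0 ≤ ρ) (hp0 : 0 ≤ p)
    (hθ : (((2 * (L + 1) + 1) ^ d : ℕ) : ℝ) * (ρ ^ (1 / 8 : ℝ)
      + (CD M lam K).toReal * p ^ (1 / 2 : ℝ)) ≤ 1 / 2) {z : ℂ} (hz0 : 0 < z.im)
    (hbad : (PP d μ).real {ω | ¬ GoodBox (potc M lam ω) z 0 l L ρ} ≤ p) (x y : Site d) :
    ∫⁻ ω, ‖gc M lam z ω x y‖ₑ ^ (1 / 8 : ℝ) ∂(PP d μ)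
      ≤ ENNReal.ofReal (fqC M lam K * Real.exp (-(Real.log 2 / (L + 1) * sn (x - y)))) := by
  classical
  set cd : ℝ := (CD M lam K).toReal with hcd
  have hcd0 : 0 ≤ cd := ENNReal.toReal_nonneg
  have hcd' : CD M lam K = ENNReal.ofReal cd := (ENNReal.ofReal_toReal (CD_ne_top M lam K)).symm
  set Tm : ℝ≥0∞ := 1 + 2 * C2 M lam K with hTm
  have hTm_top : Tm ≠ ⊤ := fqC_top M lam K
  have hTm1 : 1 ≤ Tm.toReal := fqC_one M lam K
  have hcontr : (((2 * (L + 1) + 1) ^ d : ℕ) : ℝ≥0∞) * (ENNReal.ofReal ρ ^ (1 / 8 : ℝ)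
        + CD M lam K * ENNReal.ofReal p ^ (1 / 2 : ℝ)) ≤ ENNReal.ofReal (1 / 2) := by
    rw [ENNReal.ofReal_rpow_of_nonneg hρ (by norm_num),
      ENNReal.ofReal_rpow_of_nonneg hp0 (by norm_num), hcd', ← ENNReal.ofReal_mul hcd0,
      ← ENNReal.ofReal_add (by positivity) (by positivity), ← ENNReal.ofReal_natCast,
      ← ENNReal.ofReal_mul (by positivity)]
    exact ENNReal.ofReal_le_ofReal hθ
  have hiter : ∀ n : ℕ, ∀ x : Site d, n * (L + 1) ≤ sn (x - y) →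
      ∫⁻ ω, ‖gc M lam z ω x y‖ₑ ^ (1 / 8 : ℝ) ∂(PP d μ) ≤ ENNReal.ofReal (1 / 2) ^ n * Tm := by
    intro n
    induction n with
    | zero =>
      intro x _
      rw [pow_zero, one_mul]
      exact tau_le hμ hlam hz0 x y
    | succ n ih =>
      intro x hx
      rw [add_mul, one_mul] at hx
      have := step hμ hlam hz0 hlL hρ hbad (x := x) (y := y)
        (S := ENNReal.ofReal (1 / 2) ^ n * Tm) (by omega) (fun u hu => ih u ?_)
      · refine this.trans ((mul_le_mul_left hcontr _).trans (le_of_eq ?_))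
        rw [pow_succ]; ring
      · have h1 := sn_add_le (x - u) (u - y)
        rw [sub_add_sub_cancel] at h1
        rw [sn_sub_comm] at hu
        omega
  set n := sn (x - y) / (L + 1) with hn
  have h5 := hiter n x (Nat.div_mul_le_self _ _)
  refine h5.trans ?_
  rw [← ENNReal.ofReal_toReal hTm_top, ← ENNReal.ofReal_pow (by norm_num),
    ← ENNReal.ofReal_mul (by positivity)]
  refine ENNReal.ofReal_le_ofReal ?_
  rw [fqC, ← hTm]
  have h6 : ((1 : ℝ) / 2) ^ n ≤ 2 * Real.exp (-(Real.log 2 / (L + 1) * sn (x - y))) := by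
    have h7 : sn (x - y) < (L + 1) * (n + 1) := Nat.lt_mul_div_succ _ (by omega)
    have h8 : (sn (x - y) : ℝ) ≤ (L + 1) * (n + 1) := by exact_mod_cast h7.le
    have h9 : ((1 : ℝ) / 2) ^ n = Real.exp (-(n * Real.log 2)) := by
      rw [Real.exp_neg, Real.exp_nat_mul, Real.exp_log (by norm_num), one_div, inv_pow]
    have h10 : (2 : ℝ) = Real.exp (Real.log 2) := (Real.exp_log (by norm_num)).symm
    rw [h9]
    nth_rewrite 2 [h10]
    rw [← Real.exp_add]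
    refine Real.exp_le_exp.2 ?_
    have h11 : 0 ≤ Real.log 2 := Real.log_nonneg (by norm_num)
    have h12 : Real.log 2 / (L + 1) * sn (x - y) ≤ Real.log 2 * (n + 1) := by
      rw [div_mul_eq_mul_div, div_le_iff₀ (by positivity)]
      nlinarith
    linarith
  calc ((1 : ℝ) / 2) ^ n * Tm.toReal
      ≤ 2 * Real.exp (-(Real.log 2 / (L + 1) * sn (x - y))) * Tm.toReal :=
        mul_le_mul_of_nonneg_right h6 (by linarith)
    _ = _ := by ring

lemma log_three_half : (2 : ℝ) / 5 ≤ Real.log (3 / 2) := by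
  have h1 : Real.exp 2 ≤ (3 / 2 : ℝ) ^ 5 := by
    have h := Real.exp_one_lt_d9
    have h0 := Real.exp_pos 1
    have e : Real.exp 2 = Real.exp 1 ^ 2 := by
      rw [← Real.exp_nat_mul]; norm_num
    rw [e]
    nlinarith
  have h2 : (2 : ℝ) ≤ Real.log ((3 / 2 : ℝ) ^ 5) := by
    rw [Real.le_log_iff_exp_le (by positivity)]
    exact h1
  rw [Real.log_pow] at h2
  push_cast at h2
  linarith

lemma num_ev {ε : ℝ} (hε : 0 < ε) (c : ℝ) (d : ℕ) : ∃ U0 : ℝ, 1 ≤ U0 ∧ ∀ u : ℝ, U0 ≤ u →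
    (5 * Real.log u + 8) * (5 * Real.log u + 1) + 1 ≤ ε * u ∧ 4 * d + 2 ≤ u ∧
      c ≤ Real.exp u := by
  have E1 : ∀ᶠ u : ℝ in atTop, ‖Real.log u‖ ≤ (Real.sqrt ε / 10) * ‖u ^ (1 / 2 : ℝ)‖ :=
    (isLittleO_log_rpow_atTop (by norm_num)).def (by positivity)
  have E2 : ∀ᶠ u : ℝ in atTop, 258 / ε ≤ u := eventually_ge_atTop _
  have E3 : ∀ᶠ u : ℝ in atTop, (4 : ℝ) * d + 2 ≤ u := eventually_ge_atTop _
  have E4 : ∀ᶠ u : ℝ in atTop, c ≤ Real.exp u := Real.tendsto_exp_atTop.eventually_ge_atTop c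
  obtain ⟨U, hU⟩ := eventually_atTop.1 (E1.and (E2.and (E3.and E4)))
  refine ⟨max U 1, le_max_right _ _, fun u hu => ?_⟩
  obtain ⟨g1, g2, g3, g4⟩ := hU u ((le_max_left _ _).trans hu)
  refine ⟨?_, g3, g4⟩
  have hu1 : 1 ≤ u := (le_max_right _ _).trans hu
  have hl0 : 0 ≤ Real.log u := Real.log_nonneg hu1
  rw [Real.norm_of_nonneg hl0, Real.norm_of_nonneg (by positivity), ← Real.sqrt_eq_rpow] at g1
  rw [div_le_iff₀ hε] at g2
  have h1 : (5 * Real.log u + 8) * (5 * Real.log u + 1) ≤ (5 * Real.log u + 8) ^ 2 := by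
    rw [pow_two]
    exact mul_le_mul_of_nonneg_left (by linarith) (by positivity)
  have h2 : (5 * Real.log u + 8) ^ 2 ≤ 2 * (5 * Real.log u) ^ 2 + 128 := by
    nlinarith [sq_nonneg (5 * Real.log u - 8)]
  have h3 : (5 * Real.log u) ^ 2 ≤ ε * u / 4 := by
    have h4 : 5 * Real.log u ≤ Real.sqrt ε * Real.sqrt u / 2 := by linarith
    calc (5 * Real.log u) ^ 2 ≤ (Real.sqrt ε * Real.sqrt u / 2) ^ 2 :=
          pow_le_pow_left₀ (by positivity) h4 2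
      _ = ε * u / 4 := by
          rw [div_pow, mul_pow, Real.sq_sqrt hε.le, Real.sq_sqrt (by linarith)]
          norm_num
  nlinarith

/-- choice of the scale at which the fractional moments contract -/
theorem num_k (d : ℕ) {cd a ε : ℝ} (hcd : 0 ≤ cd) (ha : 0 ≤ a) (hε : 0 < ε) (hε1 : ε ≤ 1) :
    ∃ Lmin : ℕ, ∀ (L0 : ℕ) (m : ℝ), Lmin ≤ L0 → 16 * (10 * d + 2) * Real.log L0 ≤ m * L0 →
      ∃ k : ℕ, (((2 * (Lsc 6 L0 k + 1) + 1) ^ d : ℕ) : ℝ)
        * (Real.exp (-(m / 2 * Lsc 6 L0 k)) ^ (1 / 8 : ℝ)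
          + cd * (a * Real.exp (-((3 / 2 : ℝ) ^ k))) ^ (1 / 2 : ℝ)) ≤ 1 / 2 ∧
        ((Lsc 6 L0 k : ℝ) + 1) ≤ (L0 : ℝ) ^ (1 + ε) := by
  obtain ⟨U0, hU1, hU0⟩ := num_ev hε (4 * 5 ^ d * (cd * a ^ (1 / 2 : ℝ))) d
  obtain ⟨N, hN⟩ := exists_nat_ge (Real.exp U0)
  refine ⟨N, fun L0 m hL0 hm => ?_⟩
  have hNL : Real.exp U0 ≤ L0 := hN.trans (by exact_mod_cast hL0)
  have hLpos : (0 : ℝ) < L0 := lt_of_lt_of_le (Real.exp_pos _) hNL
  have hL01 : 1 ≤ L0 := by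
    have : 0 < L0 := by exact_mod_cast hLpos
    omega
  set u : ℝ := Real.log L0 with hu
  have hUu : U0 ≤ u := by rw [hu, Real.le_log_iff_exp_le hLpos]; exact hNL
  have hu1 : 1 ≤ u := hU1.trans hUu
  obtain ⟨g1, g2, g3⟩ := hU0 u hUu
  have hlu : 0 ≤ Real.log u := Real.log_nonneg hu1
  set k : ℕ := ⌈5 * Real.log u⌉₊ with hk
  have hk1 : 5 * Real.log u ≤ k := Nat.le_ceil _
  have hk2 : (k : ℝ) ≤ 5 * Real.log u + 1 := (Nat.ceil_lt_add_one (by positivity)).le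
  have hLe : (L0 : ℝ) = Real.exp u := by rw [hu, Real.exp_log hLpos]
  -- the scale
  have hLk0 : L0 ≤ Lsc 6 L0 k := by
    have := pb2_two_pow 6 L0 k
    exact le_trans (by nlinarith [Nat.one_le_two_pow (n := k)]) this
  have hLk0r : (L0 : ℝ) ≤ Lsc 6 L0 k := by exact_mod_cast hLk0
  have hLk1 : (1 : ℝ) ≤ Lsc 6 L0 k := by exact_mod_cast hL01.trans hLk0
  have hlog2 : Real.log 2 ≤ 1 := by
    have := Real.log_two_lt_d9
    linarith
  have hlog20 : 0 ≤ Real.log 2 := Real.log_nonneg (by norm_num)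
  have hLk : (Lsc 6 L0 k : ℝ) + 1 ≤ (L0 : ℝ) ^ (1 + ε) := by
    have h1 : (Lsc 6 L0 k : ℝ) ≤ (2 : ℝ) ^ ((k + 6 + 1) * k) * L0 := by
      exact_mod_cast Lsc_le 6 L0 k
    have h2 : (Lsc 6 L0 k : ℝ) + 1 ≤ (2 : ℝ) ^ ((k + 6 + 1) * k + 1) * L0 := by
      rw [pow_succ]
      linarith
    refine h2.trans ?_
    rw [hLe, ← Real.exp_mul, ← Real.rpow_natCast, Real.rpow_def_of_pos (by norm_num),
      ← Real.exp_add]
    apply Real.exp_le_exp.2
    push_cast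
    have hk0 : (0 : ℝ) ≤ k := Nat.cast_nonneg k
    have h3 : ((k : ℝ) + 6 + 1) * k + 1 ≤ (5 * Real.log u + 8) * (5 * Real.log u + 1) + 1 := by
      have : ((k : ℝ) + 6 + 1) * k ≤ (5 * Real.log u + 8) * (5 * Real.log u + 1) :=
        mul_le_mul (by linarith) hk2 hk0 (by positivity)
      linarith
    have h4 : Real.log 2 * (((k : ℝ) + 6 + 1) * k + 1) ≤ 1 * (((k : ℝ) + 6 + 1) * k + 1) :=
      mul_le_mul_of_nonneg_right hlog2 (by positivity)
    nlinarith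
  refine ⟨k, ?_, hLk⟩
  -- the contraction
  have hm0 : 0 ≤ m := by
    by_contra hcon
    push Not at hcon
    have h1 : m * L0 < 0 := mul_neg_of_neg_of_pos hcon hLpos
    have h2 : 0 ≤ 16 * (10 * (d : ℝ) + 2) * u := by positivity
    linarith
  have hd0 : (0 : ℝ) ≤ d := Nat.cast_nonneg d
  have hA : (((2 * (Lsc 6 L0 k + 1) + 1) ^ d : ℕ) : ℝ) ≤ 5 ^ d * Real.exp (2 * d * u) := by
    have e1 : (((2 * (Lsc 6 L0 k + 1) + 1) ^ d : ℕ) : ℝ) = (2 * ((Lsc 6 L0 k : ℝ) + 1) + 1) ^ d := by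
      push_cast; ring
    have e2 : (2 * ((Lsc 6 L0 k : ℝ) + 1) + 1) ≤ 5 * Real.exp (2 * u) := by
      have e3 : (Lsc 6 L0 k : ℝ) + 1 ≤ Real.exp (2 * u) := by
        refine hLk.trans ?_
        rw [hLe, ← Real.exp_mul]
        apply Real.exp_le_exp.2
        nlinarith
      linarith
    rw [e1]
    calc (2 * ((Lsc 6 L0 k : ℝ) + 1) + 1) ^ d ≤ (5 * Real.exp (2 * u)) ^ d :=
          pow_le_pow_left₀ (by positivity) e2 d
      _ = 5 ^ d * Real.exp (2 * d * u) := by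
          rw [mul_pow, ← Real.exp_nat_mul]; congr 2; ring
  have hB : Real.exp (-(m / 2 * Lsc 6 L0 k)) ^ (1 / 8 : ℝ) ≤ Real.exp (-((10 * d + 2) * u)) := by
    rw [← Real.exp_mul]
    apply Real.exp_le_exp.2
    have h1 : m * L0 ≤ m * Lsc 6 L0 k := mul_le_mul_of_nonneg_left hLk0r hm0
    linarith
  have hC : (a * Real.exp (-((3 / 2 : ℝ) ^ k))) ^ (1 / 2 : ℝ)
      ≤ a ^ (1 / 2 : ℝ) * Real.exp (-(u ^ 2 / 2)) := by
    rw [Real.mul_rpow ha (Real.exp_pos _).le, ← Real.exp_mul]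
    refine mul_le_mul_of_nonneg_left ?_ (by positivity)
    apply Real.exp_le_exp.2
    have h1 : u ^ 2 ≤ (3 / 2 : ℝ) ^ k := by
      have e1 : u ^ 2 = Real.exp (2 * Real.log u) := by
        rw [mul_comm, Real.exp_mul, Real.exp_log (by linarith)]
        norm_cast
      have e2 : (3 / 2 : ℝ) ^ k = Real.exp (k * Real.log (3 / 2)) := by
        rw [mul_comm, Real.exp_mul, Real.exp_log (by norm_num), Real.rpow_natCast]
      rw [e1, e2]
      apply Real.exp_le_exp.2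
      have h2 := log_three_half
      have hk0 : (0 : ℝ) ≤ k := Nat.cast_nonneg k
      nlinarith
    linarith
  have hA0 : (0 : ℝ) ≤ (((2 * (Lsc 6 L0 k + 1) + 1) ^ d : ℕ) : ℝ) := Nat.cast_nonneg _
  have h5 : (5 : ℝ) ^ d * Real.exp (2 * d * u) * Real.exp (-((10 * d + 2) * u)) ≤ 1 / 4 := by
    rw [mul_assoc, ← Real.exp_add]
    have e1 : 2 * (d : ℝ) * u + -((10 * d + 2) * u) ≤ -(8 * d + 2) := by nlinarith
    have e2 : Real.exp (2 * (d : ℝ) * u + -((10 * d + 2) * u)) ≤ Real.exp (-(8 * d + 2)) :=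
      Real.exp_le_exp.2 e1
    have e3 : (5 : ℝ) ^ d ≤ Real.exp (8 * d) := by
      rw [mul_comm, Real.exp_nat_mul]
      refine pow_le_pow_left₀ (by norm_num) ?_ d
      have := Real.add_one_le_exp (8 : ℝ)
      linarith
    have e4 : (4 : ℝ) ≤ Real.exp 2 := by
      have h := Real.exp_one_gt_d9
      have : Real.exp 2 = Real.exp 1 ^ 2 := by rw [← Real.exp_nat_mul]; norm_num
      rw [this]
      nlinarith
    calc (5 : ℝ) ^ d * Real.exp (2 * (d : ℝ) * u + -((10 * d + 2) * u))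
        ≤ Real.exp (8 * d) * Real.exp (-(8 * d + 2)) :=
          mul_le_mul e3 e2 (Real.exp_pos _).le (Real.exp_pos _).le
      _ = Real.exp (-2) := by rw [← Real.exp_add]; congr 1; ring
      _ ≤ 1 / 4 := by
          rw [Real.exp_neg, one_div]
          exact inv_anti₀ (by norm_num) e4
  have h6 : (5 : ℝ) ^ d * Real.exp (2 * d * u) * (cd * (a ^ (1 / 2 : ℝ) * Real.exp (-(u ^ 2 / 2))))
      ≤ 1 / 4 := by
    have e1 : 2 * (d : ℝ) * u + -(u ^ 2 / 2) ≤ -u := by nlinarith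
    have e2 : Real.exp (2 * (d : ℝ) * u) * Real.exp (-(u ^ 2 / 2)) ≤ Real.exp (-u) := by
      rw [← Real.exp_add]
      exact Real.exp_le_exp.2 e1
    have e3 : 0 ≤ 5 ^ d * (cd * a ^ (1 / 2 : ℝ)) := by positivity
    calc (5 : ℝ) ^ d * Real.exp (2 * d * u) * (cd * (a ^ (1 / 2 : ℝ) * Real.exp (-(u ^ 2 / 2))))
        = 5 ^ d * (cd * a ^ (1 / 2 : ℝ)) * (Real.exp (2 * (d : ℝ) * u) * Real.exp (-(u ^ 2 / 2))) := by
          ring
      _ ≤ 5 ^ d * (cd * a ^ (1 / 2 : ℝ)) * Real.exp (-u) := mul_le_mul_of_nonneg_left e2 e3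
      _ ≤ 1 / 4 := by
          rw [Real.exp_neg, ← div_eq_mul_inv, div_le_iff₀ (Real.exp_pos _)]
          linarith
  calc (((2 * (Lsc 6 L0 k + 1) + 1) ^ d : ℕ) : ℝ)
        * (Real.exp (-(m / 2 * Lsc 6 L0 k)) ^ (1 / 8 : ℝ)
          + cd * (a * Real.exp (-((3 / 2 : ℝ) ^ k))) ^ (1 / 2 : ℝ))
      ≤ (5 ^ d * Real.exp (2 * d * u)) * (Real.exp (-((10 * d + 2) * u))
          + cd * (a ^ (1 / 2 : ℝ) * Real.exp (-(u ^ 2 / 2)))) := by
        refine mul_le_mul hA ?_ ?_ (by positivity)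
        · exact add_le_add hB (mul_le_mul_of_nonneg_left hC hcd)
        · positivity
    _ = 5 ^ d * Real.exp (2 * d * u) * Real.exp (-((10 * d + 2) * u))
        + 5 ^ d * Real.exp (2 * d * u) * (cd * (a ^ (1 / 2 : ℝ) * Real.exp (-(u ^ 2 / 2)))) := by
        ring
    _ ≤ 1 / 2 := by linarith

end Pool.Agent.Helper3.TG
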