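import Mathlib

/-!
# Choice of scales and exponents for the transport gap
-/

set_option autoImplicit false

open Filter Topology

namespace Pool.Agent.Helper3.TG

/-- the last inequality of `numeric`: the number of steps is large enough -/
private theorem quarter_pow {k : ℕ} {T : ℝ} (hT : 1 ≤ T) (hk : 399 * Real.log T ≤ k) :
    ((1 : ℝ) / 4) ^ k ≤ T ^ (-399 : ℝ) := by
  have hT0 : 0 < T := by linarith
  have hlog : 0 ≤ Real.log T := Real.log_nonneg hT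
  have h4 : (1 : ℝ) ≤ Real.log 4 := by
    rw [Real.le_log_iff_exp_le (by norm_num)]
    have := Real.exp_one_lt_d9
    linarith
  have e1 : ((1 : ℝ) / 4) ^ k = Real.exp (-(k * Real.log 4)) := by
    rw [Real.exp_neg, mul_comm, Real.exp_mul, Real.exp_log (by norm_num), Real.rpow_natCast,
      one_div, inv_pow]
  have e2 : T ^ (-399 : ℝ) = Real.exp (-(399 * Real.log T)) := by
    rw [Real.rpow_def_of_pos hT0]
    congr 1
    ring
  rw [e1, e2]
  apply Real.exp_le_exp.2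
  have hk0 : (0 : ℝ) ≤ k := Nat.cast_nonneg k
  nlinarith

theorem numeric (d : ℕ) (hd : 0 < d) {β1 β2 : ℝ} (h1 : 0 < β1) (h12 : β1 < β2)
    (h2 : β2 < 1 / d) {A C a : ℝ} (hA : 0 ≤ A) (hC : 0 ≤ C) (ha : 0 < a) (Lmin : ℕ) :
    ∃ T0 : ℝ, 1 ≤ T0 ∧ ∀ T : ℝ, T0 ≤ T → ∃ (n L l0 k : ℕ) (t m : ℝ),
      T ^ β1 ≤ n ∧ (L : ℝ) ≤ T ^ β2 ∧ Lmin ≤ L ∧ 1 ≤ l0 ∧ 4 * l0 ≤ L ∧ L ≤ 2 ^ 7 * l0 ∧ l0 + k * (n + 1) ≤ L ∧
      0 ≤ t ∧ 0 < m ∧ 16 * (10 * d + 2) * Real.log L ≤ m * L ∧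
      A * T⁻¹ * (2 * L + 1) ^ d ≤ a ∧
      (2 * L + 3) ^ d * T ^ (-1000 : ℝ) / (T ^ (-400 : ℝ)) ^ 2 ≤ a ∧
      C * ((2 * L + 1 : ℕ) : ℝ) ^ (3 * d) * Real.exp (-(t / 4)) ≤ a ∧
      (2 * L + 1) ^ d * Real.exp t * ((1 / 4) ^ k + 4 * d * (2 * L + 3) ^ d * T ^ (-400 : ℝ))
        ≤ Real.exp (-(m * ((L + l0 + 1 : ℕ) : ℝ))) := by
  have hdR : (0 : ℝ) < d := by exact_mod_cast hd
  have hd1 : (1 : ℝ) ≤ d := by exact_mod_cast hd
  have hβ2 : 0 < β2 := h1.trans h12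
  have hβd : β2 * d < 1 := by
    have := mul_lt_mul_of_pos_right h2 hdR
    rwa [one_div, inv_mul_cancel₀ hdR.ne'] at this
  have hc : 0 < β2 - β1 := sub_pos.2 h12
  set Q : ℝ := 1 + C * 27 ^ d / a with hQ
  have hQ1 : 1 ≤ Q := by
    rw [hQ]
    have : 0 ≤ C * 27 ^ d / a := by positivity
    linarith
  set Z : ℝ := 3 ^ d * Q ^ 4 * (1 + 4 * d * 5 ^ d) with hZ
  -- the eventual conditions
  have E1 : ∀ᶠ T : ℝ in atTop, (1 : ℝ) ≤ T := eventually_ge_atTop 1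
  have E2 : ∀ᶠ T : ℝ in atTop, (Lmin : ℝ) + 8 ≤ T ^ β2 :=
    (tendsto_rpow_atTop hβ2).eventually_ge_atTop _
  have E3 : ∀ᶠ T : ℝ in atTop, A * 3 ^ d / a ≤ T ^ (1 - β2 * d) :=
    (tendsto_rpow_atTop (by linarith)).eventually_ge_atTop _
  have E4 : ∀ᶠ T : ℝ in atTop, 5 ^ d / a ≤ T ^ (199 : ℝ) :=
    (tendsto_rpow_atTop (by norm_num)).eventually_ge_atTop _
  have E5 : ∀ᶠ T : ℝ in atTop, Z ≤ T ^ (98 : ℝ) :=
    (tendsto_rpow_atTop (by norm_num)).eventually_ge_atTop _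
  have E6 : ∀ᶠ T : ℝ in atTop, ‖Real.log T‖ ≤ (1 / 8000) * ‖T ^ (β2 - β1)‖ :=
    (isLittleO_log_rpow_atTop hc).def (by norm_num)
  have E7 : ∀ᶠ T : ℝ in atTop, (100 : ℝ) ≤ T ^ (β2 - β1) :=
    (tendsto_rpow_atTop hc).eventually_ge_atTop _
  obtain ⟨T1, hT1⟩ := eventually_atTop.1 (E1.and (E2.and (E3.and (E4.and (E5.and (E6.and E7))))))
  refine ⟨max T1 1, le_max_right _ _, fun T hT => ?_⟩
  obtain ⟨g1, g2, g3, g4, g5, g6, g7⟩ := hT1 T ((le_max_left _ _).trans hT)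
  clear E1 E2 E3 E4 E5 E6 E7 hT1 hT
  have hT0 : 0 < T := by linarith
  have hlog : 0 ≤ Real.log T := Real.log_nonneg g1
  rw [Real.norm_of_nonneg hlog, Real.norm_of_nonneg (by positivity)] at g6
  set L : ℕ := ⌊T ^ β2⌋₊ with hL
  set n : ℕ := ⌈T ^ β1⌉₊ with hn
  set l0 : ℕ := L / 4 with hl0
  set k : ℕ := (L - l0) / (n + 1) with hk
  have hTβ : 0 ≤ T ^ β2 := by positivity
  have hLle : (L : ℝ) ≤ T ^ β2 := Nat.floor_le hTβ
  have hLge : T ^ β2 < L + 1 := Nat.lt_floor_add_one _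
  have hLm : Lmin + 7 ≤ L := by
    have : ((Lmin + 7 : ℕ) : ℝ) < (L : ℝ) + 1 := by
      push_cast
      linarith
    have : Lmin + 7 < L + 1 := by exact_mod_cast this
    omega
  have hL4 : 4 ≤ L := by omega
  have hLR : (7 : ℝ) ≤ L := by
    have : 7 ≤ L := by omega
    exact_mod_cast this
  have hL0 : (0 : ℝ) < L := by linarith
  have hlogL : 0 < Real.log L := Real.log_pos (by linarith)
  have hTβ1 : 1 ≤ T ^ β2 := Real.one_le_rpow g1 hβ2.le
  -- powers of `L`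
  have p1 : ((2 : ℝ) * L + 1) ^ d ≤ 3 ^ d * T ^ (β2 * d) := by
    rw [Real.rpow_mul hT0.le, Real.rpow_natCast, ← mul_pow]
    exact pow_le_pow_left₀ (by positivity) (by linarith) d
  have p2 : ((2 : ℝ) * L + 3) ^ d ≤ 5 ^ d * T ^ (β2 * d) := by
    rw [Real.rpow_mul hT0.le, Real.rpow_natCast, ← mul_pow]
    exact pow_le_pow_left₀ (by positivity) (by linarith) d
  have p3 : T ^ (β2 * d) ≤ T := by
    calc T ^ (β2 * d) ≤ T ^ (1 : ℝ) := Real.rpow_le_rpow_of_exponent_le g1 hβd.le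
      _ = T := Real.rpow_one T
  have p4 : ((2 : ℝ) * L + 1) ^ d ≤ 3 ^ d * T :=
    p1.trans (mul_le_mul_of_nonneg_left p3 (by positivity))
  have p5 : ((2 : ℝ) * L + 3) ^ d ≤ 5 ^ d * T :=
    p2.trans (mul_le_mul_of_nonneg_left p3 (by positivity))
  set B : ℝ := C * ((2 * L + 1 : ℕ) : ℝ) ^ (3 * d) with hB
  have hB0 : 0 ≤ B := by positivity
  have hBle : B ≤ C * 27 ^ d * T ^ 3 := by
    have e : (((2 * L + 1 : ℕ) : ℝ)) ^ (3 * d) = (((2 : ℝ) * L + 1) ^ d) ^ 3 := by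
      push_cast
      rw [← pow_mul, mul_comm 3 d]
    have e2 : (27 : ℝ) ^ d = (3 ^ d) ^ 3 := by
      rw [← pow_mul, mul_comm d 3, pow_mul]
      norm_num
    rw [hB, e, e2, mul_assoc, ← mul_pow]
    exact mul_le_mul_of_nonneg_left (pow_le_pow_left₀ (by positivity) p4 3) hC
  set t : ℝ := 4 * Real.log (1 + B / a) with ht
  have hBa : 0 ≤ B / a := by positivity
  have ht0 : 0 ≤ t := by
    have := Real.log_nonneg (show (1 : ℝ) ≤ 1 + B / a by linarith)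
    rw [ht]
    linarith
  have hexp : Real.exp t = (1 + B / a) ^ 4 := by
    rw [ht, mul_comm, Real.exp_mul, Real.exp_log (by linarith)]
    norm_cast
  have hexp' : Real.exp (-(t / 4)) = (1 + B / a)⁻¹ := by
    have : -(t / 4) = -Real.log (1 + B / a) := by rw [ht]; ring
    rw [this, Real.exp_neg, Real.exp_log (by linarith)]
  have hT3 : (1 : ℝ) ≤ T ^ 3 := one_le_pow₀ g1
  have hexple : Real.exp t ≤ Q ^ 4 * T ^ 12 := by
    have h3 : 1 + B / a ≤ Q * T ^ 3 := by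
      have : B / a ≤ C * 27 ^ d / a * T ^ 3 := by
        calc B / a ≤ C * 27 ^ d * T ^ 3 / a := div_le_div_of_nonneg_right hBle ha.le
          _ = C * 27 ^ d / a * T ^ 3 := by ring
      rw [hQ, add_mul, one_mul]
      linarith
    rw [hexp]
    calc (1 + B / a) ^ 4 ≤ (Q * T ^ 3) ^ 4 := pow_le_pow_left₀ (by linarith) h3 4
      _ = Q ^ 4 * T ^ 12 := by ring
  -- the number of steps
  have hnle : (n : ℝ) < T ^ β1 + 1 := Nat.ceil_lt_add_one (by positivity)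
  have hTβ0 : 1 ≤ T ^ β1 := Real.one_le_rpow g1 h1.le
  have hk1 : 399 * Real.log T ≤ k := by
    have a1 : ((L - l0 : ℕ) : ℝ) < (k + 1) * (n + 1) := by
      have h := Nat.lt_div_mul_add (a := L - l0) (b := n + 1) (Nat.succ_pos n)
      have h' : L - l0 < (k + 1) * (n + 1) := by
        rw [add_mul, one_mul]
        exact h
      exact_mod_cast h'
    have a2 : (L : ℝ) * (3 / 4) ≤ ((L - l0 : ℕ) : ℝ) := by
      have h : L * 3 ≤ (L - l0) * 4 := by omega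
      have h' : (L : ℝ) * 3 ≤ ((L - l0 : ℕ) : ℝ) * 4 := by exact_mod_cast h
      linarith
    have a3 : T ^ β2 / 2 ≤ L := by linarith
    have a4 : (n : ℝ) + 1 ≤ 3 * T ^ β1 := by linarith
    have a5 : T ^ β2 * (3 / 8) < (k + 1) * (3 * T ^ β1) := by
      have h0 : ((k : ℝ) + 1) * (n + 1) ≤ (k + 1) * (3 * T ^ β1) :=
        mul_le_mul_of_nonneg_left a4 (by positivity)
      linarith
    have a6 : T ^ β2 = T ^ (β2 - β1) * T ^ β1 := by
      rw [← Real.rpow_add hT0]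
      congr 1
      ring
    rw [a6] at a5
    have a7 : T ^ (β2 - β1) * (3 / 8) < (k + 1) * 3 := by
      have : T ^ (β2 - β1) * (3 / 8) * T ^ β1 < (k + 1) * 3 * T ^ β1 := by linarith
      exact lt_of_mul_lt_mul_right this (by positivity)
    linarith
  have hquart := quarter_pow g1 hk1
  refine ⟨n, L, l0, k, t, 16 * (10 * d + 2) * Real.log L / L, Nat.le_ceil _, hLle, by omega,
    by omega, by omega, by omega, ?_, ht0, by positivity, ?_, ?_, ?_, ?_, ?_⟩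
  · have h := Nat.div_mul_le_self (L - l0) (n + 1)
    have h' : k * (n + 1) ≤ L - l0 := h
    omega
  · rw [div_mul_cancel₀ _ hL0.ne']
  · have e : A * T⁻¹ * (2 * L + 1) ^ d ≤ A * T⁻¹ * (3 ^ d * T ^ (β2 * d)) :=
      mul_le_mul_of_nonneg_left p1 (by positivity)
    refine e.trans ?_
    rw [div_le_iff₀ ha] at g3
    have e2 : T = T ^ (1 - β2 * d) * T ^ (β2 * d) := by
      rw [← Real.rpow_add hT0]
      have : 1 - β2 * d + β2 * d = (1 : ℝ) := by ring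
      rw [this, Real.rpow_one]
    have e3 : A * (3 ^ d * T ^ (β2 * d)) ≤ a * T := by
      calc A * (3 ^ d * T ^ (β2 * d)) = A * 3 ^ d * T ^ (β2 * d) := by ring
        _ ≤ (T ^ (1 - β2 * d) * a) * T ^ (β2 * d) :=
          mul_le_mul_of_nonneg_right g3 (by positivity)
        _ = a * (T ^ (1 - β2 * d) * T ^ (β2 * d)) := by ring
        _ = a * T := by rw [← e2]
    calc A * T⁻¹ * (3 ^ d * T ^ (β2 * d)) = A * (3 ^ d * T ^ (β2 * d)) * T⁻¹ := by ring
      _ ≤ a * T * T⁻¹ := mul_le_mul_of_nonneg_right e3 (by positivity)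
      _ = a := by rw [mul_assoc, mul_inv_cancel₀ hT0.ne', mul_one]
  · have e1 : (T ^ (-400 : ℝ)) ^ 2 = T ^ (-800 : ℝ) := by
      rw [← Real.rpow_natCast, ← Real.rpow_mul hT0.le]
      norm_num
    have e2 : T ^ (-1000 : ℝ) / T ^ (-800 : ℝ) = T ^ (-200 : ℝ) := by
      rw [← Real.rpow_sub hT0]
      norm_num
    have e3 : T * T ^ (-200 : ℝ) = T ^ (-199 : ℝ) := by
      nth_rewrite 1 [← Real.rpow_one T]
      rw [← Real.rpow_add hT0]
      norm_num
    rw [e1, mul_div_assoc, e2]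
    rw [div_le_iff₀ ha] at g4
    calc (2 * (L : ℝ) + 3) ^ d * T ^ (-200 : ℝ) ≤ 5 ^ d * T * T ^ (-200 : ℝ) :=
          mul_le_mul_of_nonneg_right p5 (by positivity)
      _ = 5 ^ d * T ^ (-199 : ℝ) := by rw [mul_assoc, e3]
      _ ≤ T ^ (199 : ℝ) * a * T ^ (-199 : ℝ) := mul_le_mul_of_nonneg_right g4 (by positivity)
      _ = a * (T ^ (199 : ℝ) * T ^ (-199 : ℝ)) := by ring
      _ = a := by
        rw [← Real.rpow_add hT0]
        norm_num
  · rw [hexp']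
    rw [← div_eq_mul_inv, div_le_iff₀ (by linarith)]
    have : a * (1 + B / a) = a + B := by
      field_simp
    rw [this]
    linarith
  · have r1 : 16 * (10 * d + 2) * Real.log L / L * ((L + l0 + 1 : ℕ) : ℝ) ≤ 288 * Real.log T := by
      have s1 : ((L + l0 + 1 : ℕ) : ℝ) ≤ 3 / 2 * L := by
        have h : (L + l0 + 1) * 2 ≤ 3 * L := by omega
        have h' : ((L + l0 + 1 : ℕ) : ℝ) * 2 ≤ 3 * L := by exact_mod_cast h
        linarith
      have s2 : Real.log L ≤ β2 * Real.log T := by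
        rw [← Real.log_rpow hT0]
        exact Real.log_le_log hL0 hLle
      have s3 : (10 * (d : ℝ) + 2) * β2 ≤ 12 := by
        have s4 : β2 * 1 ≤ β2 * d := mul_le_mul_of_nonneg_left hd1 hβ2.le
        have s5 : (10 * (d : ℝ) + 2) * β2 = 10 * (β2 * d) + 2 * β2 := by ring
        linarith
      calc 16 * (10 * d + 2) * Real.log L / L * ((L + l0 + 1 : ℕ) : ℝ)
          ≤ 16 * (10 * d + 2) * Real.log L / L * (3 / 2 * L) :=
            mul_le_mul_of_nonneg_left s1 (by positivity)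
        _ = 24 * (10 * d + 2) * Real.log L := by
            field_simp
            ring
        _ ≤ 24 * (10 * d + 2) * (β2 * Real.log T) :=
            mul_le_mul_of_nonneg_left s2 (by positivity)
        _ = 24 * ((10 * d + 2) * β2) * Real.log T := by ring
        _ ≤ 288 * Real.log T := by
            refine mul_le_mul_of_nonneg_right ?_ hlog
            linarith
    have r2 : T ^ (-288 : ℝ) ≤ Real.exp (-(16 * (10 * d + 2) * Real.log L / L
        * ((L + l0 + 1 : ℕ) : ℝ))) := by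
      rw [Real.rpow_def_of_pos hT0]
      apply Real.exp_le_exp.2
      linarith
    refine le_trans ?_ r2
    have q1 : 4 * d * (2 * (L : ℝ) + 3) ^ d * T ^ (-400 : ℝ) ≤ 4 * d * 5 ^ d * T ^ (-399 : ℝ) := by
      have e3 : T * T ^ (-400 : ℝ) = T ^ (-399 : ℝ) := by
        nth_rewrite 1 [← Real.rpow_one T]
        rw [← Real.rpow_add hT0]
        norm_num
      calc 4 * d * (2 * (L : ℝ) + 3) ^ d * T ^ (-400 : ℝ)
          ≤ 4 * d * (5 ^ d * T) * T ^ (-400 : ℝ) := by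
            refine mul_le_mul_of_nonneg_right ?_ (by positivity)
            exact mul_le_mul_of_nonneg_left p5 (by positivity)
        _ = 4 * d * 5 ^ d * (T * T ^ (-400 : ℝ)) := by ring
        _ = 4 * d * 5 ^ d * T ^ (-399 : ℝ) := by rw [e3]
    have q2 : (1 / 4 : ℝ) ^ k + 4 * d * (2 * (L : ℝ) + 3) ^ d * T ^ (-400 : ℝ)
        ≤ (1 + 4 * d * 5 ^ d) * T ^ (-399 : ℝ) := by
      rw [add_mul, one_mul]
      exact add_le_add hquart q1
    have q3 : (2 * (L : ℝ) + 1) ^ d * Real.exp t ≤ 3 ^ d * Q ^ 4 * T ^ (13 : ℝ) := by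
      have e : T ^ (13 : ℝ) = T * T ^ 12 := by
        rw [show (13 : ℝ) = ((13 : ℕ) : ℝ) by norm_num, Real.rpow_natCast]
        ring
      calc (2 * (L : ℝ) + 1) ^ d * Real.exp t ≤ (3 ^ d * T) * (Q ^ 4 * T ^ 12) :=
            mul_le_mul p4 hexple (by positivity) (by positivity)
        _ = 3 ^ d * Q ^ 4 * T ^ (13 : ℝ) := by rw [e]; ring
    calc (2 * (L : ℝ) + 1) ^ d * Real.exp t
          * ((1 / 4) ^ k + 4 * d * (2 * (L : ℝ) + 3) ^ d * T ^ (-400 : ℝ))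
        ≤ (3 ^ d * Q ^ 4 * T ^ (13 : ℝ)) * ((1 + 4 * d * 5 ^ d) * T ^ (-399 : ℝ)) :=
          mul_le_mul q3 q2 (by positivity) (by positivity)
      _ = Z * (T ^ (13 : ℝ) * T ^ (-399 : ℝ)) := by rw [hZ]; ring
      _ = Z * T ^ (-386 : ℝ) := by
          rw [← Real.rpow_add hT0]
          norm_num
      _ ≤ T ^ (98 : ℝ) * T ^ (-386 : ℝ) := mul_le_mul_of_nonneg_right g5 (by positivity)
      _ = T ^ (-288 : ℝ) := by
          rw [← Real.rpow_add hT0]
          norm_num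

end Pool.Agent.Helper3.TG
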