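import Pool.Agent.Helper3.TG.Defs

/-! Transport gap, module TGD: Markov estimates. -/

open scoped ENNReal NNReal InnerProductSpace
open MeasureTheory Set Filter Topology

noncomputable section

namespace Pool.Agent.Helper3.TG

open Pool.Agent.Helper3.Anderson Pool.Agent.Helper3.Crit

variable {d : ℕ} {μ : Measure ℝ} [IsProbabilityMeasure μ] {M lam : ℝ} {K : ℝ≥0}

/-- Markov's inequality in real form -/
theorem tgd_markov {Ω : Type*} [MeasurableSpace Ω] {P : Measure Ω} [IsFiniteMeasure P]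
    {F : Ω → ℝ≥0∞} (hF : Measurable F) {s : Set Ω} {c A : ℝ} (hc : 0 < c) (hA : 0 ≤ A)
    (hs : ∀ ω ∈ s, ENNReal.ofReal c ≤ F ω) (hI : ∫⁻ ω, F ω ∂P ≤ ENNReal.ofReal A) :
    P.real s ≤ A / c := by
  have h1 : ENNReal.ofReal c * P s ≤ ENNReal.ofReal A := by
    refine le_trans ?_ hI
    refine le_trans ?_ (mul_meas_ge_le_lintegral hF (ENNReal.ofReal c))
    gcongr
    exact fun ω hω => hs ω hω
  have h2 := ENNReal.toReal_mono ENNReal.ofReal_ne_top h1
  rw [ENNReal.toReal_mul, ENNReal.toReal_ofReal hc.le, ENNReal.toReal_ofReal hA] at h2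
  rw [le_div_iff₀ hc, mul_comm]
  exact h2

theorem tgd_site (hμ : GoodLaw μ M K) (hlam : 0 < lam) {z : ℂ} (hz0 : 0 < z.im) (x : Site d) :
    ∫⁻ ω, ENNReal.ofReal (Real.pi⁻¹ * (gc M lam z ω x x).im) ∂(PP d μ)
      ≤ K * ENNReal.ofReal (1 / lam) := by
  have hM : 0 ≤ M := zero_le_one.trans hμ.one_le
  have hm : Measurable fun ω : Site d → ℝ =>
      ENNReal.ofReal (Real.pi⁻¹ * (gc M lam z ω x x).im) :=
    ENNReal.measurable_ofReal.comp
      ((Complex.measurable_im.comp (measurable_gc hM hz0 x x)).const_mul _)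
  rw [lintegral_resample x hm]
  calc ∫⁻ ω, ∫⁻ t, ENNReal.ofReal (Real.pi⁻¹ * (gc M lam z (Function.update ω x t) x x).im) ∂μ
        ∂(PP d μ) ≤ ∫⁻ _ω, K * ENNReal.ofReal (1 / lam) ∂(PP d μ) :=
        lintegral_mono fun ω => sa_one_site hμ hlam hz0 ω x
    _ = _ := by rw [lintegral_const, measure_univ, mul_one]

theorem prob_trace (hμ : GoodLaw μ M K) (hlam : 0 < lam) {z : ℂ} (hz0 : 0 < z.im) (L : ℕ) :
    (PP d μ).real {ω | ¬ z.im * ∑ x ∈ box (0 : Site d) L, (green (potc M lam ω) z x x).im ≤ 1 / 64}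
      ≤ 64 * Real.pi * (K / lam) * z.im * (2 * L + 1) ^ d := by
  have hM : 0 ≤ M := zero_le_one.trans hμ.one_le
  have hpi := Real.pi_pos
  set F : (Site d → ℝ) → ℝ≥0∞ := fun ω =>
    ∑ x ∈ box (0 : Site d) L, ENNReal.ofReal (Real.pi⁻¹ * (gc M lam z ω x x).im) with hF
  have hm : ∀ x : Site d, Measurable fun ω : Site d → ℝ =>
      ENNReal.ofReal (Real.pi⁻¹ * (gc M lam z ω x x).im) := fun x =>
    ENNReal.measurable_ofReal.comp
      ((Complex.measurable_im.comp (measurable_gc hM hz0 x x)).const_mul _)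
  have hFm : Measurable F := Finset.measurable_sum _ fun x _ => hm x
  have hI : ∫⁻ ω, F ω ∂(PP d μ) ≤ ENNReal.ofReal ((2 * L + 1) ^ d * (K * (1 / lam))) := by
    rw [hF, lintegral_finsetSum _ fun x _ => hm x]
    calc ∑ x ∈ box (0 : Site d) L,
          ∫⁻ ω, ENNReal.ofReal (Real.pi⁻¹ * (gc M lam z ω x x).im) ∂(PP d μ)
        ≤ ∑ _x ∈ box (0 : Site d) L, K * ENNReal.ofReal (1 / lam) :=
          Finset.sum_le_sum fun x _ => tgd_site hμ hlam hz0 x
      _ = ENNReal.ofReal ((2 * L + 1) ^ d * (K * (1 / lam))) := by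
          rw [Finset.sum_const, card_box, nsmul_eq_mul, ENNReal.ofReal_mul (by positivity),
            ENNReal.ofReal_mul K.coe_nonneg, ENNReal.ofReal_coe_nnreal]
          congr 1
          rw [ENNReal.ofReal_pow (by positivity)]
          push_cast
          congr 1
          have : (2 * (L : ℝ) + 1) = ((2 * L + 1 : ℕ) : ℝ) := by push_cast; ring
          rw [this, ENNReal.ofReal_natCast]
          push_cast
          ring
  have hc : 0 < Real.pi⁻¹ * (1 / (64 * z.im)) := by positivity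
  have h := tgd_markov (P := PP d μ) hFm
    (s := {ω | ¬ z.im * ∑ x ∈ box (0 : Site d) L, (green (potc M lam ω) z x x).im ≤ 1 / 64})
    hc (by positivity) (fun ω hω => by
      have h1 : 1 / 64 < z.im * ∑ x ∈ box (0 : Site d) L, (green (potc M lam ω) z x x).im :=
        not_le.1 hω
      have h2 : F ω = ENNReal.ofReal (Real.pi⁻¹ *
          ∑ x ∈ box (0 : Site d) L, (green (potc M lam ω) z x x).im) := by
        have hnn : ∀ x ∈ box (0 : Site d) L,
            0 ≤ Real.pi⁻¹ * (green (potc M lam ω) z x x).im := fun x _ =>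
          mul_nonneg (by positivity) (sa_im_pos hM hz0 ω x).le
        rw [Finset.mul_sum, ENNReal.ofReal_sum_of_nonneg hnn]
        rfl
      rw [h2]
      refine ENNReal.ofReal_le_ofReal ?_
      have h3 : 1 / (64 * z.im) ≤ ∑ x ∈ box (0 : Site d) L, (green (potc M lam ω) z x x).im := by
        rw [div_le_iff₀ (by positivity)]
        nlinarith
      gcongr) hI
  refine h.trans (le_of_eq ?_)
  field_simp

theorem tgd_shift (hM : 0 ≤ M) {z : ℂ} (hz0 : 0 < z.im) (x y : Site d) :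
    ∫⁻ ω, ‖gc M lam z ω x y‖ₑ ^ 2 ∂(PP d μ) = ∫⁻ ω, ‖gc M lam z ω (x - y) 0‖ₑ ^ 2 ∂(PP d μ) := by
  have hm : Measurable fun ω : Site d → ℝ => ‖gc M lam z ω (x - y) 0‖ₑ ^ 2 :=
    ((measurable_gc hM hz0 (x - y) 0).enorm).pow_const 2
  rw [← (measurePreserving_tr (μ := μ) y).lintegral_comp hm]
  refine lintegral_congr fun ω => ?_
  rw [gc_tr hM hz0, sub_add_cancel, zero_add]

theorem prob_tau (hM : 0 ≤ M) {z : ℂ} (hz0 : 0 < z.im) {n L : ℕ} {τ ε : ℝ} (hτ0 : 0 < τ)
    (hε : 0 ≤ ε)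
    (h : ∑' x : Site d, (if n < sn x then ∫⁻ ω, ‖gc M lam z ω x 0‖ₑ ^ 2 ∂(PP d μ) else 0)
      ≤ ENNReal.ofReal ε) :
    (PP d μ).real {ω | ¬ ∀ x y : Site d, sn x ≤ L + 1 → sn y ≤ L + 1 → n < sn (x - y) →
      ‖green (potc M lam ω) z x y‖ ≤ τ} ≤ (2 * L + 3) ^ d * ε / τ ^ 2 := by
  set F : (Site d → ℝ) → ℝ≥0∞ := fun ω => ∑ y ∈ box (0 : Site d) (L + 1),
    ∑' x : Site d, (if n < sn (x - y) then ‖gc M lam z ω x y‖ₑ ^ 2 else 0) with hF
  have hm : ∀ x y : Site d, Measurable fun ω : Site d → ℝ =>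
      (if n < sn (x - y) then ‖gc M lam z ω x y‖ₑ ^ 2 else 0) := by
    intro x y
    by_cases hn : n < sn (x - y)
    · simp only [if_pos hn]
      exact ((measurable_gc hM hz0 x y).enorm).pow_const 2
    · simp only [if_neg hn]
      exact measurable_const
  have hFm : Measurable F :=
    Finset.measurable_sum _ fun y _ => Measurable.tsum fun x => hm x y
  have hI : ∫⁻ ω, F ω ∂(PP d μ) ≤ ENNReal.ofReal ((2 * L + 3) ^ d * ε) := by
    rw [hF, lintegral_finsetSum _ fun y _ => Measurable.tsum fun x => hm x y]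
    calc ∑ y ∈ box (0 : Site d) (L + 1), ∫⁻ ω, ∑' x : Site d,
          (if n < sn (x - y) then ‖gc M lam z ω x y‖ₑ ^ 2 else 0) ∂(PP d μ)
        ≤ ∑ _y ∈ box (0 : Site d) (L + 1), ENNReal.ofReal ε := by
          refine Finset.sum_le_sum fun y _ => ?_
          rw [lintegral_tsum fun x => (hm x y).aemeasurable]
          refine le_trans (le_of_eq ?_) h
          rw [← (Equiv.subRight y).tsum_eq (fun x : Site d =>
            (if n < sn x then ∫⁻ ω, ‖gc M lam z ω x 0‖ₑ ^ 2 ∂(PP d μ) else 0))]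
          refine tsum_congr fun x => ?_
          rw [Equiv.subRight_apply]
          by_cases hn : n < sn (x - y)
          · simp only [if_pos hn]
            exact tgd_shift hM hz0 x y
          · simp only [if_neg hn, lintegral_zero]
      _ = ENNReal.ofReal ((2 * L + 3) ^ d * ε) := by
          rw [Finset.sum_const, card_box, nsmul_eq_mul, ENNReal.ofReal_mul (by positivity)]
          congr 1
          rw [ENNReal.ofReal_pow (by positivity)]
          push_cast
          congr 1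
          have : (2 * (L : ℝ) + 3) = ((2 * (L + 1) + 1 : ℕ) : ℝ) := by push_cast; ring
          rw [this, ENNReal.ofReal_natCast]
          push_cast
          ring
  refine tgd_markov (P := PP d μ) hFm (by positivity) (by positivity) (fun ω hω => ?_) hI
  have h1 : ¬ ∀ x y : Site d, sn x ≤ L + 1 → sn y ≤ L + 1 → n < sn (x - y) →
      ‖green (potc M lam ω) z x y‖ ≤ τ := hω
  push Not at h1
  obtain ⟨x, y, -, hy, hn, hxy⟩ := h1
  have hyb : y ∈ box (0 : Site d) (L + 1) := by rw [mem_box, sub_zero]; exact hy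
  have h2 : ENNReal.ofReal (τ ^ 2) ≤ ‖gc M lam z ω x y‖ₑ ^ 2 := by
    rw [ENNReal.ofReal_pow hτ0.le]
    gcongr
    rw [← ofReal_norm_eq_enorm]
    exact ENNReal.ofReal_le_ofReal hxy.le
  refine h2.trans ?_
  have h3 : ‖gc M lam z ω x y‖ₑ ^ 2 ≤
      ∑' x : Site d, (if n < sn (x - y) then ‖gc M lam z ω x y‖ₑ ^ 2 else 0) := by
    refine le_trans ?_ (ENNReal.le_tsum x)
    rw [if_pos hn]
  exact h3.trans (Finset.single_le_sum (f := fun y => ∑' x : Site d,
    (if n < sn (x - y) then ‖gc M lam z ω x y‖ₑ ^ 2 else 0)) (fun _ _ => zero_le) hyb)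

end Pool.Agent.Helper3.TG
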