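import Pool.Agent.Helper3.TG.Msa2u
import Pool.Agent.Helper3.TG.Contract
import Pool.Agent.Helper3.TG.Prob
import Pool.Agent.Helper3.TG.Numeric
import Pool.Agent.Helper3.TG.FmQuant
import Pool.Agent.Helper3.Crit.Init2
import Pool.Agent.Helper3.Crit.FmDec

/-! Decay of the Green function at one complex energy implies localisation near it. -/

open scoped ENNReal NNReal InnerProductSpace
open MeasureTheory Set Filter Topology

noncomputable section

namespace Pool.Agent.Helper3.TG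

open Pool.Agent.Helper3.Anderson Pool.Agent.Helper3.Crit

variable {d : ℕ} {μ : Measure ℝ} [IsProbabilityMeasure μ] {M lam : ℝ} {K : ℝ≥0}

/-- If for one large `T` and one energy `E0` the Green function at `E0 + i / T` is tiny beyond the
distance `T ^ β1`, `β1 < 1 / d`, then the fractional moments decay exponentially near `E0`, with
length at most `T ^ β`. -/
theorem fm_of_decay (d : ℕ) (hd : 0 < d) (hμ : GoodLaw μ M K) (hlam : 0 < lam) {β1 β2 β : ℝ}
    (h1 : 0 < β1) (h12 : β1 < β2) (h2 : β2 < 1 / d) (h3 : β2 < β) :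
    ∃ T0 : ℝ, 1 ≤ T0 ∧ ∀ T : ℝ, T0 ≤ T → ∀ E0 : ℝ,
      ∑' x : Site d, (if T ^ β1 < sn x then
        ∫⁻ ω, ‖gc M lam ((E0 : ℂ) + (T⁻¹ : ℝ) * Complex.I) ω x 0‖ₑ ^ 2 ∂(PP d μ) else 0)
          ≤ ENNReal.ofReal (T ^ (-1000 : ℝ)) →
      ∀ z : ℂ, 0 < z.im → ‖z - ((E0 : ℂ) + (T⁻¹ : ℝ) * Complex.I)‖ ≤ 2 * T⁻¹ → ∀ x y : Site d,
        ∫⁻ ω, ‖gc M lam z ω x y‖ₑ ^ (1 / 8 : ℝ) ∂(PP d μ)
          ≤ ENNReal.ofReal (fqC M lam K * Real.exp (-(sn (x - y) / T ^ β))) := by
  have hβ2 : 0 < β2 := h1.trans h12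
  set β' : ℝ := (β2 + β) / 2 with hβ'
  have hβ'1 : β2 < β' := by rw [hβ']; linarith
  have hβ'2 : β' < β := by rw [hβ']; linarith
  set ε : ℝ := min 1 ((β' - β2) / β2) with hε
  have hε0 : 0 < ε := lt_min one_pos (div_pos (by linarith) hβ2)
  have hε1 : ε ≤ 1 := min_le_left _ _
  have hεβ : β2 * (1 + ε) ≤ β' := by
    have h4 : ε ≤ (β' - β2) / β2 := min_le_right _ _
    rw [le_div_iff₀ hβ2] at h4
    linarith
  obtain ⟨Lmin, hms⟩ := msa2_unif d hμ hlam
  obtain ⟨Lmin2, hk2⟩ := num_k d (cd := (CD M lam K).toReal) (a := pb3_a d) ENNReal.toReal_nonneg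
    (pb3_a_pos d).le hε0 hε1
  obtain ⟨T0, hT01, hnum⟩ := numeric d hd h1 h12 h2 (A := 64 * Real.pi * (K / lam))
    (C := 2 * (C2 M lam K).toReal * (2 * d + 1)) (a := pb3_a d * Real.exp (-1) / 3)
    (by positivity) (by positivity) (by have := pb3_a_pos d; positivity) (max Lmin Lmin2)
  obtain ⟨T1, hT1⟩ := eventually_atTop.1
    ((tendsto_rpow_atTop (show 0 < β - β' by linarith)).eventually_ge_atTop (2 : ℝ))
  refine ⟨max T0 T1, le_max_of_le_left hT01, fun T hT' E0 hsum z hz hzz x y => ?_⟩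
  have hT : T0 ≤ T := (le_max_left _ _).trans hT'
  have hT2 : 2 ≤ T ^ (β - β') := hT1 T ((le_max_right _ _).trans hT')
  obtain ⟨n, L, l0, k, t, m, hn, hLβ, hL, hl0, h4, h27, hk, ht, hm, hml, hA, hB, hC, hD⟩ :=
    hnum T hT
  have hT0 : 0 < T := by linarith
  have hTi : 0 < T⁻¹ := inv_pos.2 hT0
  set z0 : ℂ := (E0 : ℂ) + (T⁻¹ : ℝ) * Complex.I with hz0
  have hz0i : z0.im = T⁻¹ := by
    rw [hz0, Complex.add_im, Complex.ofReal_im, Complex.im_ofReal_mul, Complex.I_im]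
    ring
  have hM : 0 ≤ M := zero_le_one.trans hμ.one_le
  have hτ := prob_tau (d := d) (μ := μ) (lam := lam) hM (z := z0) (by rw [hz0i]; exact hTi) (n := n)
    (L := L) (τ := T ^ (-400 : ℝ)) (ε := T ^ (-1000 : ℝ)) (by positivity) (by positivity) (by
      refine le_trans (ENNReal.tsum_le_tsum fun x => ?_) hsum
      split_ifs with ha hb
      · exact le_rfl
      · exact absurd (lt_of_le_of_lt hn (by exact_mod_cast ha)) hb
      · exact bot_le
      · exact le_rfl)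
  have htr := prob_trace (d := d) hμ hlam (z := z0) (by rw [hz0i]; exact hTi) L
  have hw := wegner hμ hlam hz.le (0 : Site d) L t
  have hprob : (PP d μ).real {ω | ¬ GoodBox (potc M lam ω) z 0 l0 L
      (Real.exp (-(m * ((L + l0 + 1 : ℕ) : ℝ))))} ≤ pb3_a d * Real.exp (-1) := by
    refine le_trans (measureReal_mono (s₂ := {ω | ¬ z0.im * ∑ x ∈ box (0 : Site d) L,
        (green (potc M lam ω) z0 x x).im ≤ 1 / 64} ∪ ({ω | ¬ ∀ x y : Site d, sn x ≤ L + 1 →
        sn y ≤ L + 1 → n < sn (x - y) → ‖green (potc M lam ω) z0 x y‖ ≤ T ^ (-400 : ℝ)} ∪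
        {ω | ¬ GB (potc M lam ω) z 0 L L (Real.exp t) (Real.exp t)})) ?_) ?_
    · intro ω hω
      by_contra hcon
      simp only [mem_union, mem_ofPred_eq, not_or, not_not] at hcon
      obtain ⟨c1, c2, c3⟩ := hcon
      refine hω ?_
      have h5 := contract (bdd_potc hM ω) (z0 := z0) (z' := z) (by rw [hz0i]; exact hTi)
        (by rw [hz0i]; exact hzz) (l0 := l0) (L := L) (n := n) (k := k) hk (τ := T ^ (-400 : ℝ))
        (κ := Real.exp t) (by positivity) (Real.one_le_exp ht) c1 c2 c3.good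
      exact h5.mono_rho hD
    · refine (measureReal_union_le _ _).trans ?_
      have h6 := measureReal_union_le (μ := PP d μ) {ω | ¬ ∀ x y : Site d, sn x ≤ L + 1 →
        sn y ≤ L + 1 → n < sn (x - y) → ‖green (potc M lam ω) z0 x y‖ ≤ T ^ (-400 : ℝ)}
        {ω | ¬ GB (potc M lam ω) z 0 L L (Real.exp t) (Real.exp t)}
      rw [hz0i] at htr
      unfold wg at hw
      have h7 : 64 * Real.pi * (K / lam) * T⁻¹ * (2 * L + 1) ^ d
        ≤ pb3_a d * Real.exp (-1) / 3 := hA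
      rw [hz0i] at *
      linarith
  have hmsa := hms m hm l0 L ((le_max_left _ _).trans hL) hl0 h4 h27 hml z hz.le hprob
  obtain ⟨j, hj1, hj2⟩ := hk2 L m ((le_max_right _ _).trans hL) hml
  have hlL : lsc 6 l0 L j ≤ Lsc 6 L j + 1 := by
    cases j with
    | zero => simp only [Lsc, lsc]; omega
    | succ j =>
      simp only [Lsc, lsc]
      have : 1 ≤ 2 ^ (j + 1 + 6) := Nat.one_le_two_pow
      nlinarith
  refine (fm_decay_at hμ hlam hlL (Real.exp_pos _).le (by have := pb3_a_pos d; positivity) hj1 hz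
    (hmsa j) x y).trans (ENNReal.ofReal_le_ofReal ?_)
  refine mul_le_mul_of_nonneg_left (Real.exp_le_exp.2 (neg_le_neg ?_)) (fqC_pos M lam K).le
  have hLpos : (0 : ℝ) < L := by
    have : 0 < L := by omega
    exact_mod_cast this
  have e1 : (Lsc 6 L j : ℝ) + 1 ≤ T ^ β' := by
    refine hj2.trans ((Real.rpow_le_rpow hLpos.le hLβ (by linarith)).trans ?_)
    rw [← Real.rpow_mul hT0.le]
    exact Real.rpow_le_rpow_of_exponent_le (hT01.trans hT) hεβ
  have e2 : T ^ β = T ^ (β - β') * T ^ β' := by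
    rw [← Real.rpow_add hT0]; congr 1; ring
  have e3 : 2 * ((Lsc 6 L j : ℝ) + 1) ≤ T ^ β := by
    rw [e2]
    have h0 : (0 : ℝ) ≤ (Lsc 6 L j : ℝ) + 1 := by positivity
    exact mul_le_mul hT2 e1 h0 (by positivity)
  have hlog2 : (1 : ℝ) / 2 ≤ Real.log 2 := by
    have := Real.log_two_gt_d9
    linarith
  have hs0 : (0 : ℝ) ≤ sn (x - y) := Nat.cast_nonneg _
  rw [div_mul_eq_mul_div, div_le_div_iff₀ (by positivity) (by positivity)]
  calc (sn (x - y) : ℝ) * ((Lsc 6 L j : ℝ) + 1) = 1 / 2 * sn (x - y) * (2 * ((Lsc 6 L j : ℝ) + 1)) := by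
        ring
    _ ≤ Real.log 2 * sn (x - y) * T ^ β :=
        mul_le_mul (mul_le_mul_of_nonneg_right hlog2 hs0) e3 (by positivity) (by positivity)

/-- At every energy and every large time `T`: either the energy density of the moment of order `p`
is at least `T ^ (α p)` or the fractional moments decay near this energy with length at most
`T ^ β`. -/
theorem mE_dich (d : ℕ) (hd : 0 < d) (hμ : GoodLaw μ M K) (hlam : 0 < lam) {α β : ℝ}
    (hα0 : 0 ≤ α) (hαβ : α < β) (hβ : β < 1 / d) :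
    ∃ T0 : ℝ, 1 ≤ T0 ∧ ∀ p : ℝ, 4000 / (β - α) ≤ p → ∀ T E : ℝ, T0 ≤ T →
      ENNReal.ofReal (T ^ (α * p)) ≤ mE d μ M lam p T E ∨
      ∀ z : ℂ, 0 < z.im → ‖z - ((E : ℂ) + (T⁻¹ : ℝ) * Complex.I)‖ ≤ 2 * T⁻¹ → ∀ x y : Site d,
        ∫⁻ ω, ‖gc M lam z ω x y‖ₑ ^ (1 / 8 : ℝ) ∂(PP d μ)
          ≤ ENNReal.ofReal (fqC M lam K * Real.exp (-(sn (x - y) / T ^ β))) := by
  set δ : ℝ := β - α with hδ
  have hδ0 : 0 < δ := by rw [hδ]; linarith
  obtain ⟨T0, hT01, hT0⟩ := fm_of_decay d hd hμ hlam (β1 := α + δ / 3) (β2 := α + 2 * δ / 3)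
    (β := β) (by linarith) (by linarith) (by rw [hδ] at *; linarith) (by rw [hδ] at *; linarith)
  refine ⟨max T0 4, le_max_of_le_left hT01, fun p hp T E hT => ?_⟩
  by_contra hcon2
  rw [not_or] at hcon2
  obtain ⟨hlt, hnot⟩ := hcon2
  refine hlt ?_
  have hTT : T0 ≤ T := (le_max_left _ _).trans hT
  have hT4 : 4 ≤ T := (le_max_right _ _).trans hT
  have hTp : 0 < T := by linarith
  have hp0 : 4000 ≤ δ * p := by
    rw [div_le_iff₀ hδ0] at hp
    linarith
  have hp1 : 0 < p := by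
    by_contra hcon
    push Not at hcon
    nlinarith
  have hS : ENNReal.ofReal (T ^ (-1000 : ℝ)) < ∑' x : Site d, (if T ^ (α + δ / 3) < sn x then
        ∫⁻ ω, ‖gc M lam ((E : ℂ) + (T⁻¹ : ℝ) * Complex.I) ω x 0‖ₑ ^ 2 ∂(PP d μ) else 0) := by
    by_contra hcon
    push Not at hcon
    exact hnot (hT0 T hTT E hcon)
  have hw : 0 ≤ (T ^ (α + δ / 3)) ^ p / (Real.pi * T) := by positivity
  calc ENNReal.ofReal (T ^ (α * p))
      ≤ ENNReal.ofReal ((T ^ (α + δ / 3)) ^ p / (Real.pi * T)) * ENNReal.ofReal (T ^ (-1000 : ℝ)) := by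
        rw [← ENNReal.ofReal_mul hw]
        apply ENNReal.ofReal_le_ofReal
        rw [← Real.rpow_mul hTp.le, div_mul_eq_mul_div, le_div_iff₀ (by positivity),
          ← Real.rpow_add hTp]
        have hpi : Real.pi ≤ T := by linarith [Real.pi_le_four]
        have e1 : T ^ (α * p) * (Real.pi * T) ≤ T ^ (α * p) * T ^ (2 : ℝ) := by
          apply mul_le_mul_of_nonneg_left _ (by positivity)
          rw [Real.rpow_two]
          nlinarith
        refine e1.trans ?_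
        rw [← Real.rpow_add hTp]
        apply Real.rpow_le_rpow_of_exponent_le (by linarith)
        nlinarith
    _ ≤ ENNReal.ofReal ((T ^ (α + δ / 3)) ^ p / (Real.pi * T)) *
        ∑' x : Site d, (if T ^ (α + δ / 3) < sn x then
        ∫⁻ ω, ‖gc M lam ((E : ℂ) + (T⁻¹ : ℝ) * Complex.I) ω x 0‖ₑ ^ 2 ∂(PP d μ) else 0) := by
        gcongr
    _ = ∑' x : Site d, ENNReal.ofReal ((T ^ (α + δ / 3)) ^ p / (Real.pi * T)) *
        (if T ^ (α + δ / 3) < sn x then
        ∫⁻ ω, ‖gc M lam ((E : ℂ) + (T⁻¹ : ℝ) * Complex.I) ω x 0‖ₑ ^ 2 ∂(PP d μ) else 0) :=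
        ENNReal.tsum_mul_left.symm
    _ ≤ mE d μ M lam p T E := by
        unfold mE
        refine ENNReal.tsum_le_tsum fun x => ?_
        split_ifs with hx
        · gcongr
        · rw [mul_zero]; exact bot_le

end Pool.Agent.Helper3.TG
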