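import Pool.Agent.Helper3.TG.FinTrace
import Pool.Agent.Helper3.Crit.Wegner

/-! Sharp transport gap, module SH2: the a priori bound. -/

open scoped ENNReal NNReal
open MeasureTheory Set Filter Topology

noncomputable section

namespace Pool.Agent.Helper3.TG

open Pool.Agent.Helper3.Anderson Pool.Agent.Helper3.Crit

variable {d : ℕ} {M lam : ℝ}

theorem ap_of_trace {ω : Site d → ℝ} {z0 z' : ℂ} (hz0 : 0 < z0.im) (hzz : ‖z' - z0‖ ≤ 2 * z0.im)
    {L : ℕ} (hT : z0.im * ∑ x : box (0 : Site d) L,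
        (Gf M lam z0 (box (0 : Site d) L) ω x x).im ≤ 1 / 64) {S : ℝ} (hS0 : 0 ≤ S)
    (hS : (d / (3 * z0.im)) ^ 2 * (2 * L + 1) ^ d ≤ S ^ 2) :
    AP (potc M lam ω) z' L S := by
  classical
  intro ψ b hb0 hb hψ
  set Λ := box (0 : Site d) L with hΛ
  set V := potc M lam ω with hV
  set φ : Λ → ℂ := fun u => ψ u with hφ
  set a : Λ → ℂ := fun u => ∑ w ∈ (nbs (u : Site d)).filter (fun w => w ∉ Λ), ψ w with ha
  set r : Λ → ℂ := fun u => (z' - z0) * φ u + a u with hr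
  have hA := diss_HL Λ hz0
  have hD : ∀ x, x ∉ (∅ : Finset Λ) → (VL M lam Λ ω x).im ≤ 0 := fun w _ => by
    unfold VL; rw [Complex.ofReal_im]
  have hmem : ∀ u : Λ, sn (u : Site d) ≤ L := by
    intro u
    have := mem_box.1 u.2
    rwa [sub_zero] at this
  have h1 : (cutM (HL Λ z0) (VL M lam Λ ω) ∅).mulVec φ = r := by
    funext u
    rw [cutM_mulVec, if_neg (Finset.notMem_empty _)]
    have e1 : ∑ w, HL Λ z0 u w * φ w = (2 * d - z0) * φ u
        - ∑ w : Λ, (if (w : Site d) ∈ nbs (u : Site d) then ψ w else 0) := by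
      simp only [HL, sub_mul, Finset.sum_sub_distrib, ite_mul, zero_mul, Finset.sum_ite_eq,
        Finset.mem_univ, if_true, one_mul, hφ]
    have e2 : ∑ w : Λ, (if (w : Site d) ∈ nbs (u : Site d) then ψ w else 0)
        = ∑ w ∈ (nbs (u : Site d)).filter (fun w => w ∈ Λ), ψ w := by
      rw [Finset.sum_coe_sort Λ (fun w => if w ∈ nbs (u : Site d) then ψ w else 0),
        ← Finset.sum_filter]
      refine Finset.sum_congr ?_ fun _ _ => rfl
      ext w; simp only [Finset.mem_filter]; tauto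
    have e3 : nsum ψ u = ∑ w ∈ (nbs (u : Site d)).filter (fun w => w ∈ Λ), ψ w
        + ∑ w ∈ (nbs (u : Site d)).filter (fun w => w ∉ Λ), ψ w := by
      rw [nsum_eq_sum_nbs, Finset.sum_filter_add_sum_filter_not]
    have e0 := hψ (u : Site d) (hmem u)
    simp only [hop] at e0
    rw [e3] at e0
    rw [e1, e2]
    have e4 : VL M lam Λ ω u = (V u : ℂ) := rfl
    rw [e4]
    simp only [hr, ha, hφ]
    linear_combination e0
  have h2 : φ = (Gf M lam z0 Λ ω).mulVec r := by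
    rw [← h1, Matrix.mulVec_mulVec, Gf, gcut_mul_cutM hA hD, Matrix.one_mulVec]
  have hab : ∀ u, ‖a u‖ ≤ 2 * d * b := by
    intro u
    simp only [ha]
    refine (norm_sum_le _ _).trans ?_
    calc ∑ w ∈ (nbs (u : Site d)).filter (fun w => w ∉ Λ), ‖ψ w‖
        ≤ ∑ w ∈ (nbs (u : Site d)).filter (fun w => w ∉ Λ), b := by
          refine Finset.sum_le_sum fun w hw => hb w ?_
          rw [Finset.mem_filter] at hw
          have := sn_outer (x0 := 0) (L := L) (by rw [sub_zero]; exact hmem u) hw.1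
            fun h => hw.2 (mem_box.2 h)
          rwa [sub_zero] at this
      _ = ((nbs (u : Site d)).filter (fun w => w ∉ Λ)).card * b := by
          rw [Finset.sum_const, nsmul_eq_mul]
      _ ≤ 2 * d * b := by
          refine mul_le_mul_of_nonneg_right ?_ hb0
          have := (Finset.card_filter_le (nbs (u : Site d)) (fun w => w ∉ Λ)).trans
            (card_nbs_le (u : Site d))
          exact_mod_cast this
  have hcard : ((Finset.univ : Finset Λ).card : ℝ) = (2 * L + 1) ^ d := by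
    rw [Finset.card_univ, Fintype.card_coe, hΛ, card_box]; push_cast; ring
  -- the Hilbert-Schmidt norm
  have hHS : z0.im ^ 2 * ∑ x : Λ, ∑ y : Λ, ‖Gf M lam z0 Λ ω x y‖ ^ 2 ≤ 1 / 64 := by
    rw [Finset.sum_comm]
    calc z0.im ^ 2 * ∑ y : Λ, ∑ x : Λ, ‖Gf M lam z0 Λ ω x y‖ ^ 2
        = z0.im * ∑ y : Λ, z0.im * ∑ x : Λ, ‖Gf M lam z0 Λ ω x y‖ ^ 2 := by
          rw [← Finset.mul_sum]; ring
      _ = z0.im * ∑ y : Λ, (Gf M lam z0 Λ ω y y).im := by
          congr 1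
          exact Finset.sum_congr rfl fun y _ => ward_fin hz0 Λ ω y
      _ ≤ 1 / 64 := hT
  set P : ℝ := ∑ u : Λ, ‖φ u‖ ^ 2 with hP
  have hP0 : 0 ≤ P := Finset.sum_nonneg fun _ _ => by positivity
  set R : ℝ := ∑ u : Λ, ‖r u‖ ^ 2 with hR
  have hR0 : 0 ≤ R := Finset.sum_nonneg fun _ _ => by positivity
  have hPR : P ≤ (∑ x : Λ, ∑ y : Λ, ‖Gf M lam z0 Λ ω x y‖ ^ 2) * R := by
    rw [hP, Finset.sum_mul]
    refine Finset.sum_le_sum fun x _ => ?_
    have e : φ x = ∑ u, Gf M lam z0 Λ ω x u * r u := congrFun h2 x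
    have e2 : ‖φ x‖ ≤ ∑ u, ‖Gf M lam z0 Λ ω x u‖ * ‖r u‖ := by
      rw [e]
      refine (norm_sum_le _ _).trans (le_of_eq ?_)
      exact Finset.sum_congr rfl fun u _ => norm_mul _ _
    exact (pow_le_pow_left₀ (norm_nonneg _) e2 2).trans (Finset.sum_mul_sq_le_sq_mul_sq _ _ _)
  have hRb : R ≤ 16 / 3 * (d * b) ^ 2 * (2 * L + 1) ^ d + 16 * z0.im ^ 2 * P := by
    have hpt : ∀ u : Λ, ‖r u‖ ^ 2 ≤ 16 / 3 * (d * b) ^ 2 + 16 * z0.im ^ 2 * ‖φ u‖ ^ 2 := by
      intro u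
      have e1 : ‖r u‖ ≤ 2 * z0.im * ‖φ u‖ + 2 * d * b := by
        simp only [hr]
        refine (norm_add_le _ _).trans (add_le_add ?_ (hab u))
        rw [norm_mul]
        exact mul_le_mul_of_nonneg_right hzz (norm_nonneg _)
      have e2 := pow_le_pow_left₀ (norm_nonneg _) e1 2
      refine e2.trans ?_
      nlinarith [sq_nonneg (3 * (2 * z0.im * ‖φ u‖) - 2 * d * b)]
    calc R ≤ ∑ u : Λ, (16 / 3 * (d * b) ^ 2 + 16 * z0.im ^ 2 * ‖φ u‖ ^ 2) :=
          Finset.sum_le_sum fun u _ => hpt u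
      _ = _ := by
          rw [Finset.sum_add_distrib, Finset.sum_const, nsmul_eq_mul, hcard, ← Finset.mul_sum]
          ring
  have hmain : 64 * z0.im ^ 2 * P ≤ R := by
    have e1 : z0.im ^ 2 * P ≤ 1 / 64 * R := by
      calc z0.im ^ 2 * P ≤ z0.im ^ 2 *
            ((∑ x : Λ, ∑ y : Λ, ‖Gf M lam z0 Λ ω x y‖ ^ 2) * R) :=
            mul_le_mul_of_nonneg_left hPR (sq_nonneg _)
        _ = (z0.im ^ 2 * ∑ x : Λ, ∑ y : Λ, ‖Gf M lam z0 Λ ω x y‖ ^ 2) * R := by ring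
        _ ≤ 1 / 64 * R := mul_le_mul_of_nonneg_right hHS hR0
    linarith
  have hfin : 9 * z0.im ^ 2 * P ≤ (d * b) ^ 2 * (2 * L + 1) ^ d := by linarith
  have hfin2 : P ≤ (d / (3 * z0.im)) ^ 2 * (2 * L + 1) ^ d * b ^ 2 := by
    have e : (d / (3 * z0.im)) ^ 2 * (2 * L + 1) ^ d * b ^ 2
        = ((d * b) ^ 2 * (2 * L + 1) ^ d) / (9 * z0.im ^ 2) := by
      field_simp
      ring
    rw [e, le_div_iff₀ (by positivity)]
    linarith
  have hsum : ∑ x ∈ box (0 : Site d) L, ‖ψ x‖ ^ 2 = P := by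
    rw [hP, ← Finset.sum_coe_sort Λ]
  rw [hsum, mul_pow]
  exact hfin2.trans (mul_le_mul_of_nonneg_right hS (sq_nonneg _))

end Pool.Agent.Helper3.TG
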