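import Pool.Agent.Helper3.TG.SharpDefs

/-! Sharp transport gap, module SH1: finite volume Green functions. -/

open scoped ENNReal NNReal
open MeasureTheory Set Filter Topology

noncomputable section

namespace Pool.Agent.Helper3.TG

open Pool.Agent.Helper3.Anderson Pool.Agent.Helper3.Crit ProbabilityTheory

variable {d : ℕ} {μ : Measure ℝ} [IsProbabilityMeasure μ] {M lam : ℝ} {K : ℝ≥0}

omit [IsProbabilityMeasure μ] in
/-- one site, finite volume: spectral averaging -/
theorem sa_one_site_fin (hμ : GoodLaw μ M K) (hlam : 0 < lam) {z : ℂ} (hz0 : 0 < z.im)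
    (Λ : Finset (Site d)) (ω : Site d → ℝ) (x : Λ) :
    ∫⁻ t, ENNReal.ofReal
        (Real.pi⁻¹ * (Gf M lam z Λ (Function.update ω (x : Site d) t) x x).im) ∂μ
      ≤ K * ENNReal.ofReal (1 / lam) := by
  have hae : ∀ᵐ t ∂μ, |t| ≤ M := by
    have : ∀ᵐ t ∂μ, t ∈ Icc (-M) M := by rw [ae_iff]; exact hμ.supp
    filter_upwards [this] with t ht
    exact abs_le.2 ht
  have hA := diss_HL Λ hz0
  have hD : ∀ w, (VL M lam Λ ω w).im ≤ 0 := fun w => by
    unfold VL; rw [Complex.ofReal_im]
  set D := VL M lam Λ ω with hDdef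
  have hD0 : ∀ y, y ∉ (∅ : Finset Λ) → (Function.update D x 0 y).im ≤ 0 := by
    intro y _
    rcases eq_or_ne y x with rfl | hne
    · simp
    · simpa [Function.update_of_ne hne] using hD y
  set g := gcut (HL Λ z) (Function.update D x 0) ∅ x x with hg
  have hgi : 0 < g.im := gcut_im_pos hA hD0 (Finset.notMem_empty x)
  have hn2 : 0 < g.re ^ 2 + g.im ^ 2 := by positivity
  set α : ℝ := g.re / (g.re ^ 2 + g.im ^ 2) with hα
  set β : ℝ := g.im / (g.re ^ 2 + g.im ^ 2) with hβ
  have hβ0 : 0 < β := div_pos hgi hn2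
  set γ : ℝ≥0 := ⟨β / lam, by positivity⟩ with hγ
  have hγ0 : γ ≠ 0 := by
    intro h
    have : β / lam = 0 := congrArg NNReal.toReal h
    have h2 : 0 < β / lam := by positivity
    linarith
  have hkey : ∀ t : ℝ, |t| ≤ M →
      ENNReal.ofReal (Real.pi⁻¹ * (Gf M lam z Λ (Function.update ω (x : Site d) t) x x).im)
        = ENNReal.ofReal (1 / lam) * cauchyPDF (-(α / lam)) γ t := by
    intro t ht
    have h1 : Gf M lam z Λ (Function.update ω (x : Site d) t) x x * (1 + (t : ℂ) * (lam * g))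
        = g := by
      have := gcut_rank_one hA (u := x) hD (t := ((lam * t : ℝ) : ℂ))
        (by rw [Complex.ofReal_im]) x x
      rw [Gf, VL_update, clip_of_abs_le ht, ← hDdef]
      rw [← hg] at this
      push_cast at this ⊢
      linear_combination this
    have hne : 1 + (t : ℂ) * (lam * g) ≠ 0 := by
      intro h
      have h1 := congrArg Complex.im h
      simp at h1
      rcases h1 with h1 | h1 | h1
      · rw [h1] at h; simp at h
      · exact hlam.ne' h1
      · exact hgi.ne' h1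
    have h2 : Gf M lam z Λ (Function.update ω (x : Site d) t) x x
        = g / (1 + (t : ℂ) * (lam * g)) := by
      rw [eq_div_iff hne]; exact h1
    have h3 : (g / (1 + (t : ℂ) * (lam * g))).im
        = g.im / ((1 + t * lam * g.re) ^ 2 + (t * lam * g.im) ^ 2) := by
      rw [Complex.div_im]
      have e1 : (1 + (t : ℂ) * (lam * g)).re = 1 + t * lam * g.re := by
        simp; ring
      have e2 : (1 + (t : ℂ) * (lam * g)).im = t * lam * g.im := by
        simp; ring
      rw [Complex.normSq_apply, e1, e2]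
      have h5 : (1 + t * lam * g.re) * (1 + t * lam * g.re)
          + (t * lam * g.im) * (t * lam * g.im) ≠ 0 := by
        intro h
        apply hne
        have h6 : (1 + t * lam * g.re) = 0 := by
          nlinarith [mul_self_nonneg (1 + t * lam * g.re), mul_self_nonneg (t * lam * g.im)]
        have h7 : (t * lam * g.im) = 0 := by
          nlinarith [mul_self_nonneg (1 + t * lam * g.re), mul_self_nonneg (t * lam * g.im)]
        apply Complex.ext
        · rw [e1, h6]; rfl
        · rw [e2, h7]; rfl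
      have h6 : (1 + t * lam * g.re) * (1 + t * lam * g.re)
          + (t * lam * g.im) * (t * lam * g.im)
          = (1 + t * lam * g.re) ^ 2 + (t * lam * g.im) ^ 2 := by ring
      rw [h6] at h5 ⊢
      rw [← sub_div]
      congr 1
      ring
    have h4 : (1 + t * lam * g.re) ^ 2 + (t * lam * g.im) ^ 2
        = (g.re ^ 2 + g.im ^ 2) * ((α + lam * t) ^ 2 + β ^ 2) := by
      rw [hα, hβ]; field_simp; ring
    have h5 : 0 < (α + lam * t) ^ 2 + β ^ 2 := by positivity
    rw [h2, h3, h4, cauchyPDF, ← ENNReal.ofReal_mul (by positivity), cauchyPDFReal_def]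
    congr 1
    have h6 : (γ : ℝ) = β / lam := rfl
    rw [h6]
    have h7 : (t - -(α / lam)) ^ 2 + (β / lam) ^ 2 = ((α + lam * t) ^ 2 + β ^ 2) / lam ^ 2 := by
      field_simp; ring
    rw [h7]
    have hpi := Real.pi_ne_zero
    have h9 : g.im / ((g.re ^ 2 + g.im ^ 2) * ((α + lam * t) ^ 2 + β ^ 2))
        = β / ((α + lam * t) ^ 2 + β ^ 2) := by
      rw [← div_div, ← hβ]
    rw [h9, inv_div]
    field_simp
  calc ∫⁻ t, ENNReal.ofReal
        (Real.pi⁻¹ * (Gf M lam z Λ (Function.update ω (x : Site d) t) x x).im) ∂μ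
      = ∫⁻ t, ENNReal.ofReal (1 / lam) * cauchyPDF (-(α / lam)) γ t ∂μ := by
        refine lintegral_congr_ae ?_
        filter_upwards [hae] with t ht
        exact hkey t ht
    _ ≤ ∫⁻ t, ENNReal.ofReal (1 / lam) * cauchyPDF (-(α / lam)) γ t
          ∂((K : ℝ≥0∞) • (volume : Measure ℝ)) := lintegral_mono' hμ.dens le_rfl
    _ = K * ENNReal.ofReal (1 / lam) := by
        rw [lintegral_smul_measure, lintegral_const_mul _ (by fun_prop),
          lintegral_cauchyPDF_eq_one _ hγ0, mul_one, smul_eq_mul]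

/-- the imaginary part of the quadratic form of `-Δ - z` -/
theorem sh1_form_im (Λ : Finset (Site d)) (z : ℂ) (φ : Λ → ℂ) :
    (∑ x : Λ, (starRingEnd ℂ) (φ x) * ∑ w, HL Λ z x w * φ w).im
      = - z.im * ∑ x : Λ, ‖φ x‖ ^ 2 := by
  have e1 : ∀ x : Λ, ∑ w, HL Λ z x w * φ w = (2 * d - z) * φ x
      - ∑ w : Λ, (if (w : Site d) ∈ nbs (x : Site d) then (1 : ℂ) else 0) * φ w := by
    intro x
    simp only [HL, sub_mul, Finset.sum_sub_distrib, ite_mul, zero_mul, Finset.sum_ite_eq,
      Finset.mem_univ, if_true]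
  have e2 : ∑ x : Λ, (starRingEnd ℂ) (φ x) * ∑ w, HL Λ z x w * φ w
      = ∑ x : Λ, (2 * d - z) * ((‖φ x‖ ^ 2 : ℝ) : ℂ)
        - ∑ x : Λ, ∑ w : Λ, (if (w : Site d) ∈ nbs (x : Site d) then (1 : ℂ) else 0)
          * ((starRingEnd ℂ) (φ x) * φ w) := by
    rw [← Finset.sum_sub_distrib]
    refine Finset.sum_congr rfl fun x _ => ?_
    rw [e1, mul_sub, Finset.mul_sum, ← Complex.normSq_eq_norm_sq, Complex.normSq_eq_conj_mul_self]
    congr 1
    · ring
    · exact Finset.sum_congr rfl fun w _ => by ring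
  set S : ℂ := ∑ x : Λ, ∑ w : Λ, (if (w : Site d) ∈ nbs (x : Site d) then (1 : ℂ) else 0)
          * ((starRingEnd ℂ) (φ x) * φ w) with hS
  have hSim : S.im = 0 := by
    rw [← Complex.conj_eq_iff_im, hS, map_sum]
    simp only [map_sum]
    rw [Finset.sum_comm]
    refine Finset.sum_congr rfl fun x _ => Finset.sum_congr rfl fun w _ => ?_
    rw [map_mul, map_mul, Complex.conj_conj]
    have : (if (x : Site d) ∈ nbs (w : Site d) then (1 : ℂ) else 0)
        = if (w : Site d) ∈ nbs (x : Site d) then 1 else 0 := by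
      simp only [mem_nbs_comm (u := (w : Site d))]
    rw [this]
    split_ifs <;> simp [mul_comm]
  rw [e2, Complex.sub_im, hSim, sub_zero, ← Finset.mul_sum, ← Complex.ofReal_sum, Complex.mul_im,
    Complex.ofReal_re, Complex.ofReal_im, mul_zero, zero_add]
  have h2 : (2 * (d : ℂ) - z).im = - z.im := by simp
  rw [h2]

/-- Ward identity in finite volume -/
theorem ward_fin {z : ℂ} (hz0 : 0 < z.im) (Λ : Finset (Site d)) (ω : Site d → ℝ) (x : Λ) :
    z.im * ∑ y : Λ, ‖Gf M lam z Λ ω y x‖ ^ 2 = (Gf M lam z Λ ω x x).im := by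
  have hA := diss_HL Λ hz0
  have hD : ∀ w, w ∉ (∅ : Finset Λ) → (VL M lam Λ ω w).im ≤ 0 := fun w _ => by
    unfold VL; rw [Complex.ofReal_im]
  set φ : Λ → ℂ := fun y => Gf M lam z Λ ω y x with hφ
  have hx : ∀ y, (∑ w, HL Λ z y w * φ w) + VL M lam Λ ω y * φ y = if y = x then 1 else 0 := by
    intro y
    have := gcut_eq hA hD y x
    rw [if_neg (Finset.notMem_empty y)] at this
    exact this
  have h1 := sh1_form_im Λ z φ
  have h2 : ∀ y, (starRingEnd ℂ) (φ y) * ∑ w, HL Λ z y w * φ w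
      = (starRingEnd ℂ) (φ y) * (if y = x then 1 else 0)
        - VL M lam Λ ω y * ((‖φ y‖ ^ 2 : ℝ) : ℂ) := by
    intro y
    have h3 : ∑ w, HL Λ z y w * φ w = (if y = x then 1 else 0) - VL M lam Λ ω y * φ y := by
      rw [← hx y]; ring
    rw [h3, mul_sub, ← Complex.normSq_eq_norm_sq, Complex.normSq_eq_conj_mul_self]; ring
  rw [Finset.sum_congr rfl fun y _ => h2 y, Finset.sum_sub_distrib] at h1
  simp only [mul_ite, mul_one, mul_zero, Finset.sum_ite_eq', Finset.mem_univ, if_true,
    Complex.sub_im, Complex.conj_im, Complex.im_sum] at h1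
  have h5 : ∀ y, (VL M lam Λ ω y * ((‖φ y‖ ^ 2 : ℝ) : ℂ)).im = 0 := by
    intro y
    unfold VL
    rw [← Complex.ofReal_mul, Complex.ofReal_im]
  simp only [h5, Finset.sum_const_zero, sub_zero] at h1
  show z.im * ∑ y : Λ, ‖φ y‖ ^ 2 = (φ x).im
  linarith

theorem sh1_im_pos {z : ℂ} (hz0 : 0 < z.im) (Λ : Finset (Site d)) (ω : Site d → ℝ) (x : Λ) :
    0 < (Gf M lam z Λ ω x x).im := by
  have := gcut_im_pos (diss_HL Λ hz0) (D := VL M lam Λ ω) (T := ∅)
    (fun w _ => by unfold VL; rw [Complex.ofReal_im]) (Finset.notMem_empty x)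
  exact this

theorem sh1_site (hμ : GoodLaw μ M K) (hlam : 0 < lam) {z : ℂ} (hz0 : 0 < z.im)
    (Λ : Finset (Site d)) (x : Λ) :
    ∫⁻ ω, ENNReal.ofReal (Real.pi⁻¹ * (Gf M lam z Λ ω x x).im) ∂(PP d μ)
      ≤ K * ENNReal.ofReal (1 / lam) := by
  have hm : Measurable fun ω : Site d → ℝ =>
      ENNReal.ofReal (Real.pi⁻¹ * (Gf M lam z Λ ω x x).im) :=
    ENNReal.measurable_ofReal.comp
      ((Complex.measurable_im.comp (measurable_Gf lam z Λ x x)).const_mul _)
  rw [lintegral_resample (x : Site d) hm]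
  calc ∫⁻ ω, ∫⁻ t, ENNReal.ofReal
        (Real.pi⁻¹ * (Gf M lam z Λ (Function.update ω (x : Site d) t) x x).im) ∂μ ∂(PP d μ)
      ≤ ∫⁻ _ω, K * ENNReal.ofReal (1 / lam) ∂(PP d μ) :=
        lintegral_mono fun ω => sa_one_site_fin hμ hlam hz0 Λ ω x
    _ = _ := by rw [lintegral_const, measure_univ, mul_one]

/-- trace estimate in finite volume -/
theorem prob_trace_fin (hμ : GoodLaw μ M K) (hlam : 0 < lam) {z : ℂ} (hz0 : 0 < z.im) (L : ℕ) :
    (PP d μ).real {ω | ¬ z.im * ∑ x : box (0 : Site d) L,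
        (Gf M lam z (box (0 : Site d) L) ω x x).im ≤ 1 / 64}
      ≤ 64 * Real.pi * (K / lam) * z.im * (2 * L + 1) ^ d := by
  have hpi := Real.pi_pos
  set F : (Site d → ℝ) → ℝ≥0∞ := fun ω =>
    ∑ x : box (0 : Site d) L,
      ENNReal.ofReal (Real.pi⁻¹ * (Gf M lam z (box (0 : Site d) L) ω x x).im) with hF
  have hm : ∀ x : box (0 : Site d) L, Measurable fun ω : Site d → ℝ =>
      ENNReal.ofReal (Real.pi⁻¹ * (Gf M lam z (box (0 : Site d) L) ω x x).im) := fun x =>
    ENNReal.measurable_ofReal.comp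
      ((Complex.measurable_im.comp (measurable_Gf lam z _ x x)).const_mul _)
  have hFm : Measurable F := Finset.measurable_sum _ fun x _ => hm x
  have hI : ∫⁻ ω, F ω ∂(PP d μ) ≤ ENNReal.ofReal ((2 * L + 1) ^ d * (K * (1 / lam))) := by
    rw [hF, lintegral_finsetSum _ fun x _ => hm x]
    calc ∑ x : box (0 : Site d) L,
          ∫⁻ ω, ENNReal.ofReal (Real.pi⁻¹ * (Gf M lam z (box (0 : Site d) L) ω x x).im) ∂(PP d μ)
        ≤ ∑ _x : box (0 : Site d) L, K * ENNReal.ofReal (1 / lam) :=
          Finset.sum_le_sum fun x _ => sh1_site hμ hlam hz0 _ x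
      _ = ENNReal.ofReal ((2 * L + 1) ^ d * (K * (1 / lam))) := by
          rw [Finset.sum_const, Finset.card_univ, Fintype.card_coe, card_box, nsmul_eq_mul,
            ENNReal.ofReal_mul (by positivity),
            ENNReal.ofReal_mul K.coe_nonneg, ENNReal.ofReal_coe_nnreal]
          congr 1
          rw [ENNReal.ofReal_pow (by positivity)]
          push_cast
          congr 1
          have : (2 * (L : ℝ) + 1) = ((2 * L + 1 : ℕ) : ℝ) := by push_cast; ring
          rw [this, ENNReal.ofReal_natCast]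
          push_cast
          ring
  have hc : 0 < Real.pi⁻¹ * (1 / (64 * z.im)) := by positivity
  have h := tgd_markov (P := PP d μ) hFm
    (s := {ω | ¬ z.im * ∑ x : box (0 : Site d) L,
        (Gf M lam z (box (0 : Site d) L) ω x x).im ≤ 1 / 64})
    hc (by positivity) (fun ω hω => by
      have h1 : 1 / 64 < z.im * ∑ x : box (0 : Site d) L,
          (Gf M lam z (box (0 : Site d) L) ω x x).im := not_le.1 hω
      have h2 : F ω = ENNReal.ofReal (Real.pi⁻¹ *
          ∑ x : box (0 : Site d) L, (Gf M lam z (box (0 : Site d) L) ω x x).im) := by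
        have hnn : ∀ x ∈ (Finset.univ : Finset (box (0 : Site d) L)),
            0 ≤ Real.pi⁻¹ * (Gf M lam z (box (0 : Site d) L) ω x x).im := fun x _ =>
          mul_nonneg (by positivity) (sh1_im_pos hz0 _ ω x).le
        rw [Finset.mul_sum, ENNReal.ofReal_sum_of_nonneg hnn]
      rw [h2]
      refine ENNReal.ofReal_le_ofReal ?_
      have h3 : 1 / (64 * z.im) ≤ ∑ x : box (0 : Site d) L,
          (Gf M lam z (box (0 : Site d) L) ω x x).im := by
        rw [div_le_iff₀ (by positivity)]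
        nlinarith
      gcongr) hI
  refine h.trans (le_of_eq ?_)
  field_simp

end Pool.Agent.Helper3.TG
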