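import Mathlib

/-!
# Choice of scales and exponents for the sharp transport gap
-/

set_option autoImplicit false

open Filter Topology

namespace Pool.Agent.Helper3.TG

private theorem quarter_pow2 {k : ℕ} {T : ℝ} (hT : 1 ≤ T) (hk : 2 * Real.log T ≤ k) :
    ((1 : ℝ) / 4) ^ k ≤ T ^ (-2 : ℝ) := by
  have hT0 : 0 < T := by linarith
  have hlog : 0 ≤ Real.log T := Real.log_nonneg hT
  have h4 : (1 : ℝ) ≤ Real.log 4 := by
    rw [Real.le_log_iff_exp_le (by norm_num)]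
    have := Real.exp_one_lt_d9
    linarith
  have e1 : ((1 : ℝ) / 4) ^ k = Real.exp (-(k * Real.log 4)) := by
    rw [Real.exp_neg, mul_comm, Real.exp_mul, Real.exp_log (by norm_num), Real.rpow_natCast,
      one_div, inv_pow]
  have e2 : T ^ (-2 : ℝ) = Real.exp (-(2 * Real.log T)) := by
    rw [Real.rpow_def_of_pos hT0]
    congr 1
    ring
  rw [e1, e2]
  apply Real.exp_le_exp.2
  have hk0 : (0 : ℝ) ≤ k := Nat.cast_nonneg k
  nlinarith

theorem numeric2 (d : ℕ) (hd : 0 < d) {β1 β : ℝ} (h1 : 0 < β1) (h12 : β1 < β) (h2 : β < 1 / d)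
    {B C a : ℝ} (hB : 0 ≤ B) (hC : 0 ≤ C) (ha : 0 < a) (Lmin : ℕ) :
    ∃ T0 : ℝ, 1 ≤ T0 ∧ ∀ T : ℝ, T0 ≤ T → ∃ (n L0 l0 k L l h A : ℕ) (S τ t m : ℝ),
      T ^ β1 ≤ n ∧ 1 ≤ l0 ∧ l0 ≤ L0 ∧ l0 + k * (n + 1) ≤ L0 ∧
      0 ≤ S ∧ 0 < τ ∧ (2 * L0 + 3) ^ d ≤ S ^ 2 ∧
      (d / (3 * T⁻¹)) ^ 2 * (2 * L0 + 1) ^ d ≤ S ^ 2 ∧
      l + h * (L0 + l0) ≤ L ∧ L ≤ A * l0 ∧
      Lmin ≤ L ∧ (L : ℝ) ≤ T ^ β ∧ 1 ≤ l ∧ 4 * l ≤ L ∧ L ≤ 2 ^ 7 * l ∧ 0 < m ∧
      16 * (10 * d + 2) * Real.log L ≤ m * L ∧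
      ((2 * A + 1 : ℕ) : ℝ) ^ d * (2 * (B * T⁻¹ * (2 * L0 + 1) ^ d)
          + (2 * L0 + 3) ^ d * T ^ (-(9 / 2) : ℝ) / τ ^ 2)
        + C * ((2 * L + 1 : ℕ) : ℝ) ^ (3 * d) * Real.exp (-(t / 4)) ≤ a ∧
      (S * ((1 / 4) ^ k + 8 * d * τ)) ^ h * Real.exp t
        ≤ Real.exp (-(m * ((L + l + 1 : ℕ) : ℝ))) := by
  have hdR : (0 : ℝ) < d := by exact_mod_cast hd
  have hd1 : (1 : ℝ) ≤ d := by exact_mod_cast hd
  have hβ : 0 < β := h1.trans h12
  have hβd : β * d < 1 := by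
    have := mul_lt_mul_of_pos_right h2 hdR
    rwa [one_div, inv_mul_cancel₀ hdR.ne'] at this
  obtain ⟨b, hb1, hb2⟩ := exists_between h12
  have hb0 : 0 < b := h1.trans hb1
  have hbd : b * d < 1 := by
    have := mul_lt_mul_of_pos_right hb2 hdR
    linarith
  set h : ℕ := 3200 * d + 800 with hh
  set A : ℕ := 32 * h with hA
  set W : ℝ := ((2 * A + 1 : ℕ) : ℝ) ^ d with hW
  have hW0 : 0 < W := by positivity
  -- the eventual conditions
  have E1 : ∀ᶠ T : ℝ in atTop, (1 : ℝ) ≤ T := eventually_ge_atTop 1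
  have E2 : ∀ᶠ T : ℝ in atTop, (Lmin : ℝ) + 8 ≤ T ^ b :=
    (tendsto_rpow_atTop hb0).eventually_ge_atTop _
  have E3 : ∀ᶠ T : ℝ in atTop, 6 * W * B * 3 ^ d / a ≤ T ^ (1 - b * d) :=
    (tendsto_rpow_atTop (by linarith)).eventually_ge_atTop _
  have E4 : ∀ᶠ T : ℝ in atTop, 3 * W * 5 ^ d / a ≤ T ^ (1 / 10 : ℝ) :=
    (tendsto_rpow_atTop (by norm_num)).eventually_ge_atTop _
  have E5 : ∀ᶠ T : ℝ in atTop, 3 * C * 27 ^ d / a ≤ T ^ (1 : ℝ) :=
    (tendsto_rpow_atTop (by norm_num)).eventually_ge_atTop _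
  have E6 : ∀ᶠ T : ℝ in atTop, ‖Real.log T‖ ≤ (1 / 8000) * ‖T ^ (b - β1)‖ :=
    (isLittleO_log_rpow_atTop (by linarith)).def (by norm_num)
  have E7 : ∀ᶠ T : ℝ in atTop, (100 : ℝ) ≤ T ^ (b - β1) :=
    (tendsto_rpow_atTop (by linarith)).eventually_ge_atTop _
  have E8 : ∀ᶠ T : ℝ in atTop, (4 * h : ℝ) ≤ T ^ (β - b) :=
    (tendsto_rpow_atTop (by linarith)).eventually_ge_atTop _
  have E9 : ∀ᶠ T : ℝ in atTop, (d : ℝ) * 5 ^ d * (1 + 8 * d) ≤ T ^ (1 / 10 : ℝ) :=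
    (tendsto_rpow_atTop (by norm_num)).eventually_ge_atTop _
  have E10 : ∀ᶠ T : ℝ in atTop, (2 : ℝ) ≤ T := eventually_ge_atTop 2
  obtain ⟨T1, hT1⟩ := eventually_atTop.1 (E1.and (E2.and (E3.and (E4.and (E5.and (E6.and
    (E7.and (E8.and (E9.and E10)))))))))
  refine ⟨max T1 1, le_max_right _ _, fun T hT => ?_⟩
  obtain ⟨g1, g2, g3, g4, g5, g6, g7, g8, g9, g10⟩ := hT1 T ((le_max_left _ _).trans hT)
  clear E1 E2 E3 E4 E5 E6 E7 E8 E9 E10 hT1 hT
  have hT0 : 0 < T := by linarith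
  have hlog : 0 < Real.log T := Real.log_pos (by linarith)
  rw [Real.norm_of_nonneg hlog.le, Real.norm_of_nonneg (by positivity)] at g6
  set L0 : ℕ := ⌊T ^ b⌋₊ with hL0
  set n : ℕ := ⌈T ^ β1⌉₊ with hn
  set l0 : ℕ := L0 / 4 with hl0
  set k : ℕ := (L0 - l0) / (n + 1) with hk
  have hTb : 0 ≤ T ^ b := by positivity
  have hLle : (L0 : ℝ) ≤ T ^ b := Nat.floor_le hTb
  have hLge : T ^ b < L0 + 1 := Nat.lt_floor_add_one _
  have hLm : Lmin + 7 ≤ L0 := by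
    have : ((Lmin + 7 : ℕ) : ℝ) < (L0 : ℝ) + 1 := by
      push_cast
      linarith
    have : Lmin + 7 < L0 + 1 := by exact_mod_cast this
    omega
  have hLR : (7 : ℝ) ≤ L0 := by
    have : 7 ≤ L0 := by omega
    exact_mod_cast this
  have hL00 : (0 : ℝ) < L0 := by linarith
  have hTb1 : 1 ≤ T ^ b := Real.one_le_rpow g1 hb0.le
  have hh1 : 1 ≤ h := by omega
  have hhR : (1 : ℝ) ≤ h := by exact_mod_cast hh1
  set L : ℕ := 4 * (h * L0) with hL
  set l : ℕ := h * L0 with hl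
  have hL0le : L0 ≤ h * L0 := Nat.le_mul_of_pos_left _ (by omega)
  -- size of `L`
  have hLb : (L : ℝ) ≤ T ^ β := by
    have e : T ^ β = T ^ (β - b) * T ^ b := by
      rw [← Real.rpow_add hT0]
      congr 1
      ring
    rw [e, hL]
    push_cast
    have el : (l : ℝ) = h * L0 := by rw [hl]; push_cast; ring
    calc (4 : ℝ) * l = (4 * h) * L0 := by rw [el]; ring
      _ ≤ T ^ (β - b) * T ^ b := mul_le_mul g8 hLle hL00.le (by positivity)
  have hLpos : (0 : ℝ) < L := by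
    have : 0 < L := by omega
    exact_mod_cast this
  have hL7 : (7 : ℝ) ≤ L := by
    have : 7 ≤ L := by omega
    exact_mod_cast this
  have hlogL : 0 < Real.log L := Real.log_pos (by linarith)
  have hTβd : T ^ (β * d) ≤ T := by
    calc T ^ (β * d) ≤ T ^ (1 : ℝ) := Real.rpow_le_rpow_of_exponent_le g1 hβd.le
      _ = T := Real.rpow_one T
  -- powers of `L0`
  have p1 : ((2 : ℝ) * L0 + 1) ^ d ≤ 3 ^ d * T ^ (b * d) := by
    rw [Real.rpow_mul hT0.le, Real.rpow_natCast, ← mul_pow]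
    exact pow_le_pow_left₀ (by positivity) (by linarith) d
  have p2 : ((2 : ℝ) * L0 + 3) ^ d ≤ 5 ^ d * T ^ (b * d) := by
    rw [Real.rpow_mul hT0.le, Real.rpow_natCast, ← mul_pow]
    exact pow_le_pow_left₀ (by positivity) (by linarith) d
  have p3 : T ^ (b * d) ≤ T := by
    calc T ^ (b * d) ≤ T ^ (1 : ℝ) := Real.rpow_le_rpow_of_exponent_le g1 hbd.le
      _ = T := Real.rpow_one T
  have p5 : ((2 : ℝ) * L0 + 3) ^ d ≤ 5 ^ d * T :=
    p2.trans (mul_le_mul_of_nonneg_left p3 (by positivity))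
  have hp0 : (0 : ℝ) ≤ ((2 : ℝ) * L0 + 3) ^ d := by positivity
  set S : ℝ := d * T * Real.sqrt (((2 : ℝ) * L0 + 3) ^ d) with hS
  have hS0 : 0 ≤ S := by positivity
  have hS2 : S ^ 2 = (d * T) ^ 2 * ((2 : ℝ) * L0 + 3) ^ d := by
    rw [hS, mul_pow, Real.sq_sqrt hp0]
  have hdT : 1 ≤ (d : ℝ) * T := by
    calc (1 : ℝ) = 1 * 1 := by ring
      _ ≤ d * T := mul_le_mul hd1 g1 (by norm_num) (by linarith)
  have hdT2 : 1 ≤ ((d : ℝ) * T) ^ 2 := one_le_pow₀ hdT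
  -- the number of steps
  have hnle : (n : ℝ) < T ^ β1 + 1 := Nat.ceil_lt_add_one (by positivity)
  have hTβ0 : 1 ≤ T ^ β1 := Real.one_le_rpow g1 h1.le
  have hk1 : 2 * Real.log T ≤ k := by
    have a1 : ((L0 - l0 : ℕ) : ℝ) < (k + 1) * (n + 1) := by
      have h := Nat.lt_div_mul_add (a := L0 - l0) (b := n + 1) (Nat.succ_pos n)
      have h' : L0 - l0 < (k + 1) * (n + 1) := by
        rw [add_mul, one_mul]
        exact h
      exact_mod_cast h'
    have a2 : (L0 : ℝ) * (3 / 4) ≤ ((L0 - l0 : ℕ) : ℝ) := by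
      have h : L0 * 3 ≤ (L0 - l0) * 4 := by omega
      have h' : (L0 : ℝ) * 3 ≤ ((L0 - l0 : ℕ) : ℝ) * 4 := by exact_mod_cast h
      linarith
    have a3 : T ^ b / 2 ≤ L0 := by linarith
    have a4 : (n : ℝ) + 1 ≤ 3 * T ^ β1 := by linarith
    have a5 : T ^ b * (3 / 8) < (k + 1) * (3 * T ^ β1) := by
      have h0 : ((k : ℝ) + 1) * (n + 1) ≤ (k + 1) * (3 * T ^ β1) :=
        mul_le_mul_of_nonneg_left a4 (by positivity)
      linarith
    have a6 : T ^ b = T ^ (b - β1) * T ^ β1 := by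
      rw [← Real.rpow_add hT0]
      congr 1
      ring
    rw [a6] at a5
    have a7 : T ^ (b - β1) * (3 / 8) < (k + 1) * 3 := by
      have : T ^ (b - β1) * (3 / 8) * T ^ β1 < (k + 1) * 3 * T ^ β1 := by linarith
      exact lt_of_mul_lt_mul_right this (by positivity)
    linarith
  have hquart := quarter_pow2 g1 hk1
  refine ⟨n, L0, l0, k, L, l, h, A, S, T ^ (-(17 / 10) : ℝ), 16 * Real.log T,
    16 * (10 * d + 2) * Real.log L / L, Nat.le_ceil _, by omega, by omega, ?_, hS0,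
    by positivity, ?_, ?_, ?_, ?_, by omega, hLb, by omega, by omega, by omega, by positivity,
    ?_, ?_, ?_⟩
  · have h := Nat.div_mul_le_self (L0 - l0) (n + 1)
    have h' : k * (n + 1) ≤ L0 - l0 := h
    omega
  · rw [hS2]
    exact le_mul_of_one_le_left hp0 hdT2
  · rw [hS2]
    have e1 : (d : ℝ) / (3 * T⁻¹) = d * T / 3 := by
      field_simp
    rw [e1]
    refine mul_le_mul ?_ ?_ (by positivity) (by positivity)
    · exact pow_le_pow_left₀ (by positivity) (by linarith) 2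
    · exact pow_le_pow_left₀ (by positivity) (by linarith) d
  · have : L0 + l0 ≤ 2 * L0 := by omega
    have h3 : h * (L0 + l0) ≤ h * (2 * L0) := Nat.mul_le_mul_left _ this
    have h4 : h * (2 * L0) = 2 * (h * L0) := by ring
    omega
  · have : L0 ≤ 8 * l0 := by omega
    have h3 : h * L0 ≤ h * (8 * l0) := Nat.mul_le_mul_left _ this
    have h4 : A * l0 = 4 * (h * (8 * l0)) := by rw [hA]; ring
    omega
  · rw [div_mul_cancel₀ _ hLpos.ne']
  · -- probabilities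
    have t1 : W * (2 * (B * T⁻¹ * (2 * L0 + 1) ^ d)) ≤ a / 3 := by
      have e : W * (2 * (B * T⁻¹ * (2 * (L0 : ℝ) + 1) ^ d)) ≤
          W * (2 * (B * T⁻¹ * (3 ^ d * T ^ (b * d)))) := by
        gcongr
      refine e.trans ?_
      rw [div_le_iff₀ ha] at g3
      have e2 : T = T ^ (1 - b * d) * T ^ (b * d) := by
        rw [← Real.rpow_add hT0]
        have : 1 - b * d + b * d = (1 : ℝ) := by ring
        rw [this, Real.rpow_one]
      have e3 : 6 * W * B * 3 ^ d * T ^ (b * d) ≤ a * T := by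
        calc 6 * W * B * 3 ^ d * T ^ (b * d) ≤ (T ^ (1 - b * d) * a) * T ^ (b * d) :=
            mul_le_mul_of_nonneg_right g3 (by positivity)
          _ = a * (T ^ (1 - b * d) * T ^ (b * d)) := by ring
          _ = a * T := by rw [← e2]
      calc W * (2 * (B * T⁻¹ * (3 ^ d * T ^ (b * d))))
          = (6 * W * B * 3 ^ d * T ^ (b * d)) * T⁻¹ / 3 := by ring
        _ ≤ a * T * T⁻¹ / 3 := by gcongr
        _ = a / 3 := by rw [mul_assoc, mul_inv_cancel₀ hT0.ne', mul_one]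
    have t2 : W * ((2 * L0 + 3) ^ d * T ^ (-(9 / 2) : ℝ) / (T ^ (-(17 / 10) : ℝ)) ^ 2)
        ≤ a / 3 := by
      have e1 : (T ^ (-(17 / 10) : ℝ)) ^ 2 = T ^ (-(17 / 5) : ℝ) := by
        rw [← Real.rpow_natCast, ← Real.rpow_mul hT0.le]
        norm_num
      have e2 : T ^ (-(9 / 2) : ℝ) / T ^ (-(17 / 5) : ℝ) = T ^ (-(11 / 10) : ℝ) := by
        rw [← Real.rpow_sub hT0]
        norm_num
      have e3 : T * T ^ (-(11 / 10) : ℝ) = T ^ (-(1 / 10) : ℝ) := by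
        nth_rewrite 1 [← Real.rpow_one T]
        rw [← Real.rpow_add hT0]
        norm_num
      rw [e1, mul_div_assoc, e2]
      rw [div_le_iff₀ ha] at g4
      calc W * ((2 * (L0 : ℝ) + 3) ^ d * T ^ (-(11 / 10) : ℝ))
          ≤ W * (5 ^ d * T * T ^ (-(11 / 10) : ℝ)) := by gcongr
        _ = (3 * W * 5 ^ d) * T ^ (-(1 / 10) : ℝ) / 3 := by rw [mul_assoc (5 ^ d), e3]; ring
        _ ≤ (T ^ (1 / 10 : ℝ) * a) * T ^ (-(1 / 10) : ℝ) / 3 := by gcongr
        _ = a / 3 * (T ^ (1 / 10 : ℝ) * T ^ (-(1 / 10) : ℝ)) := by ring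
        _ = a / 3 := by
          rw [← Real.rpow_add hT0]
          norm_num
    have t3 : C * ((2 * L + 1 : ℕ) : ℝ) ^ (3 * d) * Real.exp (-(16 * Real.log T / 4))
        ≤ a / 3 := by
      have e1 : Real.exp (-(16 * Real.log T / 4)) = T ^ (-4 : ℝ) := by
        rw [Real.rpow_def_of_pos hT0]
        congr 1
        ring
      have q1 : ((2 : ℝ) * L + 1) ^ d ≤ 3 ^ d * T := by
        have : ((2 : ℝ) * L + 1) ^ d ≤ 3 ^ d * T ^ (β * d) := by
          rw [Real.rpow_mul hT0.le, Real.rpow_natCast, ← mul_pow]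
          exact pow_le_pow_left₀ (by positivity) (by linarith) d
        exact this.trans (mul_le_mul_of_nonneg_left hTβd (by positivity))
      have e : (((2 * L + 1 : ℕ) : ℝ)) ^ (3 * d) = (((2 : ℝ) * L + 1) ^ d) ^ 3 := by
        push_cast
        rw [← pow_mul, mul_comm 3 d]
      have e2 : (27 : ℝ) ^ d = (3 ^ d) ^ 3 := by
        rw [← pow_mul, mul_comm d 3, pow_mul]
        norm_num
      have q2 : (((2 * L + 1 : ℕ) : ℝ)) ^ (3 * d) ≤ 27 ^ d * T ^ 3 := by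
        rw [e, e2, ← mul_pow]
        exact pow_le_pow_left₀ (by positivity) q1 3
      have e3 : T ^ 3 * T ^ (-4 : ℝ) = T ^ (-1 : ℝ) := by
        rw [← Real.rpow_natCast, ← Real.rpow_add hT0]
        norm_num
      rw [e1]
      rw [div_le_iff₀ ha, Real.rpow_one] at g5
      calc C * ((2 * L + 1 : ℕ) : ℝ) ^ (3 * d) * T ^ (-4 : ℝ)
          ≤ C * (27 ^ d * T ^ 3) * T ^ (-4 : ℝ) := by gcongr
        _ = (3 * C * 27 ^ d) * (T ^ 3 * T ^ (-4 : ℝ)) / 3 := by ring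
        _ = (3 * C * 27 ^ d) * T ^ (-1 : ℝ) / 3 := by rw [e3]
        _ ≤ (T * a) * T ^ (-1 : ℝ) / 3 := by gcongr
        _ = a / 3 := by
          rw [Real.rpow_neg_one]
          field_simp
    rw [mul_add]
    linarith
  · -- the good box
    set m : ℝ := 16 * (10 * d + 2) * Real.log L / L with hm
    have r1 : m * ((L + l + 1 : ℕ) : ℝ) ≤ (320 * d + 64) * Real.log T := by
      have s1 : ((L + l + 1 : ℕ) : ℝ) ≤ 2 * L := by
        have h : L + l + 1 ≤ 2 * L := by omega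
        exact_mod_cast h
      have s2 : Real.log L ≤ Real.log T := by
        refine Real.log_le_log hLpos (hLb.trans ?_)
        calc T ^ β ≤ T ^ (1 : ℝ) := by
              refine Real.rpow_le_rpow_of_exponent_le g1 ?_
              have : β * 1 ≤ β * d := mul_le_mul_of_nonneg_left hd1 hβ.le
              linarith
          _ = T := Real.rpow_one T
      calc m * ((L + l + 1 : ℕ) : ℝ) ≤ m * (2 * L) :=
            mul_le_mul_of_nonneg_left s1 (by positivity)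
        _ = 32 * (10 * d + 2) * Real.log L := by
            rw [hm]
            field_simp
            ring
        _ ≤ 32 * (10 * d + 2) * Real.log T :=
            mul_le_mul_of_nonneg_left s2 (by positivity)
        _ = (320 * d + 64) * Real.log T := by ring
    have r2 : T ^ (-(320 * d + 64) : ℝ) ≤ Real.exp (-(m * ((L + l + 1 : ℕ) : ℝ))) := by
      rw [Real.rpow_def_of_pos hT0]
      apply Real.exp_le_exp.2
      linarith
    refine le_trans ?_ r2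
    -- S
    have s1 : S ≤ d * 5 ^ d * T ^ (3 / 2 : ℝ) := by
      have e1 : Real.sqrt (((2 : ℝ) * L0 + 3) ^ d) ≤ 5 ^ d * T ^ (1 / 2 : ℝ) := by
        rw [← Real.sqrt_eq_rpow]
        refine Real.sqrt_le_iff.2 ⟨by positivity, ?_⟩
        rw [mul_pow, Real.sq_sqrt hT0.le]
        refine p5.trans (mul_le_mul_of_nonneg_right ?_ hT0.le)
        exact le_self_pow₀ (one_le_pow₀ (by norm_num)) (by norm_num)
      have e2 : T * T ^ (1 / 2 : ℝ) = T ^ (3 / 2 : ℝ) := by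
        nth_rewrite 1 [← Real.rpow_one T]
        rw [← Real.rpow_add hT0]
        norm_num
      calc S ≤ d * T * (5 ^ d * T ^ (1 / 2 : ℝ)) :=
            mul_le_mul_of_nonneg_left e1 (by positivity)
        _ = d * 5 ^ d * (T * T ^ (1 / 2 : ℝ)) := by ring
        _ = d * 5 ^ d * T ^ (3 / 2 : ℝ) := by rw [e2]
    have s2 : ((1 : ℝ) / 4) ^ k + 8 * d * T ^ (-(17 / 10) : ℝ) ≤
        (1 + 8 * d) * T ^ (-(17 / 10) : ℝ) := by
      have : T ^ (-2 : ℝ) ≤ T ^ (-(17 / 10) : ℝ) :=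
        Real.rpow_le_rpow_of_exponent_le g1 (by norm_num)
      rw [add_mul, one_mul]
      linarith
    have s3 : S * (((1 : ℝ) / 4) ^ k + 8 * d * T ^ (-(17 / 10) : ℝ)) ≤ T ^ (-(1 / 10) : ℝ) := by
      calc S * (((1 : ℝ) / 4) ^ k + 8 * d * T ^ (-(17 / 10) : ℝ))
          ≤ (d * 5 ^ d * T ^ (3 / 2 : ℝ)) * ((1 + 8 * d) * T ^ (-(17 / 10) : ℝ)) :=
            mul_le_mul s1 s2 (by positivity) (by positivity)
        _ = (d * 5 ^ d * (1 + 8 * d)) * (T ^ (3 / 2 : ℝ) * T ^ (-(17 / 10) : ℝ)) := by ring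
        _ ≤ T ^ (1 / 10 : ℝ) * (T ^ (3 / 2 : ℝ) * T ^ (-(17 / 10) : ℝ)) :=
            mul_le_mul_of_nonneg_right g9 (by positivity)
        _ = T ^ (-(1 / 10) : ℝ) := by
            rw [← Real.rpow_add hT0, ← Real.rpow_add hT0]
            norm_num
    have s4 : (S * (((1 : ℝ) / 4) ^ k + 8 * d * T ^ (-(17 / 10) : ℝ))) ^ h ≤
        T ^ (-(320 * d + 80) : ℝ) := by
      calc (S * (((1 : ℝ) / 4) ^ k + 8 * d * T ^ (-(17 / 10) : ℝ))) ^ h
          ≤ (T ^ (-(1 / 10) : ℝ)) ^ h := pow_le_pow_left₀ (by positivity) s3 h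
        _ = T ^ (-(320 * d + 80) : ℝ) := by
            rw [← Real.rpow_natCast, ← Real.rpow_mul hT0.le, hh]
            congr 1
            push_cast
            ring
    have s5 : Real.exp (16 * Real.log T) = T ^ (16 : ℝ) := by
      rw [Real.rpow_def_of_pos hT0]
      congr 1
      ring
    calc (S * (((1 : ℝ) / 4) ^ k + 8 * d * T ^ (-(17 / 10) : ℝ))) ^ h * Real.exp (16 * Real.log T)
        ≤ T ^ (-(320 * d + 80) : ℝ) * Real.exp (16 * Real.log T) :=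
          mul_le_mul_of_nonneg_right s4 (Real.exp_pos _).le
      _ = T ^ (-(320 * d + 64) : ℝ) := by
          rw [s5, ← Real.rpow_add hT0]
          congr 1
          ring

end Pool.Agent.Helper3.TG
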