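import Pool.Agent.Helper3.TG.SharpDefs

/-! Sharp transport gap, module SH4: Markov for the Hilbert-Schmidt tail. -/

open scoped ENNReal NNReal
open MeasureTheory Set Filter Topology

noncomputable section

namespace Pool.Agent.Helper3.TG

open Pool.Agent.Helper3.Anderson Pool.Agent.Helper3.Crit

variable {d : ℕ} {μ : Measure ℝ} [IsProbabilityMeasure μ] {M lam : ℝ} {K : ℝ≥0}

theorem prob_hs (hM : 0 ≤ M) {z : ℂ} (hz0 : 0 < z.im) {n L : ℕ} {τ ε : ℝ} (hτ0 : 0 < τ)
    (hε : 0 ≤ ε)
    (h : ∑' x : Site d, (if n < sn x then ∫⁻ ω, ‖gc M lam z ω x 0‖ₑ ^ 2 ∂(PP d μ) else 0)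
      ≤ ENNReal.ofReal ε) :
    (PP d μ).real {ω | ¬ hsq (potc M lam ω) z n L ≤ τ ^ 2} ≤ (2 * L + 3) ^ d * ε / τ ^ 2 := by
  set F : (Site d → ℝ) → ℝ≥0∞ := fun ω => ∑ y ∈ box (0 : Site d) (L + 1),
    ∑' x : Site d, (if n < sn (x - y) then ‖gc M lam z ω x y‖ₑ ^ 2 else 0) with hF
  have hm : ∀ x y : Site d, Measurable fun ω : Site d → ℝ =>
      (if n < sn (x - y) then ‖gc M lam z ω x y‖ₑ ^ 2 else 0) := by
    intro x y
    by_cases hn : n < sn (x - y)
    · simp only [if_pos hn]
      exact ((measurable_gc hM hz0 x y).enorm).pow_const 2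
    · simp only [if_neg hn]
      exact measurable_const
  have hFm : Measurable F :=
    Finset.measurable_sum _ fun y _ => Measurable.tsum fun x => hm x y
  have hI : ∫⁻ ω, F ω ∂(PP d μ) ≤ ENNReal.ofReal ((2 * L + 3) ^ d * ε) := by
    rw [hF, lintegral_finsetSum _ fun y _ => Measurable.tsum fun x => hm x y]
    calc ∑ y ∈ box (0 : Site d) (L + 1), ∫⁻ ω, ∑' x : Site d,
          (if n < sn (x - y) then ‖gc M lam z ω x y‖ₑ ^ 2 else 0) ∂(PP d μ)
        ≤ ∑ _y ∈ box (0 : Site d) (L + 1), ENNReal.ofReal ε := by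
          refine Finset.sum_le_sum fun y _ => ?_
          rw [lintegral_tsum fun x => (hm x y).aemeasurable]
          refine le_trans (le_of_eq ?_) h
          rw [← (Equiv.subRight y).tsum_eq (fun x : Site d =>
            (if n < sn x then ∫⁻ ω, ‖gc M lam z ω x 0‖ₑ ^ 2 ∂(PP d μ) else 0))]
          refine tsum_congr fun x => ?_
          rw [Equiv.subRight_apply]
          by_cases hn : n < sn (x - y)
          · simp only [if_pos hn]
            exact tgd_shift hM hz0 x y
          · simp only [if_neg hn, lintegral_zero]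
      _ = ENNReal.ofReal ((2 * L + 3) ^ d * ε) := by
          rw [Finset.sum_const, card_box, nsmul_eq_mul, ENNReal.ofReal_mul (by positivity)]
          congr 1
          rw [ENNReal.ofReal_pow (by positivity)]
          push_cast
          congr 1
          have : (2 * (L : ℝ) + 3) = ((2 * (L + 1) + 1 : ℕ) : ℝ) := by push_cast; ring
          rw [this, ENNReal.ofReal_natCast]
          push_cast
          ring
  refine tgd_markov (P := PP d μ) hFm (by positivity) (by positivity) (fun ω hω => ?_) hI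
  have h1 : τ ^ 2 < hsq (potc M lam ω) z n L := not_le.1 hω
  refine (ENNReal.ofReal_le_ofReal h1.le).trans ?_
  have h2 : ENNReal.ofReal (hsq (potc M lam ω) z n L) =
      ∑ y ∈ box (0 : Site d) (L + 1), ∑ x ∈ box (0 : Site d) (L + 1),
        (if n < sn (x - y) then ‖gc M lam z ω x y‖ₑ ^ 2 else 0) := by
    unfold hsq
    rw [Finset.sum_comm, ENNReal.ofReal_sum_of_nonneg]
    · refine Finset.sum_congr rfl fun y _ => ?_
      rw [ENNReal.ofReal_sum_of_nonneg]
      · refine Finset.sum_congr rfl fun x _ => ?_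
        split_ifs
        · rw [ENNReal.ofReal_pow (norm_nonneg _), ofReal_norm_eq_enorm]
          rfl
        · exact ENNReal.ofReal_zero
      · intro x _
        split_ifs
        · positivity
        · exact le_rfl
    · intro y _
      refine Finset.sum_nonneg fun x _ => ?_
      split_ifs
      · positivity
      · exact le_rfl
  rw [h2]
  exact Finset.sum_le_sum fun y _ => ENNReal.sum_le_tsum _

end Pool.Agent.Helper3.TG
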