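import Pool.Agent.Helper3.TG.Msa2u
import Pool.Agent.Helper3.TG.FinTrace
import Pool.Agent.Helper3.TG.FinAp
import Pool.Agent.Helper3.TG.Contract2
import Pool.Agent.Helper3.TG.ProbHs
import Pool.Agent.Helper3.TG.AllGood
import Pool.Agent.Helper3.TG.Numeric2
import Pool.Agent.Helper3.TG.FmQuant
import Pool.Agent.Helper3.TG.BoxShift
import Pool.Agent.Helper3.Crit.Init2
import Pool.Agent.Helper3.Crit.FmDec

/-! Small mass far away at one complex energy implies localisation near it. -/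

open scoped ENNReal NNReal InnerProductSpace
open MeasureTheory Set Filter Topology

noncomputable section

namespace Pool.Agent.Helper3.TG

open Pool.Agent.Helper3.Anderson Pool.Agent.Helper3.Crit

variable {d : ℕ} {μ : Measure ℝ} [IsProbabilityMeasure μ] {M lam : ℝ} {K : ℝ≥0}

/-- the tail of the Green function at the energy `E + i / T` beyond the distance `r` -/
def tailG (d : ℕ) (μ : Measure ℝ) [IsProbabilityMeasure μ] (M lam r T E : ℝ) : ℝ≥0∞ :=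
  ∑' x : Site d, (if r < sn x then
    ∫⁻ ω, ‖gc M lam ((E : ℂ) + (T⁻¹ : ℝ) * Complex.I) ω x 0‖ₑ ^ 2 ∂(PP d μ) else 0)

theorem goodbox_prob (d : ℕ) (hd : 0 < d) (hμ : GoodLaw μ M K) (hlam : 0 < lam) {β1 β : ℝ}
    (h1 : 0 < β1) (h12 : β1 < β) (h2 : β < 1 / d) {a : ℝ} (ha : 0 < a) (Lmin : ℕ) :
    ∃ T0 : ℝ, 1 ≤ T0 ∧ ∀ T : ℝ, T0 ≤ T → ∃ (L l : ℕ) (m : ℝ),
      Lmin ≤ L ∧ (L : ℝ) ≤ T ^ β ∧ 1 ≤ l ∧ 4 * l ≤ L ∧ L ≤ 2 ^ 7 * l ∧ 0 < m ∧
      16 * (10 * d + 2) * Real.log L ≤ m * L ∧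
      ∀ E0 : ℝ, tailG d μ M lam (T ^ β1) T E0 ≤ ENNReal.ofReal (T ^ (-(9 / 2) : ℝ)) →
      ∀ z : ℂ, 0 < z.im → ‖z - ((E0 : ℂ) + (T⁻¹ : ℝ) * Complex.I)‖ ≤ 2 * T⁻¹ →
        (PP d μ).real {ω | ¬ GoodBox (potc M lam ω) z 0 l L
          (Real.exp (-(m * ((L + l + 1 : ℕ) : ℝ))))} ≤ a := by
  obtain ⟨T0, hT01, hnum⟩ := numeric2 d hd h1 h12 h2 (B := 64 * Real.pi * (K / lam))
    (C := 2 * (C2 M lam K).toReal * (2 * d + 1)) (a := a) (by positivity) (by positivity) ha Lmin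
  refine ⟨T0, hT01, fun T hT => ?_⟩
  obtain ⟨n, L0, l0, k, L, l, h, A, S, τ, t, m, hn, hl0, hlL0, hk, hS0, hτ, hS, hS2, hL, hA,
    hLmin, hLβ, hl, h4, h27, hm, hml, hprob, hfin⟩ := hnum T hT
  refine ⟨L, l, m, hLmin, hLβ, hl, h4, h27, hm, hml, fun E0 hsum z hz hzz => ?_⟩
  have hT0 : 0 < T := by linarith
  have hTi : 0 < T⁻¹ := inv_pos.2 hT0
  set z0 : ℂ := (E0 : ℂ) + (T⁻¹ : ℝ) * Complex.I with hz0
  have hz0i : z0.im = T⁻¹ := by
    rw [hz0, Complex.add_im, Complex.ofReal_im, Complex.im_ofReal_mul, Complex.I_im]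
    ring
  have hz0p : 0 < z0.im := by rw [hz0i]; exact hTi
  have hM : 0 ≤ M := zero_le_one.trans hμ.one_le
  have hhs := prob_hs (d := d) (μ := μ) (lam := lam) hM (z := z0) hz0p (n := n)
    (L := L0) (τ := τ) (ε := T ^ (-(9 / 2) : ℝ)) hτ (by positivity) (by
      refine le_trans (ENNReal.tsum_le_tsum fun x => ?_) hsum
      split_ifs with ha hb
      · exact le_rfl
      · exact absurd (lt_of_le_of_lt hn (by exact_mod_cast ha)) hb
      · exact bot_le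
      · exact le_rfl)
  have htr := prob_trace (d := d) hμ hlam (z := z0) hz0p L0
  have htf := prob_trace_fin (d := d) hμ hlam (z := z0) hz0p L0
  have hsmall : (PP d μ).real {ω | ¬ GoodBox (potc M lam ω) z 0 l0 L0
      (S * ((1 / 4) ^ k + 8 * d * τ))} ≤ 2 * (64 * Real.pi * (K / lam) * T⁻¹ * (2 * L0 + 1) ^ d)
        + (2 * L0 + 3) ^ d * T ^ (-(9 / 2) : ℝ) / τ ^ 2 := by
    refine le_trans (measureReal_mono (s₂ := {ω | ¬ z0.im * ∑ x ∈ box (0 : Site d) L0,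
        (green (potc M lam ω) z0 x x).im ≤ 1 / 64} ∪ ({ω | ¬ hsq (potc M lam ω) z0 n L0 ≤ τ ^ 2} ∪
        {ω | ¬ z0.im * ∑ x : box (0 : Site d) L0,
        (Gf M lam z0 (box (0 : Site d) L0) ω x x).im ≤ 1 / 64})) ?_) ?_
    · intro ω hω
      by_contra hcon
      simp only [mem_union, mem_ofPred_eq, not_or, not_not] at hcon
      obtain ⟨c1, c2, c3⟩ := hcon
      refine hω ?_
      exact contract2 (bdd_potc hM ω) hz0p (by rw [hz0i]; exact hzz) hk hτ.le hS0 hS c1 c2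
        (ap_of_trace hz0p (by rw [hz0i]; exact hzz) c3 hS0 (by rw [hz0i]; exact hS2))
    · refine (measureReal_union_le _ _).trans ?_
      have h6 := measureReal_union_le (μ := PP d μ) {ω | ¬ hsq (potc M lam ω) z0 n L0 ≤ τ ^ 2}
        {ω | ¬ z0.im * ∑ x : box (0 : Site d) L0,
        (Gf M lam z0 (box (0 : Site d) L0) ω x x).im ≤ 1 / 64}
      rw [hz0i] at htr htf
      rw [hz0i] at *
      linarith
  have hbig := prob_all_good (d := d) hμ hlam hz.le (ρ := S * ((1 / 4) ^ k + 8 * d * τ)) (t := t)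
    hl0 hlL0 (by positivity) hL hA
  have h2A : (0 : ℝ) ≤ ((2 * A + 1 : ℕ) : ℝ) ^ d := by positivity
  refine (measureReal_mono (s₂ := {ω | ¬ GoodBox (potc M lam ω) z 0 l L
      ((S * ((1 / 4) ^ k + 8 * d * τ)) ^ h * Real.exp t)}) ?_).trans (hbig.trans ?_)
  · intro ω hω hcon
    exact hω (hcon.mono_rho hfin)
  · refine le_trans ?_ hprob
    unfold wg
    have := mul_le_mul_of_nonneg_left hsmall h2A
    linarith

theorem fm_of_goodbox (d : ℕ) (hμ : GoodLaw μ M K) (hlam : 0 < lam) {β1 β : ℝ} (h0 : 0 < β1)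
    (h1 : β1 < β) :
    ∃ (Lmin : ℕ) (T0 : ℝ), 1 ≤ T0 ∧ ∀ T : ℝ, T0 ≤ T → ∀ (L l : ℕ) (m : ℝ), Lmin ≤ L →
      (L : ℝ) ≤ T ^ β1 → 1 ≤ l → 4 * l ≤ L → L ≤ 2 ^ 7 * l → 0 < m →
      16 * (10 * d + 2) * Real.log L ≤ m * L →
      ∀ z : ℂ, 0 < z.im → (PP d μ).real {ω | ¬ GoodBox (potc M lam ω) z 0 l L
          (Real.exp (-(m * ((L + l + 1 : ℕ) : ℝ))))} ≤ pb3_a d * Real.exp (-1) →
      ∀ x y : Site d, ∫⁻ ω, ‖gc M lam z ω x y‖ₑ ^ (1 / 8 : ℝ) ∂(PP d μ)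
          ≤ ENNReal.ofReal (fqC M lam K * Real.exp (-(sn (x - y) / T ^ β))) := by
  set β' : ℝ := (β1 + β) / 2 with hβ'
  have hβ'1 : β1 < β' := by rw [hβ']; linarith
  have hβ'2 : β' < β := by rw [hβ']; linarith
  set ε : ℝ := min 1 ((β' - β1) / β1) with hε
  have hε0 : 0 < ε := lt_min one_pos (div_pos (by linarith) h0)
  have hε1 : ε ≤ 1 := min_le_left _ _
  have hεβ : β1 * (1 + ε) ≤ β' := by
    have h4 : ε ≤ (β' - β1) / β1 := min_le_right _ _
    rw [le_div_iff₀ h0] at h4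
    linarith
  obtain ⟨Lmin, hms⟩ := msa2_unif d hμ hlam
  obtain ⟨Lmin2, hk2⟩ := num_k d (cd := (CD M lam K).toReal) (a := pb3_a d) ENNReal.toReal_nonneg
    (pb3_a_pos d).le hε0 hε1
  obtain ⟨T1, hT1⟩ := eventually_atTop.1
    ((tendsto_rpow_atTop (show 0 < β - β' by linarith)).eventually_ge_atTop (2 : ℝ))
  refine ⟨max Lmin Lmin2, max 1 T1, le_max_left _ _, fun T hT' L l m hL hLβ hl0 h4 h27 hm hml
    z hz hprob x y => ?_⟩
  have hT01 : 1 ≤ T := (le_max_left _ _).trans hT'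
  have hT2 : 2 ≤ T ^ (β - β') := hT1 T ((le_max_right _ _).trans hT')
  have hT0 : 0 < T := by linarith
  have hmsa := hms m hm l L ((le_max_left _ _).trans hL) hl0 h4 h27 hml z hz.le hprob
  obtain ⟨j, hj1, hj2⟩ := hk2 L m ((le_max_right _ _).trans hL) hml
  have hlL : lsc 6 l L j ≤ Lsc 6 L j + 1 := by
    cases j with
    | zero => simp only [Lsc, lsc]; omega
    | succ j =>
      simp only [Lsc, lsc]
      have : 1 ≤ 2 ^ (j + 1 + 6) := Nat.one_le_two_pow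
      nlinarith
  refine (fm_decay_at hμ hlam hlL (Real.exp_pos _).le (by have := pb3_a_pos d; positivity) hj1 hz
    (hmsa j) x y).trans (ENNReal.ofReal_le_ofReal ?_)
  refine mul_le_mul_of_nonneg_left (Real.exp_le_exp.2 (neg_le_neg ?_)) (fqC_pos M lam K).le
  have hLpos : (0 : ℝ) < L := by
    have : 0 < L := by omega
    exact_mod_cast this
  have e1 : (Lsc 6 L j : ℝ) + 1 ≤ T ^ β' := by
    refine hj2.trans ((Real.rpow_le_rpow hLpos.le hLβ (by linarith)).trans ?_)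
    rw [← Real.rpow_mul hT0.le]
    exact Real.rpow_le_rpow_of_exponent_le hT01 hεβ
  have e2 : T ^ β = T ^ (β - β') * T ^ β' := by
    rw [← Real.rpow_add hT0]; congr 1; ring
  have e3 : 2 * ((Lsc 6 L j : ℝ) + 1) ≤ T ^ β := by
    rw [e2]
    have h0 : (0 : ℝ) ≤ (Lsc 6 L j : ℝ) + 1 := by positivity
    exact mul_le_mul hT2 e1 h0 (by positivity)
  have hlog2 : (1 : ℝ) / 2 ≤ Real.log 2 := by
    have := Real.log_two_gt_d9
    linarith
  have hs0 : (0 : ℝ) ≤ sn (x - y) := Nat.cast_nonneg _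
  rw [div_mul_eq_mul_div, div_le_div_iff₀ (by positivity) (by positivity)]
  calc (sn (x - y) : ℝ) * ((Lsc 6 L j : ℝ) + 1) = 1 / 2 * sn (x - y) * (2 * ((Lsc 6 L j : ℝ) + 1)) := by
        ring
    _ ≤ Real.log 2 * sn (x - y) * T ^ β :=
        mul_le_mul (mul_le_mul_of_nonneg_right hlog2 hs0) e3 (by positivity) (by positivity)

/-- Little mass outside the ball of radius `T ^ β1`, `β1 < 1 / d`, at one large `T` and one energy
`E0` implies exponential decay of the fractional moments near `E0`, with length `T ^ β`. -/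
theorem fm_of_tail (d : ℕ) (hd : 0 < d) (hμ : GoodLaw μ M K) (hlam : 0 < lam) {β1 β : ℝ}
    (h1 : 0 < β1) (h12 : β1 < β) (h2 : β1 < 1 / d) :
    ∃ T0 : ℝ, 1 ≤ T0 ∧ ∀ T E0 : ℝ, T0 ≤ T →
      tailG d μ M lam (T ^ β1) T E0 ≤ ENNReal.ofReal (T ^ (-(9 / 2) : ℝ)) →
      ∀ z : ℂ, 0 < z.im → ‖z - ((E0 : ℂ) + (T⁻¹ : ℝ) * Complex.I)‖ ≤ 2 * T⁻¹ → ∀ x y : Site d,
        ∫⁻ ω, ‖gc M lam z ω x y‖ₑ ^ (1 / 8 : ℝ) ∂(PP d μ)
          ≤ ENNReal.ofReal (fqC M lam K * Real.exp (-(sn (x - y) / T ^ β))) := by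
  obtain ⟨β', hb1, hb2⟩ := exists_between (lt_min h12 h2)
  obtain ⟨Lmin, T1, hT1, hfm⟩ := fm_of_goodbox d hμ hlam (h1.trans hb1)
    (hb2.trans_le (min_le_left _ _))
  obtain ⟨T0, hT01, hgb⟩ := goodbox_prob d hd hμ hlam h1 hb1 (hb2.trans_le (min_le_right _ _))
    (a := pb3_a d * Real.exp (-1)) (by have := pb3_a_pos d; positivity) Lmin
  refine ⟨max T0 T1, le_max_of_le_left hT01, fun T E0 hT ht z hz hzz x y => ?_⟩
  obtain ⟨L, l, m, hLmin, hLβ, hl, h4, h27, hm, hml, hg⟩ := hgb T ((le_max_left _ _).trans hT)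
  exact hfm T ((le_max_right _ _).trans hT) L l m hLmin hLβ hl h4 h27 hm hml z hz
    (hg E0 ht z hz hzz) x y

/-- The same in a wider window of real energies, for laws of finite Fisher information. -/
theorem fm_of_tail_wide (d : ℕ) (hd : 0 < d) (hμ : GoodLaw μ M K) (hlam : 0 < lam) {f : ℝ → ℝ}
    {κ : ℝ} (hf : Fisher μ f κ) (hκ : 0 ≤ κ) {β1 β : ℝ}
    (h1 : 0 < β1) (h12 : β1 < β) (h2 : β1 < 1 / d) :
    ∃ T0 : ℝ, 1 ≤ T0 ∧ ∀ T E0 : ℝ, T0 ≤ T →
      tailG d μ M lam (T ^ β1) T E0 ≤ ENNReal.ofReal (T ^ (-(9 / 2) : ℝ)) →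
      ∀ z : ℂ, 0 < z.im → z.im ≤ T⁻¹ → |z.re - E0| ≤ T ^ (-(d * β / 2)) → ∀ x y : Site d,
        ∫⁻ ω, ‖gc M lam z ω x y‖ₑ ^ (1 / 8 : ℝ) ∂(PP d μ)
          ≤ ENNReal.ofReal (fqC M lam K * Real.exp (-(sn (x - y) / T ^ β))) := by
  have hdR : (0 : ℝ) < d := by exact_mod_cast hd
  obtain ⟨β', hb1, hb2⟩ := exists_between (lt_min h12 h2)
  have hβ' : 0 < β' := h1.trans hb1
  have hβ'β : β' < β := hb2.trans_le (min_le_left _ _)
  set a : ℝ := pb3_a d * Real.exp (-1) with ha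
  have ha0 : 0 < a := by have := pb3_a_pos d; positivity
  obtain ⟨Lmin, T1, hT1, hfm⟩ := fm_of_goodbox d hμ hlam hβ' hβ'β
  obtain ⟨T0, hT01, hgb⟩ := goodbox_prob d hd hμ hlam h1 hb1 (hb2.trans_le (min_le_right _ _))
    (a := a / 2) (by positivity) Lmin
  set γ : ℝ := d * (β - β') / 2 with hγ
  have hγ0 : 0 < γ := by
    have : 0 < β - β' := by linarith
    positivity
  obtain ⟨T2, hT2⟩ := eventually_atTop.1
    ((tendsto_rpow_atTop hγ0).eventually_ge_atTop (2 * κ / lam * Real.sqrt (3 ^ d) / (a / 2)))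
  obtain ⟨T3, hT3⟩ := eventually_atTop.1
    ((tendsto_rpow_atTop (show 0 < d * β / 2 by have := hβ'.trans hβ'β; positivity)).eventually_ge_atTop
      (1 / lam))
  refine ⟨max (max T0 T1) (max T2 T3), le_max_of_le_left (le_max_of_le_left hT01),
    fun T E0 hT ht z hz hzi hzr x y => ?_⟩
  have g0 : T0 ≤ T := ((le_max_left _ _).trans (le_max_left _ _)).trans hT
  have g1 : T1 ≤ T := ((le_max_right _ _).trans (le_max_left _ _)).trans hT
  have g2 := hT2 T (((le_max_left _ _).trans (le_max_right _ _)).trans hT)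
  have g3 := hT3 T (((le_max_right _ _).trans (le_max_right _ _)).trans hT)
  have hT1' : 1 ≤ T := hT01.trans g0
  have hTp : 0 < T := by linarith
  have hTi : 0 < T⁻¹ := inv_pos.2 hTp
  obtain ⟨L, l, m, hLmin, hLβ, hl, h4, h27, hm, hml, hg⟩ := hgb T g0
  set s : ℝ := z.re - E0 with hs
  set z1 : ℂ := (E0 : ℂ) + (z.im : ℝ) * Complex.I with hz1
  have hz1i : z1.im = z.im := by
    rw [hz1, Complex.add_im, Complex.ofReal_im, Complex.im_ofReal_mul, Complex.I_im]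
    ring
  have hz1r : z1.re = E0 := by
    rw [hz1, Complex.add_re, Complex.ofReal_re, Complex.re_ofReal_mul, Complex.I_re]
    ring
  have hzz : z = z1 + (s : ℂ) := by
    apply Complex.ext
    · rw [Complex.add_re, hz1r, Complex.ofReal_re, hs]; ring
    · rw [Complex.add_im, hz1i, Complex.ofReal_im]; ring
  have hsl : |s| ≤ lam := by
    refine hzr.trans ?_
    rw [Real.rpow_neg hTp.le]
    have : 0 < T ^ (d * β / 2) := by positivity
    rw [inv_le_comm₀ this hlam, ← one_div]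
    exact g3
  have hb := bad_shift (d := d) hμ hlam hf hκ z1 (l := l) (L := L) (by omega)
    (Real.exp (-(m * ((L + l + 1 : ℕ) : ℝ)))) hsl
  rw [← hzz] at hb
  have hg1 := hg E0 ht z1 (by rw [hz1i]; exact hz) (by
    have e1 : z1 - ((E0 : ℂ) + (T⁻¹ : ℝ) * Complex.I) = ((z.im - T⁻¹ : ℝ) : ℂ) * Complex.I := by
      rw [hz1]; push_cast; ring
    rw [e1, norm_mul, Complex.norm_I, mul_one, Complex.norm_real, Real.norm_eq_abs, abs_le]
    constructor <;> linarith)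
  have hL1 : (1 : ℝ) ≤ L := by
    have : 1 ≤ L := by omega
    exact_mod_cast this
  have hsq : Real.sqrt ((2 * L + 1) ^ d) ≤ Real.sqrt (3 ^ d) * T ^ (d * β' / 2) := by
    have e1 : T ^ (d * β' / 2) = Real.sqrt ((T ^ β') ^ d) := by
      rw [Real.sqrt_eq_rpow, ← Real.rpow_natCast (T ^ β') d, ← Real.rpow_mul hTp.le,
        ← Real.rpow_mul hTp.le]
      congr 1
      ring
    rw [e1, ← Real.sqrt_mul (by positivity), ← mul_pow]
    apply Real.sqrt_le_sqrt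
    apply pow_le_pow_left₀ (by positivity)
    linarith
  have hshift : 2 * κ * (|s| / lam) * Real.sqrt ((2 * L + 1) ^ d) ≤ a / 2 := by
    have e1 : T ^ (-(d * β / 2)) * T ^ (d * β' / 2) = (T ^ γ)⁻¹ := by
      rw [← Real.rpow_add hTp, ← Real.rpow_neg hTp.le]
      congr 1
      rw [hγ]; ring
    have hTγ : 0 < T ^ γ := by positivity
    calc 2 * κ * (|s| / lam) * Real.sqrt ((2 * L + 1) ^ d)
        ≤ 2 * κ * (T ^ (-(d * β / 2)) / lam) * (Real.sqrt (3 ^ d) * T ^ (d * β' / 2)) := by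
          gcongr
      _ = 2 * κ / lam * Real.sqrt (3 ^ d) * (T ^ (-(d * β / 2)) * T ^ (d * β' / 2)) := by ring
      _ = 2 * κ / lam * Real.sqrt (3 ^ d) / T ^ γ := by rw [e1]; ring
      _ ≤ a / 2 := by
          rw [div_le_iff₀ hTγ]
          rw [div_le_iff₀ (by positivity)] at g2
          linarith
  exact hfm T g1 L l m hLmin hLβ hl h4 h27 hm hml z hz (by linarith) x y

end Pool.Agent.Helper3.TG
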