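import Pool.Agent.Helper3.Crit.FinE

/-! Definitions for the transport gap: time averaged moments of the quantum evolution and their
energy density. -/

open scoped ENNReal NNReal InnerProductSpace
open MeasureTheory Set Filter Topology

noncomputable section

namespace Pool.Agent.Helper3.TG

open Pool.Agent.Helper3.Anderson Pool.Agent.Helper3.Crit

variable {d : ℕ}

/-- the evolution `exp(-itH) δ_0` for `H = -Δ + V` with a bounded potential `V` -/
def evo (V : Site d → ℝ) (hV : Bdd V) (t : ℝ) : L2 d :=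
  NormedSpace.exp (t • (-Complex.I • schr V hV)) (dl 0)

/-- the energy density of the time averaged moment of order `p` at time `T` and energy `E` -/
def mE (d : ℕ) (μ : Measure ℝ) [IsProbabilityMeasure μ] (M lam p T E : ℝ) : ℝ≥0∞ :=
  ∑' x : Site d, ENNReal.ofReal ((sn x : ℝ) ^ p / (Real.pi * T)) *
    ∫⁻ ω, ‖gc M lam ((E : ℂ) + (T⁻¹ : ℝ) * Complex.I) ω x 0‖ₑ ^ 2 ∂(PP d μ)

/-- the time averaged moment of order `p` at time `T` of the evolution of `δ_0` -/
def mT (d : ℕ) (μ : Measure ℝ) [IsProbabilityMeasure μ] (M lam : ℝ) (hM : 0 ≤ M) (p T : ℝ) :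
    ℝ≥0∞ :=
  ∫⁻ ω, (ENNReal.ofReal (2 / T) * ∫⁻ t in Ioi (0 : ℝ), ENNReal.ofReal (Real.exp (-(2 * t / T))) *
    ∑' x : Site d, ENNReal.ofReal ((sn x : ℝ) ^ p) *
      ‖(evo (potc M lam ω) (bdd_potc hM ω) t : L2 d) x‖ₑ ^ 2) ∂(PP d μ)

end Pool.Agent.Helper3.TG
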