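import Pool.Agent.Helper3.TG.Defs

/-! The evolution `exp(-itH) δ_0`: derivative, norm, uniqueness, Laplace transform. -/

open scoped ENNReal NNReal InnerProductSpace
open MeasureTheory Set Filter Topology

noncomputable section

namespace Pool.Agent.Helper3.TG

open Pool.Agent.Helper3.Anderson Pool.Agent.Helper3.Crit

variable {d : ℕ}

theorem evo_zero (V : Site d → ℝ) (hV : Bdd V) : evo V hV 0 = dl 0 := by
  unfold evo
  rw [zero_smul, NormedSpace.exp_zero]
  rfl

theorem hasDerivAt_evo (V : Site d → ℝ) (hV : Bdd V) (t : ℝ) :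
    HasDerivAt (evo V hV) (-Complex.I • schr V hV (evo V hV t)) t := by
  have h := hasDerivAt_exp_smul_const' (𝕂 := ℝ) (𝔸 := L2 d →L[ℂ] L2 d) (-Complex.I • schr V hV) t
  have h2 := (((ContinuousLinearMap.apply ℂ (L2 d)) (dl 0)).restrictScalars ℝ).hasFDerivAt
    (x := NormedSpace.exp (t • (-Complex.I • schr V hV))) |>.comp_hasDerivAt t h
  exact h2

theorem norm_of_deriv (V : Site d → ℝ) (hV : Bdd V) {φ : ℝ → L2 d}
    (h : ∀ t, HasDerivAt φ (-Complex.I • schr V hV (φ t)) t) (t : ℝ) : ‖φ t‖ = ‖φ 0‖ := by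
  have h1 : ∀ s, HasDerivAt (fun s => ⟪φ s, φ s⟫_ℂ) 0 s := by
    intro s
    have h2 := (h s).inner ℂ (h s)
    have h3 : ⟪φ s, -Complex.I • schr V hV (φ s)⟫_ℂ + ⟪-Complex.I • schr V hV (φ s), φ s⟫_ℂ = 0 := by
      rw [inner_smul_left, inner_smul_right, inner_schr]
      simp
    rwa [h3] at h2
  have h4 : ⟪φ t, φ t⟫_ℂ = ⟪φ 0, φ 0⟫_ℂ :=
    is_const_of_deriv_eq_zero (fun s => (h1 s).differentiableAt) (fun s => (h1 s).deriv) t 0
  rw [inner_self_eq_norm_sq_to_K, inner_self_eq_norm_sq_to_K] at h4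
  have h5 : ‖φ t‖ ^ 2 = ‖φ 0‖ ^ 2 := by exact_mod_cast h4
  exact (sq_eq_sq₀ (norm_nonneg _) (norm_nonneg _)).1 h5

theorem evo_unique (V : Site d → ℝ) (hV : Bdd V) {φ : ℝ → L2 d} (h0 : φ 0 = dl 0)
    (h : ∀ t, HasDerivAt φ (-Complex.I • schr V hV (φ t)) t) : φ = evo V hV := by
  have h1 : ∀ t, HasDerivAt (fun t => φ t - evo V hV t)
      (-Complex.I • schr V hV ((fun t => φ t - evo V hV t) t)) t := by
    intro t
    have h2 := (h t).sub (hasDerivAt_evo V hV t)
    simp only [map_sub, smul_sub]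
    exact h2
  funext t
  have h3 := norm_of_deriv V hV h1 t
  simp only [h0, evo_zero, sub_self, norm_zero, norm_eq_zero] at h3
  exact sub_eq_zero.1 h3

theorem norm_evo (V : Site d → ℝ) (hV : Bdd V) (t : ℝ) : ‖evo V hV t‖ = 1 := by
  rw [norm_of_deriv V hV (hasDerivAt_evo V hV) t, evo_zero, norm_dl]

theorem continuous_evo (V : Site d → ℝ) (hV : Bdd V) : Continuous (evo V hV) :=
  continuous_iff_continuousAt.2 fun t => (hasDerivAt_evo V hV t).continuousAt

theorem laplace_evo (V : Site d → ℝ) (hV : Bdd V) {z : ℂ} (hz0 : 0 < z.im) (x : Site d) :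
    ∫ t in Ioi (0 : ℝ), Complex.exp (Complex.I * z * t) * (evo V hV t : L2 d) x
      = -Complex.I * green V z x 0 := by
  -- the function `exp(izt) evo t`
  set e : ℝ → ℂ := fun t => Complex.exp (Complex.I * z * t) with he
  have hed : ∀ t : ℝ, HasDerivAt e (Complex.I * z * e t) t := by
    intro t
    have h1 : HasDerivAt (fun t : ℝ => Complex.I * z * (t : ℂ)) (Complex.I * z) t := by
      simpa using (Complex.ofRealCLM.hasDerivAt (x := t)).const_mul (Complex.I * z)
    refine h1.cexp.congr_deriv ?_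
    rw [mul_comm]
  have hen : ∀ t : ℝ, ‖e t‖ = Real.exp (-z.im * t) := by
    intro t
    rw [he]
    simp only [Complex.norm_exp]
    congr 1
    simp
  set F : ℝ → L2 d := fun t => e t • evo V hV t with hF
  have hFd : ∀ t : ℝ, HasDerivAt F (-Complex.I • hz V hV z (F t)) t := by
    intro t
    have h1 := (hed t).smul (hasDerivAt_evo V hV t)
    refine h1.congr_deriv ?_
    have hh : hz V hV z (F t) = schr V hV (F t) - z • F t := rfl
    rw [hh]
    simp only [hF, map_smul, smul_sub, smul_smul]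
    have h2 : -Complex.I * e t = e t * -Complex.I := mul_comm _ _
    rw [← h2, sub_eq_add_neg, ← neg_smul]
    congr 2
    ring
  have hGd : ∀ t : ℝ, HasDerivAt (fun t => res V hV z (F t)) (-Complex.I • F t) t := by
    intro t
    have h1 := ((res V hV z).restrictScalars ℝ).hasFDerivAt (x := F t) |>.comp_hasDerivAt t (hFd t)
    refine h1.congr_deriv ?_
    change res V hV z (-Complex.I • hz V hV z (F t)) = _
    rw [map_smul, res_hz V hV hz0.ne']
  -- coordinate `x`
  have : Fact ((1 : ℝ≥0∞) ≤ 2) := ⟨by norm_num⟩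
  have hxd : ∀ t : ℝ, HasDerivAt (fun t => (res V hV z (F t) : L2 d) x)
      (-Complex.I * (e t * (evo V hV t : L2 d) x)) t := by
    intro t
    have h1 := ((lp.evalCLM ℂ (fun _ : Site d => ℂ) 2 x).restrictScalars ℝ).hasFDerivAt
      (x := res V hV z (F t)) |>.comp_hasDerivAt t (hGd t)
    exact h1
  have hFn : ∀ t : ℝ, ‖F t‖ = Real.exp (-z.im * t) := by
    intro t
    rw [hF]
    simp only [norm_smul, hen, norm_evo, mul_one]
  have hcont : Continuous fun t : ℝ => e t * (evo V hV t : L2 d) x := by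
    refine Continuous.mul ?_ ?_
    · exact continuous_iff_continuousAt.2 fun t => (hed t).continuousAt
    · exact ((lp.evalCLM ℂ (fun _ : Site d => ℂ) 2 x).continuous.comp (continuous_evo V hV))
  have hint : IntegrableOn (fun t : ℝ => -Complex.I * (e t * (evo V hV t : L2 d) x)) (Ioi 0) := by
    have h1 : IntegrableOn (fun t : ℝ => Real.exp (-z.im * t)) (Ioi 0) :=
      integrableOn_exp_mul_Ioi (by linarith) 0
    refine Integrable.mono' h1 (hcont.const_mul _ |>.aestronglyMeasurable) ?_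
    refine Filter.Eventually.of_forall fun t => ?_
    rw [norm_mul, norm_mul, hen]
    have h2 : ‖(evo V hV t : L2 d) x‖ ≤ 1 :=
      (lp.norm_apply_le_norm (by norm_num) _ x).trans (norm_evo V hV t).le
    have h3 : ‖-Complex.I‖ = 1 := by simp
    rw [h3, one_mul]
    exact mul_le_of_le_one_right (Real.exp_pos _).le h2
  have hlim : Tendsto (fun t : ℝ => (res V hV z (F t) : L2 d) x) atTop (𝓝 0) := by
    have h1 : Tendsto (fun t : ℝ => Real.exp (-z.im * t) / z.im) atTop (𝓝 0) := by
      have h2 : Tendsto (fun t : ℝ => Real.exp (-z.im * t)) atTop (𝓝 0) := by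
        refine Real.tendsto_exp_atBot.comp ?_
        exact Filter.Tendsto.const_mul_atTop_of_neg (by linarith) tendsto_id
      simpa using h2.div_const z.im
    refine squeeze_zero_norm (fun t => ?_) h1
    refine (lp.norm_apply_le_norm (by norm_num) _ x).trans ?_
    refine (norm_res_le V hV hz0 _).trans ?_
    rw [hFn]
  have hmain := integral_Ioi_of_hasDerivAt_of_tendsto' (a := (0 : ℝ)) (fun t _ => hxd t) hint hlim
  have he0 : e 0 = 1 := by simp [he]
  have hF0 : F 0 = dl 0 := by
    simp only [hF, he0, evo_zero, one_smul]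
  rw [hF0, ← green_eq, integral_const_mul, zero_sub] at hmain
  have h5 : (Complex.I * -Complex.I) = 1 := by simp
  calc ∫ t in Ioi (0 : ℝ), e t * (evo V hV t : L2 d) x
      = (Complex.I * -Complex.I) * ∫ t in Ioi (0 : ℝ), e t * (evo V hV t : L2 d) x := by
        rw [h5, one_mul]
    _ = Complex.I * (-green V z x 0) := by rw [mul_assoc, hmain]
    _ = -Complex.I * green V z x 0 := by ring

end Pool.Agent.Helper3.TG
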