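import Pool.Agent.Helper3.Crit.BoxMeas
import Pool.Agent.Helper3.Anderson.FinalA

/-! Laws of finite Fisher information. -/

open scoped ENNReal NNReal
open MeasureTheory Set Filter Topology

noncomputable section

namespace Pool.Agent.Helper3.TG

/-- `μ` has the density `f ^ 2` with `‖f (· - s) - f‖ ≤ κ |s|` in `L²` (finite Fisher
information). -/
structure Fisher (μ : Measure ℝ) (f : ℝ → ℝ) (κ : ℝ) : Prop where
  meas : Measurable f
  nonneg : ∀ x, 0 ≤ f x
  dens : μ = volume.withDensity fun x => ENNReal.ofReal (f x ^ 2)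
  shift : ∀ s : ℝ, ∫⁻ x : ℝ, ENNReal.ofReal ((f (x - s) - f x) ^ 2) ≤ ENNReal.ofReal (κ ^ 2 * s ^ 2)

end Pool.Agent.Helper3.TG
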