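import Pool.Agent.Helper3.TG.Defs

/-! Transport gap, module TGM: joint measurability of the evolution and of the Green function. -/

open scoped ENNReal NNReal InnerProductSpace
open MeasureTheory Set Filter Topology

noncomputable section

namespace Pool.Agent.Helper3.TG

open Pool.Agent.Helper3.Anderson Pool.Agent.Helper3.Crit

variable {d : ℕ} {μ : Measure ℝ} [IsProbabilityMeasure μ] {M lam : ℝ} {K : ℝ≥0}

/-- evaluation of an operator: the coordinate `x` of the image of `ψ`, as a continuous linear map -/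
def tgm_ev (ψ : L2 d) (x : Site d) : (L2 d →L[ℂ] L2 d) →L[ℂ] ℂ :=
  (lp.evalCLM ℂ (fun _ : Site d => ℂ) 2 x).comp (ContinuousLinearMap.apply ℂ (L2 d) ψ)

theorem tgm_ev_apply (ψ : L2 d) (x : Site d) (A : L2 d →L[ℂ] L2 d) :
    tgm_ev ψ x A = (A ψ : L2 d) x := rfl

theorem tgm_continuous_evo (V : Site d → ℝ) (hV : Bdd V) (x : Site d) :
    Continuous fun t : ℝ => (evo V hV t : L2 d) x := by
  have h : (fun t : ℝ => (evo V hV t : L2 d) x)
      = fun t : ℝ => tgm_ev (dl 0) x (NormedSpace.exp (t • (-Complex.I • schr V hV))) := by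
    funext t; rfl
  rw [h]
  refine (tgm_ev (dl (0 : Site d)) x).continuous.comp ?_
  rw [continuous_iff_continuousAt]
  intro t
  exact (hasDerivAt_exp_smul_const' (𝕂 := ℝ) (-Complex.I • schr V hV) t).continuousAt

theorem tgm_smul_apply (T : L2 d →L[ℂ] L2 d) (t : ℝ) (ψ : L2 d) (x : Site d) :
    ((t • (-Complex.I • T)) ψ : L2 d) x = (t : ℂ) * (-Complex.I * (T ψ : L2 d) x) := by
  have h1 : ((t • (-Complex.I • T)) ψ : L2 d) = ((t : ℂ) * -Complex.I) • (T ψ : L2 d) := by
    have h2 : t • (-Complex.I • T) = ((t : ℂ) * -Complex.I) • T := by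
      rw [mul_smul]; rfl
    rw [h2]; rfl
  rw [h1]
  have h3 : ∀ (c : ℂ) (φ : L2 d), (c • φ : L2 d) x = c * φ x := fun c φ => rfl
  rw [h3, mul_assoc]

/-- one step of the power recursion preserves coordinatewise measurability -/
theorem tgm_measurable_step {F : (Site d → ℝ) → Site d → ℂ} (h : ∀ x, Measurable fun ω => F ω x)
    (t : ℝ) (x : Site d) :
    Measurable fun ω : Site d → ℝ => (t : ℂ) * (-Complex.I * (- lap (F ω) x
      + (potc M lam ω x : ℂ) * F ω x)) := by
  have h1 : Measurable fun ω : Site d → ℝ => lap (F ω) x := by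
    unfold lap
    refine Finset.measurable_sum _ fun j _ => ?_
    exact ((h (x + Pi.single j 1)).sub (h x)).add ((h (x - Pi.single j 1)).sub (h x))
  have h2 : Measurable fun ω : Site d → ℝ => (potc M lam ω x : ℂ) := by
    refine Complex.measurable_ofReal.comp ?_
    exact (measurable_const.mul ((continuous_clip M).measurable.comp (measurable_pi_apply x)))
  exact Measurable.const_mul (Measurable.const_mul (h1.neg.add (h2.mul (h x))) _) _

theorem tgm_measurable_pow (hM : 0 ≤ M) (t : ℝ) (n : ℕ) : ∀ x : Site d,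
    Measurable fun ω : Site d → ℝ =>
      (((t • (-Complex.I • schr (potc M lam ω) (bdd_potc hM ω))) ^ n) (dl 0) : L2 d) x := by
  induction n with
  | zero =>
    intro x
    simp only [pow_zero, one_apply_eq_self]
    exact measurable_const
  | succ n ih =>
    intro x
    have h : (fun ω : Site d → ℝ =>
        (((t • (-Complex.I • schr (potc M lam ω) (bdd_potc hM ω))) ^ (n + 1)) (dl 0) : L2 d) x)
        = fun ω => (t : ℂ) * (-Complex.I * (- lap (fun y =>
            (((t • (-Complex.I • schr (potc M lam ω) (bdd_potc hM ω))) ^ n) (dl 0) : L2 d) y) x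
          + (potc M lam ω x : ℂ) *
            (((t • (-Complex.I • schr (potc M lam ω) (bdd_potc hM ω))) ^ n) (dl 0) : L2 d) x)) := by
      funext ω
      rw [pow_succ']
      change ((t • (-Complex.I • schr (potc M lam ω) (bdd_potc hM ω)))
        (((t • (-Complex.I • schr (potc M lam ω) (bdd_potc hM ω))) ^ n) (dl 0)) : L2 d) x = _
      rw [tgm_smul_apply, schr_apply]
    rw [h]
    exact tgm_measurable_step ih t x

theorem tgm_measurable_evo_left (hM : 0 ≤ M) (t : ℝ) (x : Site d) :
    Measurable fun ω : Site d → ℝ => (evo (potc M lam ω) (bdd_potc hM ω) t : L2 d) x := by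
  refine measurable_of_tendsto_metrizable (f := fun (n : ℕ) (ω : Site d → ℝ) =>
    ∑ i ∈ Finset.range n, ((i.factorial : ℂ)⁻¹) *
      (((t • (-Complex.I • schr (potc M lam ω) (bdd_potc hM ω))) ^ i) (dl 0) : L2 d) x) ?_ ?_
  · intro n
    exact Finset.measurable_sum _ fun i _ => (tgm_measurable_pow hM t i x).const_mul _
  · rw [tendsto_pi_nhds]
    intro ω
    have h1 := NormedSpace.exp_series_hasSum_exp' (𝕂 := ℂ)
      (t • (-Complex.I • schr (potc M lam ω) (bdd_potc hM ω)))
    have h2 := (h1.mapL (tgm_ev (dl (0 : Site d)) x)).tendsto_sum_nat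
    simp only [map_smul, tgm_ev_apply, smul_eq_mul] at h2
    exact h2

theorem measurable_evo (hM : 0 ≤ M) (x : Site d) :
    Measurable fun p : (Site d → ℝ) × ℝ =>
      (evo (potc M lam p.1) (bdd_potc hM p.1) p.2 : L2 d) x := by
  have h : Measurable (Function.uncurry fun (t : ℝ) (ω : Site d → ℝ) =>
      (evo (potc M lam ω) (bdd_potc hM ω) t : L2 d) x) :=
    measurable_uncurry_of_continuous_of_measurable
      (fun ω => tgm_continuous_evo (potc M lam ω) (bdd_potc hM ω) x)
      (fun t => tgm_measurable_evo_left hM t x)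
  exact h.comp measurable_swap

theorem measurable_gcE (hM : 0 ≤ M) {η : ℝ} (hη : 0 < η) (x : Site d) :
    Measurable fun p : (Site d → ℝ) × ℝ => gc M lam ((p.2 : ℂ) + (η : ℝ) * Complex.I) p.1 x 0 :=
  (Weak.measurable_gc_uncurry hM hη x 0).comp measurable_swap

end Pool.Agent.Helper3.TG
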