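import Pool.Agent.Helper3.TG.Plancherel
import Pool.Agent.Helper3.TG.Evo
import Pool.Agent.Helper3.TG.Meas

/-! Transport gap, module TGI: the time averaged moment is the integral over the energies of its
Green function density. -/

open scoped ENNReal NNReal InnerProductSpace
open MeasureTheory Set Filter Topology

noncomputable section

namespace Pool.Agent.Helper3.TG

open Pool.Agent.Helper3.Anderson Pool.Agent.Helper3.Crit

variable {d : ℕ} {μ : Measure ℝ} [IsProbabilityMeasure μ] {M lam : ℝ} {K : ℝ≥0}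

theorem mT_eq_bound (V : Site d → ℝ) (hV : Bdd V) (x : Site d) (t : ℝ) :
    ‖(evo V hV t : L2 d) x‖ ≤ ‖evo V hV 0‖ := by
  rw [← norm_of_deriv V hV (hasDerivAt_evo V hV) t]
  exact lp.norm_apply_le_norm (by norm_num) _ x

/-- the damped evolution on the half line -/
def dmp (M lam : ℝ) (hM : 0 ≤ M) (T : ℝ) (ω : Site d → ℝ) (x : Site d) : ℝ → ℂ :=
  indicator (Ioi (0 : ℝ)) fun t =>
    (Real.exp (-(t / T)) : ℂ) * (evo (potc M lam ω) (bdd_potc hM ω) t : L2 d) x

theorem measurable_evo_t (hM : 0 ≤ M) (ω : Site d → ℝ) (x : Site d) :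
    Measurable fun t : ℝ => (evo (potc M lam ω) (bdd_potc hM ω) t : L2 d) x :=
  (measurable_evo (lam := lam) hM x).comp (measurable_prodMk_left (x := ω))

theorem measurable_dmp (hM : 0 ≤ M) (T : ℝ) (ω : Site d → ℝ) (x : Site d) :
    Measurable (dmp M lam hM T ω x) := by
  refine Measurable.indicator ?_ measurableSet_Ioi
  refine Measurable.mul ?_ (measurable_evo_t hM ω x)
  fun_prop

theorem norm_dmp_le (hM : 0 ≤ M) (T : ℝ) (ω : Site d → ℝ) (x : Site d) (t : ℝ) :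
    ‖dmp M lam hM T ω x t‖ ≤ indicator (Ioi (0 : ℝ)) (fun t =>
      ‖evo (potc M lam ω) (bdd_potc hM ω) 0‖ * Real.exp (-(1 / T) * t)) t := by
  unfold dmp
  by_cases ht : t ∈ Ioi (0 : ℝ)
  · rw [indicator_of_mem ht, indicator_of_mem ht, norm_mul, Complex.norm_real, Real.norm_eq_abs,
      Real.abs_exp, mul_comm]
    have h1 : -(t / T) = -(1 / T) * t := by ring
    rw [h1]
    exact mul_le_mul_of_nonneg_right (mT_eq_bound _ _ x t) (Real.exp_pos _).le
  · rw [indicator_of_notMem ht, indicator_of_notMem ht, norm_zero]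

theorem integrable_dmp (hM : 0 ≤ M) {T : ℝ} (hT : 0 < T) (ω : Site d → ℝ) (x : Site d) :
    Integrable (dmp M lam hM T ω x) := by
  refine Integrable.mono' ?_ (measurable_dmp hM T ω x).aestronglyMeasurable
    (ae_of_all _ (norm_dmp_le hM T ω x))
  rw [integrable_indicator_iff measurableSet_Ioi]
  exact (exp_neg_integrableOn_Ioi 0 (by positivity)).const_mul _

theorem memLp_dmp (hM : 0 ≤ M) {T : ℝ} (hT : 0 < T) (ω : Site d → ℝ) (x : Site d) :
    MemLp (dmp M lam hM T ω x) 2 := by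
  have hm := (measurable_dmp (lam := lam) hM T ω x).aestronglyMeasurable (μ := volume)
  refine (memLp_two_iff_integrable_sq_norm hm).2 ?_
  refine Integrable.mono' ((integrable_dmp (lam := lam) hM hT ω x).norm.const_mul
    (‖evo (potc M lam ω) (bdd_potc hM ω) 0‖)) (hm.norm.pow 2) (ae_of_all _ fun t => ?_)
  rw [Real.norm_eq_abs, abs_of_nonneg (by positivity), sq]
  refine mul_le_mul_of_nonneg_right ?_ (norm_nonneg _)
  refine (norm_dmp_le hM T ω x t).trans ?_
  by_cases ht : t ∈ Ioi (0 : ℝ)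
  · rw [indicator_of_mem ht]
    refine mul_le_of_le_one_right (norm_nonneg _) (Real.exp_le_one_iff.2 ?_)
    have : 0 < t := ht
    have : 0 < 1 / T * t := by positivity
    linarith
  · rw [indicator_of_notMem ht]
    exact norm_nonneg _

theorem lint_dmp (hM : 0 ≤ M) (T : ℝ) (ω : Site d → ℝ) (x : Site d) :
    ∫⁻ t : ℝ, ‖dmp M lam hM T ω x t‖ₑ ^ 2
      = ∫⁻ t in Ioi (0 : ℝ), ENNReal.ofReal (Real.exp (-(2 * t / T))) *
          ‖(evo (potc M lam ω) (bdd_potc hM ω) t : L2 d) x‖ₑ ^ 2 := by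
  rw [← lintegral_indicator measurableSet_Ioi]
  refine lintegral_congr fun t => ?_
  unfold dmp
  by_cases ht : t ∈ Ioi (0 : ℝ)
  · rw [indicator_of_mem ht, indicator_of_mem ht, enorm_mul, mul_pow]
    congr 1
    rw [← ofReal_norm, Complex.norm_real, Real.norm_eq_abs, Real.abs_exp,
      ← ENNReal.ofReal_pow (Real.exp_pos _).le, ← Real.exp_nat_mul]
    congr 2
    push_cast
    ring
  · rw [indicator_of_notMem ht, indicator_of_notMem ht]
    simp

theorem four_dmp (hM : 0 ≤ M) {T : ℝ} (hT : 0 < T) (ω : Site d → ℝ) (x : Site d) (E : ℝ) :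
    ‖∫ t : ℝ, Complex.exp (Complex.I * E * t) * dmp M lam hM T ω x t‖ₑ
      = ‖gc M lam ((E : ℂ) + (T⁻¹ : ℝ) * Complex.I) ω x 0‖ₑ := by
  have hz : 0 < ((E : ℂ) + (T⁻¹ : ℝ) * Complex.I).im := by
    have : 0 < T⁻¹ := inv_pos.2 hT
    rw [Complex.add_im, Complex.ofReal_im, Complex.im_ofReal_mul, Complex.I_im]
    linarith
  have h1 := laplace_evo (potc M lam ω) (bdd_potc hM ω) hz x
  have h2 : ∫ t : ℝ, Complex.exp (Complex.I * E * t) * dmp M lam hM T ω x t
      = -Complex.I * green (potc M lam ω) ((E : ℂ) + (T⁻¹ : ℝ) * Complex.I) x 0 := by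
    rw [← h1, ← integral_indicator measurableSet_Ioi]
    refine integral_congr_ae (ae_of_all _ fun t => ?_)
    simp only [dmp]
    by_cases ht : t ∈ Ioi (0 : ℝ)
    · rw [indicator_of_mem ht, indicator_of_mem ht, ← mul_assoc, Complex.ofReal_exp,
        ← Complex.exp_add]
      congr 2
      push_cast
      have hI : Complex.I * Complex.I = -1 := Complex.I_mul_I
      have hTc : (T : ℂ) ≠ 0 := by exact_mod_cast hT.ne'
      have : Complex.I * ((E : ℂ) + (T : ℂ)⁻¹ * Complex.I) * t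
          = Complex.I * E * t + (T : ℂ)⁻¹ * t * (Complex.I * Complex.I) := by ring
      rw [this, hI]
      field_simp
    · rw [indicator_of_notMem ht, indicator_of_notMem ht, mul_zero]
  rw [h2, enorm_mul, enorm_neg]
  have : ‖Complex.I‖ₑ = 1 := by rw [← ofReal_norm, Complex.norm_I, ENNReal.ofReal_one]
  rw [this, one_mul]
  rfl

theorem evo_gc (hM : 0 ≤ M) {T : ℝ} (hT : 0 < T) (ω : Site d → ℝ) (x : Site d) :
    ∫⁻ t in Ioi (0 : ℝ), ENNReal.ofReal (Real.exp (-(2 * t / T))) *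
          ‖(evo (potc M lam ω) (bdd_potc hM ω) t : L2 d) x‖ₑ ^ 2
      = ENNReal.ofReal ((2 * Real.pi)⁻¹) *
        ∫⁻ E : ℝ, ‖gc M lam ((E : ℂ) + (T⁻¹ : ℝ) * Complex.I) ω x 0‖ₑ ^ 2 := by
  have h := plancherel (integrable_dmp (lam := lam) hM hT ω x) (memLp_dmp hM hT ω x)
  rw [lint_dmp] at h
  have h2 : ∫⁻ E : ℝ, ‖∫ t : ℝ, Complex.exp (Complex.I * E * t) * dmp M lam hM T ω x t‖ₑ ^ 2
      = ∫⁻ E : ℝ, ‖gc M lam ((E : ℂ) + (T⁻¹ : ℝ) * Complex.I) ω x 0‖ₑ ^ 2 :=
    lintegral_congr fun E => by rw [four_dmp hM hT]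
  rw [h2] at h
  rw [h, ← mul_assoc, ← ENNReal.ofReal_mul (by positivity), inv_mul_cancel₀ (by positivity),
    ENNReal.ofReal_one, one_mul]

theorem meas_gcE (hM : 0 ≤ M) {T : ℝ} (hT : 0 < T) (x : Site d) :
    Measurable fun p : (Site d → ℝ) × ℝ =>
      ‖gc M lam ((p.2 : ℂ) + (T⁻¹ : ℝ) * Complex.I) p.1 x 0‖ₑ ^ 2 :=
  (measurable_gcE (lam := lam) hM (inv_pos.2 hT) x).enorm.pow_const 2

theorem mT_eq (hM : 0 ≤ M) {p T : ℝ} (hT : 0 < T) :
    mT d μ M lam hM p T = ∫⁻ E : ℝ, mE d μ M lam p T E := by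
  unfold mT mE
  have hω : ∀ ω : Site d → ℝ, (ENNReal.ofReal (2 / T) * ∫⁻ t in Ioi (0 : ℝ),
      ENNReal.ofReal (Real.exp (-(2 * t / T))) * ∑' x : Site d, ENNReal.ofReal ((sn x : ℝ) ^ p) *
      ‖(evo (potc M lam ω) (bdd_potc hM ω) t : L2 d) x‖ₑ ^ 2)
      = ∑' x : Site d, ENNReal.ofReal ((sn x : ℝ) ^ p / (Real.pi * T)) *
        ∫⁻ E : ℝ, ‖gc M lam ((E : ℂ) + (T⁻¹ : ℝ) * Complex.I) ω x 0‖ₑ ^ 2 := by
    intro ω
    have hm : ∀ x : Site d, Measurable fun t : ℝ => ENNReal.ofReal (Real.exp (-(2 * t / T))) *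
          ‖(evo (potc M lam ω) (bdd_potc hM ω) t : L2 d) x‖ₑ ^ 2 := by
      intro x
      refine Measurable.mul ?_ ((measurable_evo_t hM ω x).enorm.pow_const 2)
      fun_prop
    have h1 : ∫⁻ t in Ioi (0 : ℝ), ENNReal.ofReal (Real.exp (-(2 * t / T))) *
        ∑' x : Site d, ENNReal.ofReal ((sn x : ℝ) ^ p) *
        ‖(evo (potc M lam ω) (bdd_potc hM ω) t : L2 d) x‖ₑ ^ 2
        = ∫⁻ t in Ioi (0 : ℝ), ∑' x : Site d, ENNReal.ofReal ((sn x : ℝ) ^ p) *
          (ENNReal.ofReal (Real.exp (-(2 * t / T))) *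
          ‖(evo (potc M lam ω) (bdd_potc hM ω) t : L2 d) x‖ₑ ^ 2) := by
      refine lintegral_congr fun t => ?_
      rw [← ENNReal.tsum_mul_left]
      refine tsum_congr fun x => ?_
      ring
    rw [h1, lintegral_tsum (fun x => ((hm x).const_mul _).aemeasurable), ← ENNReal.tsum_mul_left]
    refine tsum_congr fun x => ?_
    rw [lintegral_const_mul _ (hm x), evo_gc hM hT, ← mul_assoc, ← mul_assoc,
      ← ENNReal.ofReal_mul (by positivity), ← ENNReal.ofReal_mul (by positivity)]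
    congr 2
    have hpi : Real.pi ≠ 0 := Real.pi_ne_zero
    field_simp
  rw [lintegral_congr hω]
  have hmE : ∀ x : Site d, Measurable fun ω : Site d → ℝ =>
      ∫⁻ E : ℝ, ‖gc M lam ((E : ℂ) + (T⁻¹ : ℝ) * Complex.I) ω x 0‖ₑ ^ 2 := fun x =>
    (meas_gcE (lam := lam) hM hT x).lintegral_prod_right'
  have hmω : ∀ x : Site d, Measurable fun E : ℝ =>
      ∫⁻ ω, ‖gc M lam ((E : ℂ) + (T⁻¹ : ℝ) * Complex.I) ω x 0‖ₑ ^ 2 ∂(PP d μ) := fun x =>
    (meas_gcE (lam := lam) hM hT x).lintegral_prod_left'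
  rw [lintegral_tsum (fun x => ((hmE x).const_mul _).aemeasurable),
    lintegral_tsum (fun x => ((hmω x).const_mul _).aemeasurable)]
  refine tsum_congr fun x => ?_
  rw [lintegral_const_mul _ (hmE x), lintegral_const_mul _ (hmω x)]
  congr 1
  exact lintegral_lintegral_swap (meas_gcE (lam := lam) hM hT x).aemeasurable

end Pool.Agent.Helper3.TG
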