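import Pool.Agent.Helper3.TG.Ident

/-! Time averages of the evolution with general weights and their energy density. -/

open scoped ENNReal NNReal InnerProductSpace
open MeasureTheory Set Filter Topology

noncomputable section

namespace Pool.Agent.Helper3.TG

open Pool.Agent.Helper3.Anderson Pool.Agent.Helper3.Crit

variable {d : ℕ} {μ : Measure ℝ} [IsProbabilityMeasure μ] {M lam : ℝ} {K : ℝ≥0}

/-- the energy density of the time average with weight `w` at time `T` and energy `E` -/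
def wE (d : ℕ) (μ : Measure ℝ) [IsProbabilityMeasure μ] (M lam : ℝ) (w : Site d → ℝ) (T E : ℝ) :
    ℝ≥0∞ :=
  ∑' x : Site d, ENNReal.ofReal (w x / (Real.pi * T)) *
    ∫⁻ ω, ‖gc M lam ((E : ℂ) + (T⁻¹ : ℝ) * Complex.I) ω x 0‖ₑ ^ 2 ∂(PP d μ)

/-- the time average with weight `w` at time `T` of the evolution of `δ_0` -/
def wT (d : ℕ) (μ : Measure ℝ) [IsProbabilityMeasure μ] (M lam : ℝ) (hM : 0 ≤ M)
    (w : Site d → ℝ) (T : ℝ) : ℝ≥0∞ :=
  ∫⁻ ω, (ENNReal.ofReal (2 / T) * ∫⁻ t in Ioi (0 : ℝ), ENNReal.ofReal (Real.exp (-(2 * t / T))) *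
    ∑' x : Site d, ENNReal.ofReal (w x) *
      ‖(evo (potc M lam ω) (bdd_potc hM ω) t : L2 d) x‖ₑ ^ 2) ∂(PP d μ)

theorem wT_eq (hM : 0 ≤ M) {w : Site d → ℝ} {T : ℝ} (hT : 0 < T) :
    wT d μ M lam hM w T = ∫⁻ E : ℝ, wE d μ M lam w T E := by
  unfold wT wE
  have hω : ∀ ω : Site d → ℝ, (ENNReal.ofReal (2 / T) * ∫⁻ t in Ioi (0 : ℝ),
      ENNReal.ofReal (Real.exp (-(2 * t / T))) * ∑' x : Site d, ENNReal.ofReal (w x) *
      ‖(evo (potc M lam ω) (bdd_potc hM ω) t : L2 d) x‖ₑ ^ 2)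
      = ∑' x : Site d, ENNReal.ofReal (w x / (Real.pi * T)) *
        ∫⁻ E : ℝ, ‖gc M lam ((E : ℂ) + (T⁻¹ : ℝ) * Complex.I) ω x 0‖ₑ ^ 2 := by
    intro ω
    have hm : ∀ x : Site d, Measurable fun t : ℝ => ENNReal.ofReal (Real.exp (-(2 * t / T))) *
          ‖(evo (potc M lam ω) (bdd_potc hM ω) t : L2 d) x‖ₑ ^ 2 := by
      intro x
      refine Measurable.mul ?_ ((measurable_evo_t hM ω x).enorm.pow_const 2)
      fun_prop
    have h1 : ∫⁻ t in Ioi (0 : ℝ), ENNReal.ofReal (Real.exp (-(2 * t / T))) *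
        ∑' x : Site d, ENNReal.ofReal (w x) *
        ‖(evo (potc M lam ω) (bdd_potc hM ω) t : L2 d) x‖ₑ ^ 2
        = ∫⁻ t in Ioi (0 : ℝ), ∑' x : Site d, ENNReal.ofReal (w x) *
          (ENNReal.ofReal (Real.exp (-(2 * t / T))) *
          ‖(evo (potc M lam ω) (bdd_potc hM ω) t : L2 d) x‖ₑ ^ 2) := by
      refine lintegral_congr fun t => ?_
      rw [← ENNReal.tsum_mul_left]
      refine tsum_congr fun x => ?_
      ring
    rw [h1, lintegral_tsum (fun x => ((hm x).const_mul _).aemeasurable), ← ENNReal.tsum_mul_left]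
    refine tsum_congr fun x => ?_
    rw [lintegral_const_mul _ (hm x), evo_gc hM hT, ← mul_assoc, ← mul_assoc,
      ← ENNReal.ofReal_mul (by positivity), ← ENNReal.ofReal_mul' (by positivity)]
    congr 2
    have hpi : Real.pi ≠ 0 := Real.pi_ne_zero
    field_simp
  rw [lintegral_congr hω]
  have hmE : ∀ x : Site d, Measurable fun ω : Site d → ℝ =>
      ∫⁻ E : ℝ, ‖gc M lam ((E : ℂ) + (T⁻¹ : ℝ) * Complex.I) ω x 0‖ₑ ^ 2 := fun x =>
    (meas_gcE (lam := lam) hM hT x).lintegral_prod_right'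
  have hmω : ∀ x : Site d, Measurable fun E : ℝ =>
      ∫⁻ ω, ‖gc M lam ((E : ℂ) + (T⁻¹ : ℝ) * Complex.I) ω x 0‖ₑ ^ 2 ∂(PP d μ) := fun x =>
    (meas_gcE (lam := lam) hM hT x).lintegral_prod_left'
  rw [lintegral_tsum (fun x => ((hmE x).const_mul _).aemeasurable),
    lintegral_tsum (fun x => ((hmω x).const_mul _).aemeasurable)]
  refine tsum_congr fun x => ?_
  rw [lintegral_const_mul _ (hmE x), lintegral_const_mul _ (hmω x)]
  congr 1
  exact lintegral_lintegral_swap (meas_gcE (lam := lam) hM hT x).aemeasurable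

/-- the indicator function of the complement of the ball of radius `r` -/
def out (r : ℝ) (x : Site d) : ℝ := if r < sn x then 1 else 0

theorem wE_out (r : ℝ) {T E : ℝ} (hT : 0 < T) :
    wE d μ M lam (out r) T E = ENNReal.ofReal (1 / (Real.pi * T)) *
      ∑' x : Site d, (if r < sn x then
        ∫⁻ ω, ‖gc M lam ((E : ℂ) + (T⁻¹ : ℝ) * Complex.I) ω x 0‖ₑ ^ 2 ∂(PP d μ) else 0) := by
  unfold wE
  rw [← ENNReal.tsum_mul_left]
  refine tsum_congr fun x => ?_
  unfold out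
  split_ifs with h
  · rfl
  · rw [zero_div, ENNReal.ofReal_zero, zero_mul, mul_zero]

/-- the weight `|x| ^ p` dominates `r ^ p` times the indicator function -/
theorem wE_moment_ge {r p T E : ℝ} (hr : 0 ≤ r) (hp : 0 ≤ p) (hT : 0 < T) :
    ENNReal.ofReal (r ^ p) * wE d μ M lam (out r) T E
      ≤ wE d μ M lam (fun x => (sn x : ℝ) ^ p) T E := by
  unfold wE
  rw [← ENNReal.tsum_mul_left]
  refine ENNReal.tsum_le_tsum fun x => ?_
  rw [← mul_assoc, ← ENNReal.ofReal_mul (by positivity)]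
  refine mul_le_mul_left (ENNReal.ofReal_le_ofReal ?_) _
  unfold out
  split_ifs with h
  · rw [mul_one_div]
    exact div_le_div_of_nonneg_right (Real.rpow_le_rpow hr h.le hp) (by positivity)
  · rw [zero_div, mul_zero]
    positivity

end Pool.Agent.Helper3.TG
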