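import Pool.Agent.Helper3.TG.Core
import Pool.Agent.Helper3.TG.Ident

/-! Lower bounds for the moments off the set of fractional moment localisation. -/

open scoped ENNReal NNReal InnerProductSpace
open MeasureTheory Set Filter Topology

noncomputable section

namespace Pool.Agent.Helper3.TG

open Pool.Agent.Helper3.Anderson Pool.Agent.Helper3.Crit

variable {d : ℕ} {μ : Measure ℝ} [IsProbabilityMeasure μ] {M lam : ℝ} {K : ℝ≥0}

/-- off the set of fractional moment localisation the energy density of the moments grows -/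
theorem mE_lower (d : ℕ) (hd : 0 < d) (hμ : GoodLaw μ M K) (hlam : 0 < lam) {α : ℝ}
    (hα0 : 0 ≤ α) (hα : α < 1 / d) :
    ∃ T0 : ℝ, 1 ≤ T0 ∧ ∀ p : ℝ, 5000 / (1 / d - α) ≤ p → ∀ T E : ℝ, T0 ≤ T →
      (∃ E0, E0 ∉ FMS d μ M lam ∧ |E - E0| < T⁻¹) →
      ENNReal.ofReal (T ^ (α * p)) ≤ mE d μ M lam p T E := by
  set δ : ℝ := 1 / d - α with hδ
  have hδ0 : 0 < δ := by rw [hδ]; linarith
  obtain ⟨T0, hT01, hT0⟩ := mE_dich d hd hμ hlam (α := α) (β := α + 4 / 5 * δ) hα0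
    (by linarith) (by rw [hδ] at *; linarith)
  refine ⟨T0, hT01, fun p hp T E hT hE0 => ?_⟩
  obtain ⟨E0, hE0, hEE⟩ := hE0
  have hTp : 0 < T := by linarith
  have hTi : 0 < T⁻¹ := inv_pos.2 hTp
  have hp' : 4000 / (α + 4 / 5 * δ - α) ≤ p := by
    rw [div_le_iff₀ hδ0] at hp
    rw [div_le_iff₀ (by linarith)]
    linarith
  rcases hT0 p hp' T E hT with h | h
  · exact h
  · exfalso
    refine hE0 ⟨T⁻¹ - |E - E0|, by linarith, fqC M lam K, fqC_pos M lam K,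
      (T ^ (α + 4 / 5 * δ))⁻¹, by positivity, fun z hz hzr x y => ?_⟩
    have hzz : ‖z - ((E : ℂ) + (T⁻¹ : ℝ) * Complex.I)‖ ≤ 2 * T⁻¹ := by
      have e1 : z - ((E : ℂ) + (T⁻¹ : ℝ) * Complex.I)
          = (z - E0) + (((E0 - E : ℝ) : ℂ) - (T⁻¹ : ℝ) * Complex.I) := by
        push_cast; ring
      have e2 : ‖((E0 - E : ℝ) : ℂ)‖ = |E - E0| := by
        rw [Complex.norm_real, Real.norm_eq_abs, abs_sub_comm]
      have e3 : ‖((T⁻¹ : ℝ) : ℂ) * Complex.I‖ = T⁻¹ := by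
        rw [norm_mul, Complex.norm_I, mul_one, Complex.norm_real, Real.norm_eq_abs,
          abs_of_pos hTi]
      calc ‖z - ((E : ℂ) + (T⁻¹ : ℝ) * Complex.I)‖
          ≤ ‖z - E0‖ + (‖((E0 - E : ℝ) : ℂ)‖ + ‖((T⁻¹ : ℝ) : ℂ) * Complex.I‖) := by
            rw [e1]; exact (norm_add_le _ _).trans (add_le_add le_rfl (norm_sub_le _ _))
        _ ≤ 2 * T⁻¹ := by rw [e2, e3]; linarith
    refine (h z hz hzz x y).trans (le_of_eq ?_)
    congr 4
    rw [div_eq_inv_mul]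

/-- the moments grow if fractional moment localisation fails somewhere -/
theorem mT_lower (d : ℕ) (hd : 0 < d) (hμ : GoodLaw μ M K) (hlam : 0 < lam) {α : ℝ}
    (hα0 : 0 ≤ α) (hα : α < 1 / d) (hF : FMS d μ M lam ≠ univ) :
    ∃ T0 : ℝ, 1 ≤ T0 ∧ ∀ p : ℝ, 6000 / (1 / d - α) ≤ p → ∀ T : ℝ, T0 ≤ T →
      ENNReal.ofReal (T ^ (α * p)) ≤ mT d μ M lam (zero_le_one.trans hμ.one_le) p T := by
  obtain ⟨E0, hE0⟩ := (ne_univ_iff_exists_notMem _).1 hF
  set δ : ℝ := 1 / d - α with hδ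
  have hδ0 : 0 < δ := by rw [hδ]; linarith
  obtain ⟨T0, hT01, hT0⟩ := mE_lower d hd hμ hlam (α := α + δ / 10) (by linarith)
    (by rw [hδ] at *; linarith)
  refine ⟨T0, hT01, fun p hp T hT => ?_⟩
  have hTp : 0 < T := by linarith
  have hp0 : 6000 ≤ δ * p := by
    rw [div_le_iff₀ hδ0] at hp
    linarith
  have hp' : 5000 / (1 / (d : ℝ) - (α + δ / 10)) ≤ p := by
    have : 1 / (d : ℝ) - (α + δ / 10) = 9 / 10 * δ := by rw [hδ]; ring
    rw [this, div_le_iff₀ (by positivity)]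
    linarith
  rw [mT_eq _ hTp]
  calc ENNReal.ofReal (T ^ (α * p)) ≤ ENNReal.ofReal (T ^ ((α + δ / 10) * p)) *
        volume (Ioo (E0 - T⁻¹) (E0 + T⁻¹)) := by
        rw [Real.volume_Ioo, ← ENNReal.ofReal_mul (by positivity)]
        apply ENNReal.ofReal_le_ofReal
        have e1 : T ^ ((α + δ / 10) * p) * (E0 + T⁻¹ - (E0 - T⁻¹))
            = 2 * T ^ ((α + δ / 10) * p + (-1 : ℝ)) := by
          rw [Real.rpow_add hTp, Real.rpow_neg_one]; ring
        rw [e1]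
        have e2 : T ^ (α * p) ≤ T ^ ((α + δ / 10) * p + (-1 : ℝ)) :=
          Real.rpow_le_rpow_of_exponent_le (by linarith) (by linarith)
        have e3 : 0 ≤ T ^ ((α + δ / 10) * p + (-1 : ℝ)) := by positivity
        linarith
    _ = ∫⁻ E in Ioo (E0 - T⁻¹) (E0 + T⁻¹), ENNReal.ofReal (T ^ ((α + δ / 10) * p)) := by
        rw [setLIntegral_const]
    _ ≤ ∫⁻ E in Ioo (E0 - T⁻¹) (E0 + T⁻¹), mE d μ M lam p T E := by
        refine setLIntegral_mono' measurableSet_Ioo fun E hE => ?_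
        exact hT0 p hp' T E hT ⟨E0, hE0, by rw [abs_lt]; constructor <;> linarith [hE.1, hE.2]⟩
    _ ≤ ∫⁻ E : ℝ, mE d μ M lam p T E := setLIntegral_le_lintegral _ _

end Pool.Agent.Helper3.TG
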