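import Pool.Agent.Helper3.TG.Core2
import Pool.Agent.Helper3.TG.Ident2

/-! The mass far away: dichotomy and lower bounds off the set of localisation. -/

open scoped ENNReal NNReal InnerProductSpace
open MeasureTheory Set Filter Topology

noncomputable section

namespace Pool.Agent.Helper3.TG

open Pool.Agent.Helper3.Anderson Pool.Agent.Helper3.Crit

variable {d : ℕ} {μ : Measure ℝ} [IsProbabilityMeasure μ] {M lam : ℝ} {K : ℝ≥0}

theorem out_of_tail {r T E : ℝ} (hT : 16 ≤ T)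
    (h : ¬ tailG d μ M lam r T E ≤ ENNReal.ofReal (T ^ (-(9 / 2) : ℝ))) :
    ENNReal.ofReal (T ^ (-6 : ℝ)) ≤ wE d μ M lam (out r) T E := by
  have hT0 : 0 < T := by linarith
  push Not at h
  rw [wE_out r hT0]
  calc ENNReal.ofReal (T ^ (-6 : ℝ))
      ≤ ENNReal.ofReal (1 / (Real.pi * T)) * ENNReal.ofReal (T ^ (-(9 / 2) : ℝ)) := by
        rw [← ENNReal.ofReal_mul (by positivity)]
        apply ENNReal.ofReal_le_ofReal
        rw [div_mul_eq_mul_div, one_mul, le_div_iff₀ (by positivity)]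
        have h1 : Real.pi ≤ T ^ (1 / 2 : ℝ) := by
          have h2 : (4 : ℝ) ≤ T ^ (1 / 2 : ℝ) := by
            rw [← Real.sqrt_eq_rpow]
            apply Real.le_sqrt_of_sq_le
            linarith
          exact Real.pi_le_four.trans h2
        calc T ^ (-6 : ℝ) * (Real.pi * T) ≤ T ^ (-6 : ℝ) * (T ^ (1 / 2 : ℝ) * T ^ (1 : ℝ)) := by
              rw [Real.rpow_one]
              gcongr
          _ = T ^ (-(9 / 2) : ℝ) := by
              rw [← Real.rpow_add hT0, ← Real.rpow_add hT0]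
              norm_num
    _ ≤ _ := by
        gcongr
        exact h.le

/-- At every energy and every large time `T`: either the mass outside the ball of radius `T ^ α`
is at least `T ^ (-6)` or the fractional moments decay near this energy with length at most
`T ^ β`. -/
theorem out_dich (d : ℕ) (hd : 0 < d) (hμ : GoodLaw μ M K) (hlam : 0 < lam) {α β : ℝ}
    (hα : 0 < α) (hαβ : α < β) (hαd : α < 1 / d) :
    ∃ T0 : ℝ, 1 ≤ T0 ∧ ∀ T E : ℝ, T0 ≤ T →
      ENNReal.ofReal (T ^ (-6 : ℝ)) ≤ wE d μ M lam (out (T ^ α)) T E ∨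
      ∀ z : ℂ, 0 < z.im → ‖z - ((E : ℂ) + (T⁻¹ : ℝ) * Complex.I)‖ ≤ 2 * T⁻¹ → ∀ x y : Site d,
        ∫⁻ ω, ‖gc M lam z ω x y‖ₑ ^ (1 / 8 : ℝ) ∂(PP d μ)
          ≤ ENNReal.ofReal (fqC M lam K * Real.exp (-(sn (x - y) / T ^ β))) := by
  obtain ⟨T0, hT01, hT0⟩ := fm_of_tail d hd hμ hlam hα hαβ hαd
  refine ⟨max T0 16, le_max_of_le_left hT01, fun T E hT => ?_⟩
  by_cases h : tailG d μ M lam (T ^ α) T E ≤ ENNReal.ofReal (T ^ (-(9 / 2) : ℝ))
  · exact Or.inr (hT0 T E ((le_max_left _ _).trans hT) h)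
  · exact Or.inl (out_of_tail ((le_max_right _ _).trans hT) h)

/-- the same with a wider window, for laws of finite Fisher information -/
theorem out_dich_wide (d : ℕ) (hd : 0 < d) (hμ : GoodLaw μ M K) (hlam : 0 < lam) {f : ℝ → ℝ}
    {κ : ℝ} (hf : Fisher μ f κ) (hκ : 0 ≤ κ) {α β : ℝ}
    (hα : 0 < α) (hαβ : α < β) (hαd : α < 1 / d) :
    ∃ T0 : ℝ, 1 ≤ T0 ∧ ∀ T E : ℝ, T0 ≤ T →
      ENNReal.ofReal (T ^ (-6 : ℝ)) ≤ wE d μ M lam (out (T ^ α)) T E ∨
      ∀ z : ℂ, 0 < z.im → z.im ≤ T⁻¹ → |z.re - E| ≤ T ^ (-(d * β / 2)) → ∀ x y : Site d,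
        ∫⁻ ω, ‖gc M lam z ω x y‖ₑ ^ (1 / 8 : ℝ) ∂(PP d μ)
          ≤ ENNReal.ofReal (fqC M lam K * Real.exp (-(sn (x - y) / T ^ β))) := by
  obtain ⟨T0, hT01, hT0⟩ := fm_of_tail_wide d hd hμ hlam hf hκ hα hαβ hαd
  refine ⟨max T0 16, le_max_of_le_left hT01, fun T E hT => ?_⟩
  by_cases h : tailG d μ M lam (T ^ α) T E ≤ ENNReal.ofReal (T ^ (-(9 / 2) : ℝ))
  · exact Or.inr (hT0 T E ((le_max_left _ _).trans hT) h)
  · exact Or.inl (out_of_tail ((le_max_right _ _).trans hT) h)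

/-- near an energy off the set of fractional moment localisation there is mass far away -/
theorem out_lower (d : ℕ) (hd : 0 < d) (hμ : GoodLaw μ M K) (hlam : 0 < lam) {α : ℝ}
    (hα0 : 0 < α) (hα : α < 1 / d) :
    ∃ T0 : ℝ, 1 ≤ T0 ∧ ∀ T E : ℝ, T0 ≤ T →
      (∃ E0, E0 ∉ FMS d μ M lam ∧ |E - E0| < T⁻¹) →
      ENNReal.ofReal (T ^ (-6 : ℝ)) ≤ wE d μ M lam (out (T ^ α)) T E := by
  obtain ⟨T0, hT01, hT0⟩ := out_dich d hd hμ hlam (α := α) (β := α + 1) hα0 (by linarith) hα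
  refine ⟨T0, hT01, fun T E hT hE0 => ?_⟩
  obtain ⟨E0, hE0, hEE⟩ := hE0
  have hTp : 0 < T := by linarith
  have hTi : 0 < T⁻¹ := inv_pos.2 hTp
  rcases hT0 T E hT with h | h
  · exact h
  · exfalso
    refine hE0 ⟨T⁻¹ - |E - E0|, by linarith, fqC M lam K, fqC_pos M lam K,
      (T ^ (α + 1))⁻¹, by positivity, fun z hz hzr x y => ?_⟩
    have hzz : ‖z - ((E : ℂ) + (T⁻¹ : ℝ) * Complex.I)‖ ≤ 2 * T⁻¹ := by
      have e1 : z - ((E : ℂ) + (T⁻¹ : ℝ) * Complex.I)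
          = (z - E0) + (((E0 - E : ℝ) : ℂ) - (T⁻¹ : ℝ) * Complex.I) := by
        push_cast; ring
      have e2 : ‖((E0 - E : ℝ) : ℂ)‖ = |E - E0| := by
        rw [Complex.norm_real, Real.norm_eq_abs, abs_sub_comm]
      have e3 : ‖((T⁻¹ : ℝ) : ℂ) * Complex.I‖ = T⁻¹ := by
        rw [norm_mul, Complex.norm_I, mul_one, Complex.norm_real, Real.norm_eq_abs,
          abs_of_pos hTi]
      calc ‖z - ((E : ℂ) + (T⁻¹ : ℝ) * Complex.I)‖
          ≤ ‖z - E0‖ + (‖((E0 - E : ℝ) : ℂ)‖ + ‖((T⁻¹ : ℝ) : ℂ) * Complex.I‖) := by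
            rw [e1]; exact (norm_add_le _ _).trans (add_le_add le_rfl (norm_sub_le _ _))
        _ ≤ 2 * T⁻¹ := by rw [e2, e3]; linarith
    refine (h z hz hzz x y).trans (le_of_eq ?_)
    congr 4
    rw [div_eq_inv_mul]

/-- the moments grow if fractional moment localisation fails somewhere -/
theorem wT_lower (d : ℕ) (hd : 0 < d) (hμ : GoodLaw μ M K) (hlam : 0 < lam) {α : ℝ}
    (hα : α < 1 / d) (hF : FMS d μ M lam ≠ univ) :
    ∃ T0 : ℝ, 1 ≤ T0 ∧ ∀ p : ℝ, 0 ≤ p → ∀ T : ℝ, T0 ≤ T →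
      ENNReal.ofReal (T ^ (α * p - 7)) ≤ wT d μ M lam (zero_le_one.trans hμ.one_le)
        (fun x => (sn x : ℝ) ^ p) T := by
  have hdR : (0 : ℝ) < d := by exact_mod_cast hd
  obtain ⟨E0, hE0⟩ := (ne_univ_iff_exists_notMem _).1 hF
  obtain ⟨α', h1, h2⟩ := exists_between (max_lt hα (show (0 : ℝ) < 1 / d by positivity))
  have hα' : 0 < α' := (le_max_right _ _).trans_lt h1
  have hαα : α ≤ α' := (le_max_left _ _).trans h1.le
  obtain ⟨T0, hT01, hT0⟩ := out_lower d hd hμ hlam (α := α') hα' h2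
  refine ⟨T0, hT01, fun p hp T hT => ?_⟩
  have hT1 : 1 ≤ T := hT01.trans hT
  have hTp : 0 < T := by linarith
  rw [wT_eq _ hTp]
  calc ENNReal.ofReal (T ^ (α * p - 7)) ≤ ENNReal.ofReal (T ^ (α' * p - 6)) *
        volume (Ioo (E0 - T⁻¹) (E0 + T⁻¹)) := by
        rw [Real.volume_Ioo, ← ENNReal.ofReal_mul (by positivity)]
        apply ENNReal.ofReal_le_ofReal
        have e1 : T ^ (α' * p - 6) * (E0 + T⁻¹ - (E0 - T⁻¹))
            = 2 * T ^ (α' * p - 7) := by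
          have : α' * p - 7 = (α' * p - 6) + (-1 : ℝ) := by ring
          rw [this, Real.rpow_add hTp, Real.rpow_neg_one]; ring
        rw [e1]
        have e2 : T ^ (α * p - 7) ≤ T ^ (α' * p - 7) :=
          Real.rpow_le_rpow_of_exponent_le hT1 (by nlinarith)
        have e3 : 0 ≤ T ^ (α' * p - 7) := by positivity
        linarith
    _ = ∫⁻ E in Ioo (E0 - T⁻¹) (E0 + T⁻¹), ENNReal.ofReal (T ^ (α' * p - 6)) := by
        rw [setLIntegral_const]
    _ ≤ ∫⁻ E in Ioo (E0 - T⁻¹) (E0 + T⁻¹), wE d μ M lam (fun x => (sn x : ℝ) ^ p) T E := by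
        refine setLIntegral_mono' measurableSet_Ioo fun E hE => ?_
        refine le_trans ?_ (wE_moment_ge (r := T ^ α') (by positivity) hp hTp)
        have h3 := hT0 T E hT ⟨E0, hE0, by rw [abs_lt]; constructor <;> linarith [hE.1, hE.2]⟩
        refine le_trans ?_ (mul_le_mul_right h3 _)
        rw [← ENNReal.ofReal_mul (by positivity), ← Real.rpow_mul hTp.le, ← Real.rpow_add hTp]
        exact le_of_eq rfl
    _ ≤ ∫⁻ E : ℝ, wE d μ M lam (fun x => (sn x : ℝ) ^ p) T E := setLIntegral_le_lintegral _ _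

end Pool.Agent.Helper3.TG
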