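import Pool.Agent.Helper3.Crit.SpecAvg
import Pool.Agent.Helper3.Anderson.FinalA
import Pool.Agent.Helper3.Crit.BoxMeas

/-! TGU: second moment of the Green function against a fractional moment. -/

open scoped ENNReal NNReal InnerProductSpace
open MeasureTheory Set Filter Topology

noncomputable section

namespace Pool.Agent.Helper3.TG

open Pool.Agent.Helper3.Anderson Pool.Agent.Helper3.Crit

variable {d : ℕ} {μ : Measure ℝ} [IsProbabilityMeasure μ] {M lam : ℝ} {K : ℝ≥0}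

/-- consequences of the Ward identity for one column of the Green function -/
lemma tgu_ward (hM : 0 ≤ M) {z : ℂ} (hz0 : 0 < z.im) (ω : Site d → ℝ) (x y : Site d) :
    z.im * ‖gc M lam z ω x y‖ ^ 2 ≤ (gc M lam z ω y y).im := by
  have h1 := ward (potc M lam ω) (bdd_potc hM ω) hz0 y
  have h2 : ‖gc M lam z ω x y‖ ≤ ‖res (potc M lam ω) (bdd_potc hM ω) z (dl y)‖ := by
    rw [gc, green_eq (potc M lam ω) (bdd_potc hM ω)]
    exact lp.norm_apply_le_norm (by norm_num) _ x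
  have h3 : (gc M lam z ω y y).im = (green (potc M lam ω) z y y).im := rfl
  rw [h3, ← h1]
  have : ‖gc M lam z ω x y‖ ^ 2 ≤ ‖res (potc M lam ω) (bdd_potc hM ω) z (dl y)‖ ^ 2 :=
    pow_le_pow_left₀ (norm_nonneg _) h2 2
  exact mul_le_mul_of_nonneg_left this hz0.le

lemma tgu_min {r : ℝ} (hr : 0 ≤ r) : min 1 (r ^ 2) ≤ r ^ (1 / 8 : ℝ) := by
  rcases le_total 1 r with h | h
  · exact (min_le_left _ _).trans (Real.one_le_rpow h (by norm_num))
  · refine (min_le_right _ _).trans ?_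
    rw [← Real.rpow_natCast r 2]
    rcases hr.eq_or_lt with h0 | h0
    · rw [← h0, Real.zero_rpow (by norm_num), Real.zero_rpow (by norm_num)]
    · exact Real.rpow_le_rpow_of_exponent_ge h0 h (by norm_num)

/-- pointwise facts: `r = |h|/|g|`, `s = 1/|g|` -/
lemma tgu_point (hM : 0 ≤ M) (hlam : 0 < lam) {z : ℂ} (hz0 : 0 < z.im) (ω : Site d → ℝ)
    (x : Site d) : ∃ r s : ℝ, 0 ≤ r ∧ 0 < s ∧ ∀ t : ℝ, |t| ≤ M →
      (z.im * ‖gc M lam z (Function.update ω 0 t) x 0‖ ^ 2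
        ≤ r ^ (1 / 8 : ℝ) * (gc M lam z (Function.update ω 0 t) 0 0).im) ∧
      r / (M * lam + s) ≤ ‖gc M lam z (Function.update ω 0 t) x 0‖ ∧
      (2 * (M * lam) + 1 < s → z.im * ‖gc M lam z (Function.update ω 0 t) x 0‖ ^ 2
        ≤ 4 * (r ^ (1 / 8 : ℝ) / s)) := by
  set g := gc M lam z (Function.update ω 0 0) 0 0 with hg
  set h := gc M lam z (Function.update ω 0 0) x 0 with hh
  have hgi : 0 < g.im := sa_im_pos hM hz0 _ 0
  have hg0 : g ≠ 0 := by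
    intro e; rw [e] at hgi; simp at hgi
  have hgn : 0 < ‖g‖ := norm_pos_iff.2 hg0
  have hr0 : 0 ≤ ‖h‖ / ‖g‖ := by positivity
  refine ⟨‖h‖ / ‖g‖, 1 / ‖g‖, hr0, by positivity, fun t ht => ?_⟩
  have u1 := (gc_update (lam := lam) hM hz0 ω 0 ht).1 x
  have u2 := (gc_update (lam := lam) hM hz0 ω 0 ht).1 0
  rw [← hg] at u1 u2
  rw [← hh] at u1
  have hne : 1 + (t : ℂ) * (lam * g) ≠ 0 := one_add_ne_zero hM hz0 ω 0 ht
  set D : ℂ := 1 + (t : ℂ) * (lam * g) with hD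
  have hDn : 0 < ‖D‖ := norm_pos_iff.2 hne
  set Gx := gc M lam z (Function.update ω 0 t) x 0 with hGx
  set Gg := gc M lam z (Function.update ω 0 t) 0 0 with hGg
  have n1 : ‖Gx‖ * ‖D‖ = ‖h‖ := by rw [← norm_mul, u1]
  have n2 : ‖Gg‖ * ‖D‖ = ‖g‖ := by rw [← norm_mul, u2]
  have hGg0 : 0 < ‖Gg‖ := by
    rcases (norm_nonneg Gg).eq_or_lt with e | e
    · rw [← e, zero_mul] at n2; linarith
    · exact e
  have hratio : ‖Gx‖ = ‖h‖ / ‖g‖ * ‖Gg‖ := by
    rw [← n1, ← n2]; field_simp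
  have w1 : z.im * ‖Gx‖ ^ 2 ≤ Gg.im := tgu_ward hM hz0 _ x 0
  have w2 : z.im * ‖Gg‖ ^ 2 ≤ Gg.im := tgu_ward hM hz0 _ 0 0
  have hGgi : 0 < Gg.im := sa_im_pos hM hz0 _ 0
  have hGgn : Gg.im ≤ ‖Gg‖ := (le_abs_self _).trans (Complex.abs_im_le_norm _)
  have wx : z.im * ‖Gx‖ ^ 2 ≤ (‖h‖ / ‖g‖) ^ (1 / 8 : ℝ) * Gg.im := by
    refine le_trans ?_ (mul_le_mul_of_nonneg_right (tgu_min hr0) hGgi.le)
    rw [min_mul_of_nonneg _ _ hGgi.le, one_mul]
    refine le_min w1 ?_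
    rw [hratio, mul_pow]
    have := mul_le_mul_of_nonneg_left w2 (sq_nonneg (‖h‖ / ‖g‖))
    linarith
  have hDle : ‖D‖ ≤ ‖g‖ * (M * lam + 1 / ‖g‖) := by
    calc ‖D‖ ≤ ‖(1 : ℂ)‖ + ‖(t : ℂ) * (lam * g)‖ := norm_add_le _ _
      _ = 1 + |t| * (lam * ‖g‖) := by
          rw [norm_mul, norm_mul, Complex.norm_real, Complex.norm_real, norm_one,
            Real.norm_eq_abs, Real.norm_eq_abs, abs_of_pos hlam]
      _ ≤ 1 + M * (lam * ‖g‖) := by gcongr
      _ = _ := by field_simp; ring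
  refine ⟨wx, ?_, fun hs => ?_⟩
  · rw [div_le_iff₀ (by positivity)]
    have : ‖h‖ ≤ ‖Gx‖ * (‖g‖ * (M * lam + 1 / ‖g‖)) := by
      rw [← n1]; exact mul_le_mul_of_nonneg_left hDle (norm_nonneg _)
    rw [div_le_iff₀ hgn]
    linarith
  · -- here the denominator is at least one half
    have hD2 : 1 / 2 ≤ ‖D‖ := by
      have e1 : M * (lam * ‖g‖) ≤ 1 / 2 := by
        have : 2 * (M * lam) * ‖g‖ ≤ 1 := by
          have h3 : 2 * (M * lam) ≤ 1 / ‖g‖ := by linarith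
          rwa [le_div_iff₀ hgn] at h3
        linarith
      have e2 : ‖(t : ℂ) * (lam * g)‖ ≤ M * (lam * ‖g‖) := by
        rw [norm_mul, norm_mul, Complex.norm_real, Complex.norm_real,
            Real.norm_eq_abs, Real.norm_eq_abs, abs_of_pos hlam]
        gcongr
      have e3 : ‖(1 : ℂ)‖ ≤ ‖D‖ + ‖(t : ℂ) * (lam * g)‖ := by
        have : (1 : ℂ) = D - (t : ℂ) * (lam * g) := by rw [hD]; ring
        calc ‖(1 : ℂ)‖ = ‖D - (t : ℂ) * (lam * g)‖ := by rw [← this]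
          _ ≤ _ := norm_sub_le _ _
      rw [norm_one] at e3
      linarith
    have hgw1 : z.im * ‖h‖ ^ 2 ≤ g.im := tgu_ward hM hz0 _ x 0
    have hgw2 : z.im * ‖g‖ ^ 2 ≤ g.im := tgu_ward hM hz0 _ 0 0
    have hgn' : g.im ≤ ‖g‖ := (le_abs_self _).trans (Complex.abs_im_le_norm _)
    have wh : z.im * ‖h‖ ^ 2 ≤ (‖h‖ / ‖g‖) ^ (1 / 8 : ℝ) * g.im := by
      refine le_trans ?_ (mul_le_mul_of_nonneg_right (tgu_min hr0) hgi.le)
      rw [min_mul_of_nonneg _ _ hgi.le, one_mul]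
      refine le_min hgw1 ?_
      have e4 : ‖h‖ = ‖h‖ / ‖g‖ * ‖g‖ := by field_simp
      calc z.im * ‖h‖ ^ 2 = (‖h‖ / ‖g‖) ^ 2 * (z.im * ‖g‖ ^ 2) := by
            conv_lhs => rw [e4]
            ring
        _ ≤ _ := mul_le_mul_of_nonneg_left hgw2 (sq_nonneg _)
    have e5 : ‖Gx‖ ≤ 2 * ‖h‖ := by
      rw [← n1]; nlinarith [norm_nonneg Gx]
    calc z.im * ‖Gx‖ ^ 2 ≤ z.im * (2 * ‖h‖) ^ 2 := by gcongr
      _ = 4 * (z.im * ‖h‖ ^ 2) := by ring
      _ ≤ 4 * ((‖h‖ / ‖g‖) ^ (1 / 8 : ℝ) * ‖g‖) := by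
          have : 0 ≤ (‖h‖ / ‖g‖) ^ (1 / 8 : ℝ) := Real.rpow_nonneg hr0 _
          nlinarith
      _ = 4 * ((‖h‖ / ‖g‖) ^ (1 / 8 : ℝ) / (1 / ‖g‖)) := by
          rw [div_div_eq_mul_div, div_one]

/-- the constant of `ub_green` -/
def tguC (M lam : ℝ) (K : ℝ≥0) : ℝ :=
  Real.pi * (K / lam) * (3 * (M * lam) + 1) ^ (1 / 8 : ℝ) + 8

lemma tgu_site (hμ : GoodLaw μ M K) (hlam : 0 < lam) {z : ℂ} (hz0 : 0 < z.im)
    (ω : Site d → ℝ) (x : Site d) :
    ENNReal.ofReal z.im * ∫⁻ t, ‖gc M lam z (Function.update ω 0 t) x 0‖ₑ ^ 2 ∂μ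
      ≤ ENNReal.ofReal (tguC M lam K)
        * ∫⁻ t, ‖gc M lam z (Function.update ω 0 t) x 0‖ₑ ^ (1 / 8 : ℝ) ∂μ := by
  have hM : 0 ≤ M := by linarith [hμ.one_le]
  have hae : ∀ᵐ t ∂μ, |t| ≤ M := by
    have : ∀ᵐ t ∂μ, t ∈ Icc (-M) M := by rw [ae_iff]; exact hμ.supp
    filter_upwards [this] with t ht
    exact abs_le.2 ht
  obtain ⟨r, s, hr, hs, hp⟩ := tgu_point (d := d) hM hlam hz0 ω x
  have hMl : 0 ≤ M * lam := by positivity
  have hA0 : 0 ≤ r ^ (1 / 8 : ℝ) := Real.rpow_nonneg hr _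
  -- lower bound
  have hlow : ENNReal.ofReal ((r / (M * lam + s)) ^ (1 / 8 : ℝ))
      ≤ ∫⁻ t, ‖gc M lam z (Function.update ω 0 t) x 0‖ₑ ^ (1 / 8 : ℝ) ∂μ := by
    calc ENNReal.ofReal ((r / (M * lam + s)) ^ (1 / 8 : ℝ))
        = ∫⁻ _, ENNReal.ofReal ((r / (M * lam + s)) ^ (1 / 8 : ℝ)) ∂μ := by simp
      _ ≤ _ := by
        refine lintegral_mono_ae ?_
        filter_upwards [hae] with t ht
        rw [← ofReal_norm, ENNReal.ofReal_rpow_of_nonneg (norm_nonneg _) (by norm_num)]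
        exact ENNReal.ofReal_le_ofReal
          (Real.rpow_le_rpow (by positivity) (hp t ht).2.1 (by norm_num))
  have hlhs : ENNReal.ofReal z.im * ∫⁻ t, ‖gc M lam z (Function.update ω 0 t) x 0‖ₑ ^ 2 ∂μ
      = ∫⁻ t, ENNReal.ofReal (z.im * ‖gc M lam z (Function.update ω 0 t) x 0‖ ^ 2) ∂μ := by
    rw [← lintegral_const_mul' _ _ ENNReal.ofReal_ne_top]
    refine lintegral_congr fun t => ?_
    rw [ENNReal.ofReal_mul hz0.le, ← ofReal_norm, ENNReal.ofReal_pow (norm_nonneg _)]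
  rw [hlhs]
  refine le_trans ?_ (mul_le_mul' le_rfl hlow)
  have hC0 : 0 ≤ tguC M lam K := by unfold tguC; positivity
  rw [← ENNReal.ofReal_mul hC0, Real.div_rpow hr (by positivity)]
  rcases le_or_gt s (2 * (M * lam) + 1) with hcase | hcase
  · -- bulk case
    calc ∫⁻ t, ENNReal.ofReal (z.im * ‖gc M lam z (Function.update ω 0 t) x 0‖ ^ 2) ∂μ
        ≤ ∫⁻ t, ENNReal.ofReal (Real.pi * r ^ (1 / 8 : ℝ)) *
            ENNReal.ofReal (Real.pi⁻¹ * (gc M lam z (Function.update ω 0 t) 0 0).im) ∂μ := by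
          refine lintegral_mono_ae ?_
          filter_upwards [hae] with t ht
          rw [← ENNReal.ofReal_mul (by positivity)]
          refine ENNReal.ofReal_le_ofReal ((hp t ht).1.trans (le_of_eq ?_))
          have := Real.pi_ne_zero
          field_simp
      _ = ENNReal.ofReal (Real.pi * r ^ (1 / 8 : ℝ)) *
            ∫⁻ t, ENNReal.ofReal (Real.pi⁻¹ * (gc M lam z (Function.update ω 0 t) 0 0).im) ∂μ :=
          lintegral_const_mul' _ _ ENNReal.ofReal_ne_top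
      _ ≤ ENNReal.ofReal (Real.pi * r ^ (1 / 8 : ℝ)) * (K * ENNReal.ofReal (1 / lam)) :=
          mul_le_mul' le_rfl (sa_one_site hμ hlam hz0 ω 0)
      _ = ENNReal.ofReal (Real.pi * r ^ (1 / 8 : ℝ) * (K * (1 / lam))) := by
          rw [ENNReal.ofReal_mul (by positivity : 0 ≤ Real.pi * r ^ (1 / 8 : ℝ)),
            ENNReal.ofReal_mul (by positivity : (0 : ℝ) ≤ K), ENNReal.ofReal_coe_nnreal]
      _ ≤ _ := by
          refine ENNReal.ofReal_le_ofReal ?_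
          have h1 : (M * lam + s) ^ (1 / 8 : ℝ) ≤ (3 * (M * lam) + 1) ^ (1 / 8 : ℝ) :=
            Real.rpow_le_rpow (by positivity) (by linarith) (by norm_num)
          have h2 : 0 < (M * lam + s) ^ (1 / 8 : ℝ) := Real.rpow_pos_of_pos (by positivity) _
          rw [← mul_div_assoc (tguC M lam K), le_div_iff₀ h2]
          calc Real.pi * r ^ (1 / 8 : ℝ) * (K * (1 / lam)) * (M * lam + s) ^ (1 / 8 : ℝ)
              = (Real.pi * (K / lam) * (M * lam + s) ^ (1 / 8 : ℝ)) * r ^ (1 / 8 : ℝ) := by ring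
            _ ≤ tguC M lam K * r ^ (1 / 8 : ℝ) := by
                refine mul_le_mul_of_nonneg_right ?_ hA0
                unfold tguC
                have : Real.pi * (K / lam) * (M * lam + s) ^ (1 / 8 : ℝ)
                    ≤ Real.pi * (K / lam) * (3 * (M * lam) + 1) ^ (1 / 8 : ℝ) :=
                  mul_le_mul_of_nonneg_left h1 (by positivity)
                linarith
  · -- large s
    calc ∫⁻ t, ENNReal.ofReal (z.im * ‖gc M lam z (Function.update ω 0 t) x 0‖ ^ 2) ∂μ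
        ≤ ∫⁻ _, ENNReal.ofReal (4 * (r ^ (1 / 8 : ℝ) / s)) ∂μ := by
          refine lintegral_mono_ae ?_
          filter_upwards [hae] with t ht
          exact ENNReal.ofReal_le_ofReal ((hp t ht).2.2 hcase)
      _ = ENNReal.ofReal (4 * (r ^ (1 / 8 : ℝ) / s)) := by simp
      _ ≤ _ := by
          refine ENNReal.ofReal_le_ofReal ?_
          have hs1 : 1 ≤ s := by linarith
          have h1 : (M * lam + s) ^ (1 / 8 : ℝ) ≤ 2 * s := by
            calc (M * lam + s) ^ (1 / 8 : ℝ) ≤ (2 * s) ^ (1 / 8 : ℝ) :=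
                  Real.rpow_le_rpow (by positivity) (by linarith) (by norm_num)
              _ ≤ (2 * s) ^ (1 : ℝ) :=
                  Real.rpow_le_rpow_of_exponent_le (by linarith) (by norm_num)
              _ = 2 * s := Real.rpow_one _
          have h2 : 0 < (M * lam + s) ^ (1 / 8 : ℝ) := Real.rpow_pos_of_pos (by positivity) _
          rw [← mul_div_assoc (tguC M lam K), le_div_iff₀ h2]
          calc 4 * (r ^ (1 / 8 : ℝ) / s) * (M * lam + s) ^ (1 / 8 : ℝ)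
              ≤ 4 * (r ^ (1 / 8 : ℝ) / s) * (2 * s) :=
                mul_le_mul_of_nonneg_left h1 (by positivity)
            _ = 8 * r ^ (1 / 8 : ℝ) := by field_simp; ring
            _ ≤ tguC M lam K * r ^ (1 / 8 : ℝ) := by
                refine mul_le_mul_of_nonneg_right ?_ hA0
                unfold tguC
                have : 0 ≤ Real.pi * (K / lam) * (3 * (M * lam) + 1) ^ (1 / 8 : ℝ) := by positivity
                linarith

theorem ub_green (hμ : GoodLaw μ M K) (hlam : 0 < lam) :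
    ∃ C : ℝ, 0 < C ∧ ∀ z : ℂ, 0 < z.im → ∀ x : Site d,
      ENNReal.ofReal z.im * ∫⁻ ω, ‖gc M lam z ω x 0‖ₑ ^ 2 ∂(PP d μ)
        ≤ ENNReal.ofReal C * ∫⁻ ω, ‖gc M lam z ω x 0‖ₑ ^ (1 / 8 : ℝ) ∂(PP d μ) := by
  have hM : 0 ≤ M := by linarith [hμ.one_le]
  refine ⟨tguC M lam K, by unfold tguC; positivity, fun z hz0 x => ?_⟩
  have m1 : Measurable fun ω : Site d → ℝ => ‖gc M lam z ω x 0‖ₑ ^ 2 :=
    ((measurable_gc hM hz0 x 0).enorm).pow_const _
  have m2 : Measurable fun ω : Site d → ℝ => ‖gc M lam z ω x 0‖ₑ ^ (1 / 8 : ℝ) :=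
    ((measurable_gc hM hz0 x 0).enorm).pow_const _
  have e1 := lintegral_resample (μ := μ) (0 : Site d) m1
  have e2 := lintegral_resample (μ := μ) (0 : Site d) m2
  have e1' : ∫⁻ ω, ‖gc M lam z ω x 0‖ₑ ^ 2 ∂(PP d μ)
      = ∫⁻ ω, ∫⁻ t, ‖gc M lam z (Function.update ω 0 t) x 0‖ₑ ^ 2 ∂μ ∂(PP d μ) := e1
  have e2' : ∫⁻ ω, ‖gc M lam z ω x 0‖ₑ ^ (1 / 8 : ℝ) ∂(PP d μ)
      = ∫⁻ ω, ∫⁻ t, ‖gc M lam z (Function.update ω 0 t) x 0‖ₑ ^ (1 / 8 : ℝ) ∂μ ∂(PP d μ) := e2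
  rw [e1', e2', ← lintegral_const_mul' _ _ ENNReal.ofReal_ne_top,
    ← lintegral_const_mul' _ _ ENNReal.ofReal_ne_top]
  exact lintegral_mono fun ω => tgu_site hμ hlam hz0 ω x

end Pool.Agent.Helper3.TG
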