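import Pool.Agent.Helper3.TG.SumSn
import Pool.Agent.Helper3.TG.UbGreen

/-! Transport gap, module TGS: the energy density of the moments is bounded on the set of
fractional moment localisation. -/

open scoped ENNReal NNReal InnerProductSpace
open MeasureTheory Set Filter Topology

noncomputable section

namespace Pool.Agent.Helper3.TG

open Pool.Agent.Helper3.Anderson Pool.Agent.Helper3.Crit

variable {d : ℕ} {μ : Measure ℝ} [IsProbabilityMeasure μ] {M lam : ℝ} {K : ℝ≥0}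

theorem mE_bdd (hμ : GoodLaw μ M K) (hlam : 0 < lam) {E0 : ℝ} (hE : E0 ∈ FMS d μ M lam) :
    ∃ r > 0, ∀ p : ℝ, ∃ C : ℝ, ∀ T E : ℝ, 1 / r < T → |E - E0| < r →
      mE d μ M lam p T E ≤ ENNReal.ofReal C := by
  obtain ⟨r0, hr0, C, hC, c, hc, hdec⟩ := hE
  obtain ⟨C', hC', hub⟩ := ub_green (d := d) hμ hlam
  refine ⟨r0 / 2, by positivity, fun p => ?_⟩
  refine ⟨C' * C / Real.pi * ∑' x : Site d, (sn x : ℝ) ^ p * Real.exp (-(c * sn x)),
    fun T E hT hE => ?_⟩
  have hT0 : 0 < T := lt_trans (by positivity) hT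
  have hTi : 0 < T⁻¹ := inv_pos.2 hT0
  set z : ℂ := (E : ℂ) + (T⁻¹ : ℝ) * Complex.I with hz
  have hzi : z.im = T⁻¹ := by
    rw [hz, Complex.add_im, Complex.ofReal_im, Complex.im_ofReal_mul, Complex.I_im]
    ring
  have hTr : T⁻¹ < r0 / 2 := by
    rw [inv_lt_comm₀ hT0 (by positivity), ← one_div]
    exact hT
  have hzr : ‖z - E0‖ < r0 := by
    have e1 : z - E0 = ((E - E0 : ℝ) : ℂ) + ((T⁻¹ : ℝ) : ℂ) * Complex.I := by
      rw [hz]; push_cast; ring
    have e2 : ‖((E - E0 : ℝ) : ℂ)‖ = |E - E0| := by rw [Complex.norm_real, Real.norm_eq_abs]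
    have e3 : ‖((T⁻¹ : ℝ) : ℂ) * Complex.I‖ = T⁻¹ := by
      rw [norm_mul, Complex.norm_I, mul_one, Complex.norm_real, Real.norm_eq_abs, abs_of_pos hTi]
    rw [e1]
    refine lt_of_le_of_lt (norm_add_le _ _) ?_
    rw [e2, e3]
    linarith
  rw [← tsum_sn_rpow_exp d p hc (by positivity)]
  unfold mE
  refine ENNReal.tsum_le_tsum fun x => ?_
  have h1 := hub z (by rw [hzi]; exact hTi) x
  have h2 := hdec z (by rw [hzi]; exact hTi) hzr x 0
  rw [sub_zero] at h2
  rw [hzi] at h1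
  have e4 : ENNReal.ofReal ((sn x : ℝ) ^ p / (Real.pi * T))
      = ENNReal.ofReal ((sn x : ℝ) ^ p) * (ENNReal.ofReal (1 / Real.pi) * ENNReal.ofReal T⁻¹) := by
    rw [← ENNReal.ofReal_mul (by positivity), ← ENNReal.ofReal_mul (by positivity)]
    congr 1
    field_simp
  rw [e4, mul_assoc, mul_assoc]
  refine mul_le_mul_right ?_ _
  calc ENNReal.ofReal (1 / Real.pi) * (ENNReal.ofReal T⁻¹ *
        ∫⁻ ω, ‖gc M lam ((E : ℂ) + (T⁻¹ : ℝ) * Complex.I) ω x 0‖ₑ ^ 2 ∂(PP d μ))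
      ≤ ENNReal.ofReal (1 / Real.pi) * (ENNReal.ofReal C' *
          ENNReal.ofReal (C * Real.exp (-(c * sn x)))) :=
        mul_le_mul_right (h1.trans (mul_le_mul_right h2 _)) _
    _ = ENNReal.ofReal (C' * C / Real.pi * Real.exp (-(c * sn x))) := by
        rw [← ENNReal.ofReal_mul (by positivity), ← ENNReal.ofReal_mul (by positivity)]
        congr 1
        ring

end Pool.Agent.Helper3.TG
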