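import Pool.Agent.Helper3.TG.SumSn
import Pool.Agent.Helper3.TG.Evo

/-! Transport gap, module TGJ: if all energies are fractional moment localised, the time averaged
moments of the evolution are bounded. -/

open scoped ENNReal NNReal InnerProductSpace
open MeasureTheory Set Filter Topology

noncomputable section

namespace Pool.Agent.Helper3.TG

open Pool.Agent.Helper3.Anderson Pool.Agent.Helper3.Crit

variable {d : ℕ} {μ : Measure ℝ} [IsProbabilityMeasure μ] {M lam : ℝ} {K : ℝ≥0}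

/-- the evolution has norm one -/
theorem tgj_norm_evo (V : Site d → ℝ) (hV : Bdd V) (t : ℝ) : ‖evo V hV t‖ = 1 := by
  rw [norm_of_deriv V hV (hasDerivAt_evo V hV) t, evo_zero, norm_dl]

/-- a bound of the norm of the operator -/
theorem tgj_norm_schr_le (V : Site d → ℝ) (hV : Bdd V) {B : ℝ} (hB : ∀ x, |V x| ≤ B) :
    ‖schr V hV‖ ≤ 4 * d + B := by
  have hB0 : 0 ≤ B := (abs_nonneg _).trans (hB 0)
  refine ContinuousLinearMap.opNorm_le_bound _ (by positivity) fun ψ => ?_
  have h1 : schr V hV ψ = -(∑ j : Fin d, ((shift (Pi.single j 1) ψ - ψ)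
      + (shift (-Pi.single j 1) ψ - ψ))) + mulOp V hV ψ := by
    simp only [schr, add_apply, neg_apply, sum_apply, sub_apply, one_apply_eq_self]
  rw [h1]
  have h2 : ‖∑ j : Fin d, ((shift (Pi.single j 1) ψ - ψ) + (shift (-Pi.single j 1) ψ - ψ))‖
      ≤ ∑ _j : Fin d, 4 * ‖ψ‖ := by
    refine norm_sum_le_of_le _ fun j _ => ?_
    have h3 := norm_shift_le (Pi.single j 1 : Site d) ψ
    have h4 := norm_shift_le (-Pi.single j 1 : Site d) ψ
    have h5 := norm_sub_le (shift (Pi.single j 1 : Site d) ψ) ψ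
    have h6 := norm_sub_le (shift (-Pi.single j 1 : Site d) ψ) ψ
    refine (norm_add_le _ _).trans ?_
    linarith
  have h3 := norm_mulOp_le V hV hB ψ
  refine (norm_add_le _ _).trans ?_
  rw [norm_neg]
  rw [Finset.sum_const, Finset.card_univ, Fintype.card_fin, nsmul_eq_mul] at h2
  nlinarith

/-- the function of the operator which gives the evolution, cut off outside the spectrum -/
def tgjf (R t : ℝ) (z : ℂ) : ℂ :=
  Complex.exp (-Complex.I * t * (z.re : ℂ)) * ((max 0 (min 1 (R + 1 - |z.re|)) : ℝ) : ℂ)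

theorem tgjf_cont (R t : ℝ) : Continuous (tgjf R t) := by
  unfold tgjf
  fun_prop

theorem tgjf_norm_le (R t : ℝ) (z : ℂ) : ‖tgjf R t z‖ ≤ 1 := by
  unfold tgjf
  have h1 : ‖Complex.exp (-Complex.I * t * (z.re : ℂ))‖ = 1 := by
    rw [Complex.norm_exp]
    have : (-Complex.I * (t : ℂ) * (z.re : ℂ)).re = 0 := by simp
    rw [this, Real.exp_zero]
  rw [norm_mul, h1, one_mul, Complex.norm_real, Real.norm_eq_abs, abs_of_nonneg (le_max_left _ _)]
  exact max_le zero_le_one (min_le_left _ _)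

theorem tgjf_out (R t : ℝ) {E : ℝ} (hE : E ∉ Icc (-(R + 1)) (R + 1)) : tgjf R t E = 0 := by
  have h1 : R + 1 < |E| := by
    by_contra hcon
    push Not at hcon
    exact hE (abs_le.1 hcon)
  unfold tgjf
  have h2 : max 0 (min 1 (R + 1 - |(E : ℂ).re|)) = (0 : ℝ) := by
    rw [Complex.ofReal_re]
    apply max_eq_left
    exact (min_le_right _ _).trans (by linarith)
  rw [h2, Complex.ofReal_zero, mul_zero]

theorem evo_eq_cfc (V : Site d → ℝ) (hV : Bdd V) {R : ℝ} (hR : ‖schr V hV‖ ≤ R) (t : ℝ) :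
    evo V hV t = cfc (tgjf R t) (schr V hV) (dl 0) := by
  have hH := isSelfAdjoint_schr V hV
  have hN := hH.isStarNormal
  have h1 : cfc (tgjf R t) (schr V hV)
      = cfc (fun z : ℂ => Complex.exp ((-Complex.I * t) • z)) (schr V hV) := by
    apply cfc_congr
    intro z hz
    have hre := hH.mem_spectrum_eq_re hz
    have hn : |z.re| ≤ R := by
      have h2 := spectrum.norm_le_norm_mul_of_mem hz
      have h3 : ‖(1 : L2 d →L[ℂ] L2 d)‖ ≤ 1 := ContinuousLinearMap.norm_id_le
      have h4 : ‖schr V hV‖ * ‖(1 : L2 d →L[ℂ] L2 d)‖ ≤ ‖schr V hV‖ * 1 :=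
        mul_le_mul_of_nonneg_left h3 (norm_nonneg _)
      rw [mul_one] at h4
      exact (Complex.abs_re_le_norm z).trans (h2.trans (h4.trans hR))
    unfold tgjf
    have h3 : max 0 (min 1 (R + 1 - |z.re|)) = (1 : ℝ) := by
      rw [min_eq_left (by linarith)]
      exact max_eq_right zero_le_one
    change Complex.exp (-Complex.I * t * (z.re : ℂ)) * ((max 0 (min 1 (R + 1 - |z.re|)) : ℝ) : ℂ)
      = Complex.exp ((-Complex.I * t) • z)
    rw [h3, Complex.ofReal_one, mul_one, smul_eq_mul, ← hre]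
  have h2 : cfc (fun z : ℂ => Complex.exp ((-Complex.I * t) • z)) (schr V hV)
      = NormedSpace.exp ((-Complex.I * t) • schr V hV) := by
    have hN' : IsStarNormal ((-Complex.I * (t : ℂ)) • schr V hV) := by
      refine ⟨?_⟩
      rw [commute_iff_eq, star_smul, smul_mul_smul_comm, smul_mul_smul_comm, mul_comm]
      rw [hH.star_eq]
    rw [cfc_comp_smul (-Complex.I * (t : ℂ)) Complex.exp (schr V hV)
      (Complex.continuous_exp.continuousOn)]
    exact CFC.complex_exp_eq_normedSpace_exp hN'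
  have h3 : t • (-Complex.I • schr V hV) = (-Complex.I * (t : ℂ)) • schr V hV := by
    rw [mul_comm, mul_smul]; rfl
  unfold evo
  rw [h3, ← h2, ← h1]

theorem mT_bdd (hμ : GoodLaw μ M K) (hlam : 0 < lam) (hF : FMS d μ M lam = univ) (p : ℝ) :
    ∃ C : ℝ, ∀ T : ℝ, 0 < T →
      mT d μ M lam (zero_le_one.trans hμ.one_le) p T ≤ ENNReal.ofReal C := by
  have hM : 0 ≤ M := zero_le_one.trans hμ.one_le
  set R : ℝ := 4 * d + |lam| * M with hR
  have hnorm : ∀ ω : Site d → ℝ, ‖schr (potc M lam ω) (bdd_potc hM ω)‖ ≤ R := fun ω =>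
    tgj_norm_schr_le _ _ (abs_potc_le hM ω)
  obtain ⟨C, hC, c, hc, hQ⟩ := dyn_loc (d := d) hμ hlam (I := Icc (-(R + 1)) (R + 1))
    isCompact_Icc (by rw [hF]; exact subset_univ _)
  choose Q hQm hQi hQb using fun y : Site d => hQ 0 y
  refine ⟨C * ∑' x : Site d, (sn x : ℝ) ^ p * Real.exp (-(c * sn x)), fun T hT => ?_⟩
  rw [← tsum_sn_rpow_exp d p hc hC.le]
  have hae : ∀ᵐ ω ∂(PP d μ), ∀ y : Site d, ∀ t : ℝ,
      ‖(evo (potc M lam ω) (bdd_potc hM ω) t : L2 d) y‖ₑ ^ 2 ≤ Q y ω := by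
    rw [ae_all_iff]
    intro y
    filter_upwards [hQb y] with ω hω t
    have h1 := hω (tgjf R t) (tgjf_cont R t) (fun s => tgjf_norm_le R t s)
      (fun E hE => tgjf_out R t hE)
    rw [← evo_eq_cfc _ _ (hnorm ω) t] at h1
    refine le_trans ?_ h1
    have h2 : ‖(evo (potc M lam ω) (bdd_potc hM ω) t : L2 d) y‖ₑ ≤ 1 := by
      have h3 : ‖(evo (potc M lam ω) (bdd_potc hM ω) t : L2 d) y‖ ≤ 1 :=
        (lp.norm_apply_le_norm (by norm_num) _ y).trans (tgj_norm_evo _ _ t).le
      rw [← ofReal_norm]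
      exact ENNReal.ofReal_le_one.2 h3
    calc ‖(evo (potc M lam ω) (bdd_potc hM ω) t : L2 d) y‖ₑ ^ 2
        ≤ ‖(evo (potc M lam ω) (bdd_potc hM ω) t : L2 d) y‖ₑ ^ 1 :=
          pow_le_pow_right_of_le_one' h2 (by norm_num)
      _ = _ := pow_one _
  have hexp : ENNReal.ofReal (2 / T) * ∫⁻ t in Ioi (0 : ℝ), ENNReal.ofReal (Real.exp (-(2 * t / T)))
      = 1 := by
    have h1 : IntegrableOn (fun t : ℝ => Real.exp (-(2 / T) * t)) (Ioi 0) := by
      exact integrableOn_exp_mul_Ioi (by have : 0 < 2 / T := by positivity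
                                         linarith) 0
    have h2 : (fun t : ℝ => ENNReal.ofReal (Real.exp (-(2 * t / T))))
        = fun t : ℝ => ENNReal.ofReal (Real.exp (-(2 / T) * t)) := by
      funext t; congr 2; ring
    rw [h2, ← ofReal_integral_eq_lintegral_ofReal h1 (Eventually.of_forall fun t => (Real.exp_pos _).le)]
    rw [integral_exp_mul_Ioi (by have : 0 < 2 / T := by positivity
                                 linarith) 0, ← ENNReal.ofReal_mul (by positivity)]
    rw [mul_zero, Real.exp_zero, show 2 / T * (-1 / -(2 / T)) = 1 by field_simp]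
    exact ENNReal.ofReal_one
  have hstep : ∀ᵐ ω ∂(PP d μ), (ENNReal.ofReal (2 / T) * ∫⁻ t in Ioi (0 : ℝ),
      ENNReal.ofReal (Real.exp (-(2 * t / T))) * ∑' x : Site d, ENNReal.ofReal ((sn x : ℝ) ^ p) *
      ‖(evo (potc M lam ω) (bdd_potc hM ω) t : L2 d) x‖ₑ ^ 2)
      ≤ ∑' x : Site d, ENNReal.ofReal ((sn x : ℝ) ^ p) * Q x ω := by
    filter_upwards [hae] with ω hω
    calc (ENNReal.ofReal (2 / T) * ∫⁻ t in Ioi (0 : ℝ),
        ENNReal.ofReal (Real.exp (-(2 * t / T))) * ∑' x : Site d, ENNReal.ofReal ((sn x : ℝ) ^ p) *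
        ‖(evo (potc M lam ω) (bdd_potc hM ω) t : L2 d) x‖ₑ ^ 2)
        ≤ ENNReal.ofReal (2 / T) * ∫⁻ t in Ioi (0 : ℝ),
        ENNReal.ofReal (Real.exp (-(2 * t / T))) *
          ∑' x : Site d, ENNReal.ofReal ((sn x : ℝ) ^ p) * Q x ω := by
          gcongr with t x
          exact hω x t
      _ = (ENNReal.ofReal (2 / T) * ∫⁻ t in Ioi (0 : ℝ),
        ENNReal.ofReal (Real.exp (-(2 * t / T)))) *
          ∑' x : Site d, ENNReal.ofReal ((sn x : ℝ) ^ p) * Q x ω := by
          rw [lintegral_mul_const _ (by fun_prop), mul_assoc]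
      _ = _ := by rw [hexp, one_mul]
  unfold mT
  refine (lintegral_mono_ae hstep).trans ?_
  rw [lintegral_tsum fun x => ((hQm x).const_mul _).aemeasurable]
  refine ENNReal.tsum_le_tsum fun x => ?_
  rw [lintegral_const_mul _ (hQm x)]
  have := hQi x
  rw [sub_zero] at this
  exact mul_le_mul_right this _

end Pool.Agent.Helper3.TG
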