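import Pool.Agent.Helper3.Crit.Msa2
import Pool.Agent.Helper3.Anderson.FinalA

/-! Multiscale analysis with a mass that may depend on the initial scale. -/

open scoped ENNReal NNReal InnerProductSpace
open MeasureTheory Set Filter Topology

noncomputable section

namespace Pool.Agent.Helper3.TG

open Pool.Agent.Helper3.Anderson Pool.Agent.Helper3.Crit

variable {d : ℕ} {μ : Measure ℝ} [IsProbabilityMeasure μ] {M lam : ℝ} {K : ℝ≥0}

lemma wg1u (d q : ℕ) (M lam : ℝ) (K : ℝ≥0) :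
    ∃ c : ℝ, 0 ≤ c ∧ ∀ m : ℝ, 0 < m → ∀ (k L l : ℕ) (N : ℝ), 1 ≤ L → l ≤ L → (2 : ℝ) ^ k ≤ L → (L : ℝ) ≤ N →
      ((2 * 2 ^ (2 * k + 2 * q + 2) + 1 : ℕ) : ℝ) ^ d * wg d M lam K (2 * L + l) (m * N / 2)
        * 2 ^ ((4 * d + 1) * (k + 1)) ≤ c * ((L : ℝ) ^ (9 * d + 1) * Real.exp (-(m / 8 * L))) := by
  set c0 : ℝ := 2 * (C2 M lam K).toReal * (2 * d + 1) with hc0
  have hc00 : 0 ≤ c0 := by positivity
  refine ⟨(2 ^ (2 * q + 4)) ^ d * c0 * 7 ^ (3 * d) * 2 ^ (4 * d + 1), by positivity, ?_⟩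
  intro m hm k L l N hL hl hk hN
  set x : ℝ := (L : ℝ) with hx
  have hx1 : (1 : ℝ) ≤ x := by rw [hx]; exact_mod_cast hL
  have hlx : (l : ℝ) ≤ x := by rw [hx]; exact_mod_cast hl
  have hA := pb2_A q k hk
  have hT := pb2_two d k hk
  have h7 : ((2 * (2 * L + l) + 1 : ℕ) : ℝ) ≤ 7 * x := by
    push_cast
    rw [← hx]
    linarith
  have he : Real.exp (-(m * N / 2 / 4)) ≤ Real.exp (-(m / 8 * x)) := by
    apply Real.exp_le_exp.2
    have : m * x ≤ m * N := mul_le_mul_of_nonneg_left hN hm.le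
    linarith
  have hwg : wg d M lam K (2 * L + l) (m * N / 2)
      = c0 * ((2 * (2 * L + l) + 1 : ℕ) : ℝ) ^ (3 * d) * Real.exp (-(m * N / 2 / 4)) := rfl
  rw [hwg]
  calc ((2 * 2 ^ (2 * k + 2 * q + 2) + 1 : ℕ) : ℝ) ^ d
        * (c0 * ((2 * (2 * L + l) + 1 : ℕ) : ℝ) ^ (3 * d) * Real.exp (-(m * N / 2 / 4)))
        * 2 ^ ((4 * d + 1) * (k + 1))
      ≤ (2 ^ (2 * q + 4) * x ^ 2) ^ d * (c0 * (7 * x) ^ (3 * d) * Real.exp (-(m / 8 * x)))
        * (2 * x) ^ (4 * d + 1) := by gcongr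
    _ = (2 ^ (2 * q + 4)) ^ d * c0 * 7 ^ (3 * d) * 2 ^ (4 * d + 1)
        * (x ^ (9 * d + 1) * Real.exp (-(m / 8 * x))) := by
        rw [mul_pow, mul_pow, mul_pow, ← pow_mul x 2 d]
        have : x ^ (9 * d + 1) = x ^ (2 * d) * x ^ (3 * d) * x ^ (4 * d + 1) := by
          rw [← pow_add, ← pow_add]; congr 1; ring
        rw [this]
        ring

lemma wg2u (d q : ℕ) (M lam : ℝ) (K : ℝ≥0) :
    ∃ c : ℝ, 0 ≤ c ∧ ∀ m : ℝ, 0 < m → ∀ (k L : ℕ) (t : ℝ), 1 ≤ L → (2 : ℝ) ^ k ≤ L → m * L ≤ t →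
      wg d M lam K (2 ^ (k + 1 + q) * L) t * 2 ^ ((4 * d + 1) * (k + 1))
        ≤ c * ((L : ℝ) ^ (10 * d + 1) * Real.exp (-(m / 8 * L))) := by
  set c0 : ℝ := 2 * (C2 M lam K).toReal * (2 * d + 1) with hc0
  have hc00 : 0 ≤ c0 := by positivity
  refine ⟨c0 * (3 * 2 ^ (q + 1)) ^ (3 * d) * 2 ^ (4 * d + 1), by positivity, ?_⟩
  intro m hm k L t hL hk ht
  set x : ℝ := (L : ℝ) with hx
  have hx1 : (1 : ℝ) ≤ x := by rw [hx]; exact_mod_cast hL
  have hT := pb2_two d k hk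
  have h7 : ((2 * (2 ^ (k + 1 + q) * L) + 1 : ℕ) : ℝ) ≤ 3 * 2 ^ (q + 1) * x ^ 2 := by
    push_cast
    rw [← hx]
    have h1 : (1 : ℝ) ≤ 2 ^ (k + 1 + q) * x :=
      one_le_mul_of_one_le_of_one_le (one_le_pow₀ (by norm_num)) hx1
    have h2 : (2 : ℝ) ^ (k + 1 + q) * x = 2 ^ (q + 1) * (2 ^ k * x) := by
      rw [show k + 1 + q = (q + 1) + k by ring, pow_add]; ring
    have h3 : (2 : ℝ) ^ k * x ≤ x ^ 2 := by
      rw [pow_two]; exact mul_le_mul_of_nonneg_right hk (by linarith)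
    have h4 : (2 : ℝ) ^ (q + 1) * (2 ^ k * x) ≤ 2 ^ (q + 1) * x ^ 2 :=
      mul_le_mul_of_nonneg_left h3 (by positivity)
    linarith
  have he : Real.exp (-(t / 4)) ≤ Real.exp (-(m / 8 * x)) := by
    apply Real.exp_le_exp.2
    have : 0 ≤ m * x := by positivity
    linarith
  have hwg : wg d M lam K (2 ^ (k + 1 + q) * L) t
      = c0 * ((2 * (2 ^ (k + 1 + q) * L) + 1 : ℕ) : ℝ) ^ (3 * d) * Real.exp (-(t / 4)) := rfl
  rw [hwg]
  calc c0 * ((2 * (2 ^ (k + 1 + q) * L) + 1 : ℕ) : ℝ) ^ (3 * d) * Real.exp (-(t / 4))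
        * 2 ^ ((4 * d + 1) * (k + 1))
      ≤ c0 * (3 * 2 ^ (q + 1) * x ^ 2) ^ (3 * d) * Real.exp (-(m / 8 * x))
        * (2 * x) ^ (4 * d + 1) := by gcongr
    _ = c0 * (3 * 2 ^ (q + 1)) ^ (3 * d) * 2 ^ (4 * d + 1)
        * (x ^ (10 * d + 1) * Real.exp (-(m / 8 * x))) := by
        rw [mul_pow, mul_pow (2 : ℝ) x, ← pow_mul x 2 (3 * d)]
        have : x ^ (10 * d + 1) = x ^ (2 * (3 * d)) * x ^ (4 * d + 1) := by
          rw [← pow_add]; congr 1; ring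
        rw [this]
        ring

lemma tail_aux {D L0 L : ℕ} (h3 : 3 ≤ L0) (hL : L0 ≤ L) {m : ℝ}
    (hm : 16 * ((D : ℝ) + 1) * Real.log L0 ≤ m * L0) :
    (L : ℝ) ^ D * Real.exp (-(m / 16 * L)) ≤ 1 / L0 := by
  have h3r : (3 : ℝ) ≤ L0 := by exact_mod_cast h3
  have hL0 : (0 : ℝ) < L0 := by linarith
  have hLr : (L0 : ℝ) ≤ L := by exact_mod_cast hL
  have hLp : (0 : ℝ) < L := by linarith
  have hlog1 : 1 ≤ Real.log L0 := by
    rw [Real.le_log_iff_exp_le hL0]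
    have := Real.exp_one_lt_d9
    linarith
  set x : ℝ := L / L0 with hx
  have hx1 : 1 ≤ x := by rw [hx, le_div_iff₀ hL0]; linarith
  have hLx : (L : ℝ) = L0 * x := by rw [hx]; field_simp
  have hlx : Real.log x ≤ x - 1 := Real.log_le_sub_one_of_pos (by linarith)
  have hlL : Real.log L = Real.log L0 + Real.log x := by
    rw [hLx, Real.log_mul hL0.ne' (by linarith)]
  have hD : (0 : ℝ) ≤ D := Nat.cast_nonneg D
  have e1 : Real.log L ≤ x * Real.log L0 := by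
    rw [hlL]; nlinarith
  have e2 : (D : ℝ) * Real.log L ≤ D * (x * Real.log L0) := mul_le_mul_of_nonneg_left e1 hD
  have e3 : ((D : ℝ) + 1) * (x * Real.log L0) ≤ m / 16 * L := by
    rw [hLx]
    have := mul_le_mul_of_nonneg_right hm (by linarith : 0 ≤ x)
    nlinarith
  have e4 : Real.log L0 ≤ x * Real.log L0 := by nlinarith
  have e5 : (L : ℝ) ^ D = Real.exp (D * Real.log L) := by
    rw [mul_comm, Real.exp_mul, Real.exp_log hLp, Real.rpow_natCast]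
  rw [e5, ← Real.exp_add, one_div, ← Real.exp_log hL0, ← Real.exp_neg]
  apply Real.exp_le_exp.2
  linarith

theorem msa2_unif_core (d : ℕ) (hS : MsaStep d μ M lam K) :
    ∃ Lmin : ℕ, ∀ m : ℝ, 0 < m → ∀ l0 L0 : ℕ, Lmin ≤ L0 → 1 ≤ l0 → 4 * l0 ≤ L0 →
      L0 ≤ 2 ^ 7 * l0 → 16 * (10 * d + 2) * Real.log L0 ≤ m * L0 → ∀ z : ℂ, 0 ≤ z.im →
      (PP d μ).real {ω | ¬ GoodBox (potc M lam ω) z 0 l0 L0
        (Real.exp (-(m * ((L0 + l0 + 1 : ℕ) : ℝ))))} ≤ pb3_a d * Real.exp (-1) →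
      MSA2 d μ M lam z 6 l0 L0 (m / 2) (pb3_a d) := by
  set a0 : ℝ := pb3_a d with ha0
  have ha0p : 0 < a0 := pb3_a_pos d
  obtain ⟨c1, hc1, hw1⟩ := wg1u d 6 M lam K
  obtain ⟨c2, hc2, hw2⟩ := wg2u d 6 M lam K
  obtain ⟨N1, hN1⟩ := exists_nat_ge (c1 / (a0 / 3))
  obtain ⟨N2, hN2⟩ := exists_nat_ge (c2 / (a0 / 3))
  refine ⟨max 3 (max N1 N2), ?_⟩
  intro m hm l0 L0 hL0' hl0 h4 hr hlog z hz hinit
  have hL03 : 3 ≤ L0 := (le_max_left _ _).trans hL0'
  have hN1' : c1 / (a0 / 3) ≤ L0 := hN1.trans (by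
    exact_mod_cast (((le_max_left _ _).trans (le_max_right _ _)).trans hL0' : N1 ≤ L0))
  have hN2' : c2 / (a0 / 3) ≤ L0 := hN2.trans (by
    exact_mod_cast (((le_max_right _ _).trans (le_max_right _ _)).trans hL0' : N2 ≤ L0))
  have hL03r : (3 : ℝ) ≤ L0 := by exact_mod_cast hL03
  have hlog1 : 1 ≤ Real.log L0 := by
    rw [Real.le_log_iff_exp_le (by linarith)]
    have := Real.exp_one_lt_d9
    linarith
  have hL0m : 24 ≤ m * L0 := by
    refine le_trans ?_ hlog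
    have : (0 : ℝ) ≤ d := Nat.cast_nonneg d
    nlinarith
  have hLmin : ∀ L : ℕ, L0 ≤ L → c1 * ((L : ℝ) ^ (9 * d + 1) * Real.exp (-(m / 16 * L))) ≤ a0 / 3 ∧
      c2 * ((L : ℝ) ^ (10 * d + 1) * Real.exp (-(m / 16 * L))) ≤ a0 / 3 := by
    intro L hL
    have e1 := tail_aux (D := 10 * d + 1) hL03 hL (m := m) (by
      push_cast; linarith [hlog])
    have hL1r : (1 : ℝ) ≤ L := by
      have : (3 : ℝ) ≤ L := by exact_mod_cast hL03.trans hL
      linarith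
    have e2 : (L : ℝ) ^ (9 * d + 1) * Real.exp (-(m / 16 * L)) ≤ 1 / L0 := by
      refine le_trans ?_ e1
      exact mul_le_mul_of_nonneg_right (pow_le_pow_right₀ hL1r (by omega)) (Real.exp_pos _).le
    constructor
    · refine (mul_le_mul_of_nonneg_left e2 hc1).trans ?_
      rw [mul_one_div, div_le_iff₀ (by linarith)]
      rw [div_le_iff₀ (by positivity)] at hN1'
      linarith
    · refine (mul_le_mul_of_nonneg_left e1 hc2).trans ?_
      rw [mul_one_div, div_le_iff₀ (by linarith)]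
      rw [div_le_iff₀ (by positivity)] at hN2'
      linarith
  set mk : ℕ → ℝ := fun k => m * (1 - 18 / 2 ^ 6 * (1 - (1 / 2) ^ k)) with hmk
  have hhalf : ∀ k : ℕ, (0 : ℝ) < (1 / 2) ^ k ∧ ((1 : ℝ) / 2) ^ k ≤ 1 := fun k =>
    ⟨by positivity, pow_le_one₀ (by norm_num) (by norm_num)⟩
  have hmk1 : ∀ k, mk k ≤ m := fun k => by
    have := hhalf k
    simp only [hmk]
    nlinarith
  have hmk2 : ∀ k, m / 2 < mk k := fun k => by
    have := hhalf k
    simp only [hmk]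
    nlinarith
  have key : ∀ k : ℕ, (PP d μ).real {ω | ¬ GoodBox (potc M lam ω) z 0 (lsc 6 l0 L0 k)
      (Lsc 6 L0 k) (Real.exp (-(mk k * ((Lsc 6 L0 k + lsc 6 l0 L0 k + 1 : ℕ) : ℝ))))}
      ≤ a0 * Real.exp (-((3 / 2 : ℝ) ^ k)) := by
    intro k
    induction k with
    | zero =>
      simp only [Lsc, lsc, hmk, pow_zero, sub_self, mul_zero, sub_zero, mul_one]
      exact hinit
    | succ k ih =>
      set L := Lsc 6 L0 k with hL
      set l := lsc 6 l0 L0 k with hl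
      have hl1 : 1 ≤ l := pb2_one_le hl0 h4 k
      have h4k : 4 * l ≤ L := pb2_four (by norm_num) h4 k
      have hL1 : 1 ≤ L := by omega
      have h2k : (2 : ℝ) ^ k ≤ L := by
        have := pb2_two_pow 6 L0 k
        have h1 : 2 ^ k ≤ L := le_trans (by nlinarith [Nat.one_le_two_pow (n := k)]) this
        exact_mod_cast h1
      have hLL : L0 ≤ L := by
        have := pb2_two_pow 6 L0 k
        exact le_trans (by nlinarith [Nat.one_le_two_pow (n := k)]) this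
      set Y : ℕ := 2 ^ (k + 1 + 6) with hY
      have hY128 : 128 ≤ Y := by
        calc 128 = 2 ^ 7 := by norm_num
          _ ≤ 2 ^ (k + 1 + 6) := Nat.pow_le_pow_right (by norm_num) (by omega)
      obtain ⟨n, hn1, hn2⟩ := pb2_n hl1 h4k hY128
      set N : ℝ := ((L + l + 1 : ℕ) : ℝ) with hN
      have hN0 : 0 < N := by rw [hN]; positivity
      have hYr : (128 : ℝ) ≤ (Y : ℝ) := by exact_mod_cast hY128
      have hLr : (1 : ℝ) ≤ (L : ℝ) := by exact_mod_cast hL1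
      set N' : ℝ := ((Lsc 6 L0 (k + 1) + lsc 6 l0 L0 (k + 1) + 1 : ℕ) : ℝ) with hN'
      have hN'e : N' = (Y : ℝ) * L + L + 1 := by
        rw [hN', pb2_succ, pb2_succ', ← hL, ← hY]
        push_cast
        ring
      have hstep := hS hz (l := l) (L := L) (l' := L) (L' := Y * L) (n := n)
        (A := 2 ^ (2 * k + 2 * 6 + 2)) (ρ := Real.exp (-(mk k * N))) (t := m * N / 2)
        (t' := m * N' / Y) hl1 (by omega) (Real.exp_pos _).le
        (Real.exp_le_one_iff.2 (by have := hmk2 k; have : 0 < mk k * N := mul_pos (by linarith) hN0; linarith))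
        (by rw [hN'e]; positivity)
        (by
          rw [← Real.exp_add, Real.exp_lt_one_iff]
          have := mul_lt_mul_of_pos_right (hmk2 k) hN0
          linarith)
        hn1
        (by
          have h1 := pb2_ratio hr k
          rw [← hL, ← hl] at h1
          calc Y * L ≤ Y * (2 ^ (k + 6 + 1) * l) := Nat.mul_le_mul_left _ h1
            _ = 2 ^ (2 * k + 2 * 6 + 2) * l := by rw [hY]; ring)
      have hrho : Real.exp (-(mk k * N)) ^ n * Real.exp (m * N' / Y)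
          ≤ Real.exp (-(mk (k + 1) * N')) := by
        rw [← Real.exp_nat_mul, ← Real.exp_add]
        apply Real.exp_le_exp.2
        have h1 : (Y : ℝ) * L ≤ n * N + 12 * L := by
          rw [hN]; exact_mod_cast hn2
        have h2 := pb2_exp hm (hmk1 k) (hmk2 k).le hYr hLr hN'e h1
        have h3 : mk (k + 1) = mk k - 18 * m / Y := by
          simp only [hmk, hY]
          push_cast
          rw [one_div_pow, one_div_pow, pow_add (2 : ℝ) (k + 1) 6, pow_succ]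
          field_simp
          ring
        rw [h3]
        linarith
      have hp := pb3_main d k measureReal_nonneg ih
      have hy : (3 / 2 : ℝ) ^ (k + 1) ≤ m / 16 * L := by
        have h1 : (2 : ℝ) ^ k * L0 ≤ L := by exact_mod_cast pb2_two_pow 6 L0 k
        have h2 : (3 / 2 : ℝ) ^ k ≤ 2 ^ k := pow_le_pow_left₀ (by norm_num) (by norm_num) _
        have h3 : (0 : ℝ) ≤ 2 ^ k := by positivity
        have h4 : m * ((2 : ℝ) ^ k * L0) ≤ m * L := mul_le_mul_of_nonneg_left h1 hm.le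
        rw [pow_succ]
        nlinarith
      have hwg0 : ∀ (L' : ℕ) (t : ℝ), 0 ≤ wg d M lam K L' t := fun L' t => by
        unfold wg
        positivity
      have hP : (1 : ℝ) ≤ 2 ^ ((4 * d + 1) * (k + 1)) := one_le_pow₀ (by norm_num)
      have h1 := pb3_tail (by positivity : 0 ≤ a0 / 3)
        (mul_nonneg (by positivity) (hwg0 _ _)) hP
        (hw1 m hm k L l N hL1 (by omega) h2k (by rw [hN]; push_cast; linarith [Nat.cast_nonneg (α := ℝ) l]))
        (hLmin L hLL).1 hy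
      have h2 := pb3_tail (by positivity : 0 ≤ a0 / 3) (hwg0 _ _) hP
        (hw2 m hm k L (m * N' / Y) hL1 h2k (by
          rw [le_div_iff₀ (by linarith), hN'e]
          nlinarith)) (hLmin L hLL).2 hy
      have h3 := (pb2_prob_mono (μ := μ) (M := M) (lam := lam) z L (Y * L) hrho).trans
        (hstep.trans (add_le_add (add_le_add hp h1) h2))
      have h4 : pb3_a d / 3 * Real.exp (-((3 / 2 : ℝ) ^ (k + 1)))
          + a0 / 3 * Real.exp (-((3 / 2 : ℝ) ^ (k + 1)))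
          + a0 / 3 * Real.exp (-((3 / 2 : ℝ) ^ (k + 1)))
            = a0 * Real.exp (-((3 / 2 : ℝ) ^ (k + 1))) := by
        rw [ha0]; ring
      rw [h4] at h3
      exact h3
  intro k
  refine (pb2_prob_mono z _ _ ?_).trans (key k)
  apply Real.exp_le_exp.2
  have h1 : (Lsc 6 L0 k : ℝ) ≤ ((Lsc 6 L0 k + lsc 6 l0 L0 k + 1 : ℕ) : ℝ) := by
    exact_mod_cast (by omega : Lsc 6 L0 k ≤ Lsc 6 L0 k + lsc 6 l0 L0 k + 1)
  have h2 : m / 2 * (Lsc 6 L0 k : ℝ)
      ≤ mk k * ((Lsc 6 L0 k + lsc 6 l0 L0 k + 1 : ℕ) : ℝ) :=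
    mul_le_mul (hmk2 k).le h1 (by positivity) (by linarith [hmk2 k])
  linarith

theorem msa2_unif (d : ℕ) (hμ : GoodLaw μ M K) (hlam : 0 < lam) :
    ∃ Lmin : ℕ, ∀ m : ℝ, 0 < m → ∀ l0 L0 : ℕ, Lmin ≤ L0 → 1 ≤ l0 → 4 * l0 ≤ L0 →
      L0 ≤ 2 ^ 7 * l0 → 16 * (10 * d + 2) * Real.log L0 ≤ m * L0 → ∀ z : ℂ, 0 ≤ z.im →
      (PP d μ).real {ω | ¬ GoodBox (potc M lam ω) z 0 l0 L0
        (Real.exp (-(m * ((L0 + l0 + 1 : ℕ) : ℝ))))} ≤ pb3_a d * Real.exp (-1) →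
      MSA2 d μ M lam z 6 l0 L0 (m / 2) (pb3_a d) := by
  refine msa2_unif_core (K := K) d ?_
  intro z hz l L l' L' n A ρ t t' h1 h2 h3 h4 h5 h6 h7 h8
  exact msa_step hμ hlam hz h1 h2 h3 h4 h5 h6 h7 h8

end Pool.Agent.Helper3.TG
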