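import Mathlib
import Pool.Agent.Helper2.LL.Plancherel

/-! Transport gap, module TGG: Plancherel on the line, in the normalisation of the energy variable. -/

open scoped ENNReal NNReal InnerProductSpace
open MeasureTheory Set Filter Topology FourierTransform

noncomputable section

namespace Pool.Agent.Helper3.TG


theorem plancherel_aux (g : ℝ → ℝ≥0∞) {a : ℝ} (ha : a ≠ 0) :
    ∫⁻ E : ℝ, g E = ENNReal.ofReal |a| * ∫⁻ w : ℝ, g (a * w) := by
  have h1 := Real.smul_map_volume_mul_left ha
  have h2 : ∫⁻ E : ℝ, g E ∂(ENNReal.ofReal |a| • Measure.map (a * ·) volume) = ∫⁻ E : ℝ, g E := by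
    rw [h1]
  rw [← h2, lintegral_smul_measure, smul_eq_mul]
  congr 1
  exact lintegral_map_equiv g (Homeomorph.mulLeft₀ a ha).toMeasurableEquiv

theorem plancherel {f : ℝ → ℂ} (h1 : Integrable f) (h2 : MemLp f 2) :
    ∫⁻ E : ℝ, ‖∫ t : ℝ, Complex.exp (Complex.I * E * t) * f t‖ₑ ^ 2
      = ENNReal.ofReal (2 * Real.pi) * ∫⁻ t : ℝ, ‖f t‖ₑ ^ 2 := by
  have hpi : (-(2 * Real.pi)) ≠ 0 := by
    have := Real.pi_pos
    linarith
  rw [plancherel_aux _ hpi, ← Pool.Agent.Helper2.LL.plancherel f h1 h2, abs_neg,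
    abs_of_pos (by positivity)]
  congr 1
  refine lintegral_congr fun w => ?_
  congr 2
  rw [Real.fourier_eq']
  refine integral_congr_ae (Eventually.of_forall fun t => ?_)
  simp only [smul_eq_mul]
  congr 2
  simp only [RCLike.inner_apply, conj_trivial]
  push_cast
  ring

end Pool.Agent.Helper3.TG
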