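import Pool.Agent.Helper3.TG.Contract
import Pool.Agent.Helper3.TG.Prob

/-! Definitions for the sharp transport gap. -/

open scoped ENNReal NNReal
open MeasureTheory Set Filter Topology

noncomputable section

namespace Pool.Agent.Helper3.TG

open Pool.Agent.Helper3.Anderson Pool.Agent.Helper3.Crit

variable {d : ℕ}

/-- Every solution of `(H - z) ψ = 0` in the box of radius `L` around `0` with `|ψ| ≤ b` on its
outer boundary has `ℓ²` norm at most `S b` in this box. -/
def AP (V : Site d → ℝ) (z : ℂ) (L : ℕ) (S : ℝ) : Prop :=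
  ∀ (ψ : Site d → ℂ) (b : ℝ), 0 ≤ b → (∀ y, sn y = L + 1 → ‖ψ y‖ ≤ b) →
    (∀ u, sn u ≤ L → hop V z ψ u = 0) → ∑ x ∈ box (0 : Site d) L, ‖ψ x‖ ^ 2 ≤ (S * b) ^ 2

/-- The square of the Hilbert-Schmidt norm of the part of the Green function with range more than
`n` in the box of radius `L + 1` around `0`. -/
def hsq (V : Site d → ℝ) (z : ℂ) (n L : ℕ) : ℝ :=
  ∑ x ∈ box (0 : Site d) (L + 1), ∑ y ∈ box (0 : Site d) (L + 1),
    (if n < sn (x - y) then ‖green V z x y‖ ^ 2 else 0)

end Pool.Agent.Helper3.TG
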