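import Pool.Agent.Helper3.TG.Defs

/-! Transport gap: summation over the lattice of powers times exponentials (for TGJ and TGS). -/

open scoped ENNReal NNReal InnerProductSpace
open MeasureTheory Set Filter Topology

noncomputable section

namespace Pool.Agent.Helper3.TG

open Pool.Agent.Helper3.Anderson Pool.Agent.Helper3.Crit

variable {d : ℕ}

/-- powers are dominated by exponentials on the natural numbers -/
theorem natpow_le_exp (p : ℝ) {c : ℝ} (hc : 0 < c) :
    ∃ B : ℝ, 0 < B ∧ ∀ n : ℕ, (n : ℝ) ^ p ≤ B * Real.exp (c * n) := by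
  have h1 : Tendsto (fun n : ℕ => (n : ℝ) ^ p * Real.exp (-c * n)) atTop (𝓝 0) :=
    (tendsto_rpow_mul_exp_neg_mul_atTop_nhds_zero p c hc).comp tendsto_natCast_atTop_atTop
  obtain ⟨B, hB⟩ := h1.bddAbove_range
  refine ⟨max B 1, lt_max_of_lt_right one_pos, fun n => ?_⟩
  have h2 : (n : ℝ) ^ p * Real.exp (-c * n) ≤ max B 1 := (hB ⟨n, rfl⟩).trans (le_max_left _ _)
  have h3 : (n : ℝ) ^ p = (n : ℝ) ^ p * Real.exp (-c * n) * Real.exp (c * n) := by
    rw [mul_assoc, ← Real.exp_add]
    rw [show -c * (n : ℝ) + c * n = 0 by ring, Real.exp_zero, mul_one]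
  rw [h3]
  exact mul_le_mul_of_nonneg_right h2 (Real.exp_pos _).le

theorem summable_sn_rpow_exp (p : ℝ) {c : ℝ} (hc : 0 < c) :
    Summable fun x : Site d => (sn x : ℝ) ^ p * Real.exp (-(c * sn x)) := by
  obtain ⟨B, hB0, hB⟩ := natpow_le_exp p (c := c / 2) (by positivity)
  refine ((summable_exp_sn (d := d) (a := c / 2) (by positivity)).mul_left B).of_nonneg_of_le
    (fun x => by positivity) fun x => ?_
  calc (sn x : ℝ) ^ p * Real.exp (-(c * sn x))
      ≤ B * Real.exp (c / 2 * sn x) * Real.exp (-(c * sn x)) :=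
        mul_le_mul_of_nonneg_right (hB _) (Real.exp_pos _).le
    _ = B * Real.exp (-(c / 2 * sn x)) := by
        rw [mul_assoc, ← Real.exp_add]
        congr 2
        ring

theorem tsum_sn_rpow_exp (d : ℕ) (p : ℝ) {c A : ℝ} (hc : 0 < c) (hA : 0 ≤ A) :
    ∑' x : Site d, ENNReal.ofReal ((sn x : ℝ) ^ p) * ENNReal.ofReal (A * Real.exp (-(c * sn x)))
      = ENNReal.ofReal (A * ∑' x : Site d, (sn x : ℝ) ^ p * Real.exp (-(c * sn x))) := by
  have h1 : ∀ x : Site d, ENNReal.ofReal ((sn x : ℝ) ^ p) *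
      ENNReal.ofReal (A * Real.exp (-(c * sn x)))
      = ENNReal.ofReal (A * ((sn x : ℝ) ^ p * Real.exp (-(c * sn x)))) := by
    intro x
    rw [← ENNReal.ofReal_mul (by positivity)]
    congr 1
    ring
  simp_rw [h1]
  rw [← tsum_mul_left, ENNReal.ofReal_tsum_of_nonneg (fun x => by positivity)
    ((summable_sn_rpow_exp p hc).mul_left A)]

end Pool.Agent.Helper3.TG
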